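import Pool.Agent.Helper5.TL.Final

/-!
# Final statements
-/

namespace Pool.Agent.Helper5.TL

open Module Filter Topology
open scoped Pointwise

universe u v

/-- Passing to the group generated by `S`. -/
theorem exists_rate' {Γ : Type*} [Group Γ] [DecidableEq Γ] (S : Finset Γ) (hne : S.Nonempty) :
    ∃ ρ : ℝ, Tendsto (fun n : ℕ => Real.log ((S ^ n).card : ℝ) / n) atTop (𝓝 ρ) ∧
      ∃ (S' : Finset (Subgroup.closure (S : Set Γ))),
      Subgroup.closure (S' : Set (Subgroup.closure (S : Set Γ))) = ⊤ ∧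
      ∀ l : ℕ, 0 < l → (∀ n : ℕ, 2 ^ n ≤ ((S' ^ l) ^ n).card) → Real.log 2 / l ≤ ρ := by
  classical
  obtain ⟨ρ, hρ⟩ := Pool.Agent.Helper2.Gap.exists_rate S hne
  refine ⟨ρ, hρ, ?_⟩
  set G := Subgroup.closure (S : Set Γ) with hG
  have hmem : ∀ s ∈ S, s ∈ G := fun s hs => Subgroup.subset_closure hs
  let S' : Finset G := S.attach.image (fun s => ⟨s.1, hmem s.1 s.2⟩)
  have hmap : S'.image (G.subtype) = S := by
    ext x
    simp only [S', Finset.mem_image, Finset.mem_attach, true_and, Subtype.exists]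
    constructor
    · rintro ⟨a, _, ⟨b, hb, hab⟩, rfl⟩
      have hba : b = a := congrArg Subtype.val hab
      subst hba
      exact hb
    · intro hx
      exact ⟨x, hmem x hx, ⟨x, hx, rfl⟩, rfl⟩
  have hcard : ∀ n, (S' ^ n).card = (S ^ n).card := by
    intro n
    rw [← hmap, ← Finset.image_pow, Finset.card_image_of_injective _ G.subtype_injective]
  have htop : Subgroup.closure (S' : Set G) = ⊤ := by
    apply Subgroup.map_injective G.subtype_injective
    rw [MonoidHom.map_closure, ← Finset.coe_image, hmap, ← MonoidHom.range_eq_map,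
      Subgroup.range_subtype, hG]
  refine ⟨S', htop, ?_⟩
  intro l hl hw
  refine Pool.Agent.Helper2.Gap.rate_ge S ρ hρ l hl ?_
  intro n
  have h1 := hw n
  rw [← pow_mul] at h1 ⊢
  rwa [← hcard]

theorem rate_of_words2 {G : Type*} [Group G] [DecidableEq G] {S' : Finset G} {ρ : ℝ}
    (h : ∀ l : ℕ, 0 < l → (∀ n : ℕ, 2 ^ n ≤ ((S' ^ l) ^ n).card) → Real.log 2 / l ≤ ρ) {B : ℕ}
    (hw : HasWords2 S' B) : 2 * Real.log 2 / B ≤ ρ := by
  obtain ⟨l, hl, hlB, hw⟩ := hw
  refine le_trans ?_ (h l hl hw)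
  have hl' : (0 : ℝ) < l := by exact_mod_cast hl
  have hlog : 0 < Real.log 2 := Real.log_pos (by norm_num)
  have hlB' : (2 : ℝ) * l ≤ B := by exact_mod_cast hlB
  rw [div_le_div_iff₀ (by linarith) hl']
  nlinarith

theorem final_charP {F : Type u} [Field F] (p : ℕ) [Fact p.Prime] [CharP F p] (d : ℕ)
    [DecidableEq (GL (Fin d) F)] (S : Finset (GL (Fin d) F)) (hne : S.Nonempty)
    (hsol : ∃ H : Subgroup (Subgroup.closure (S : Set (GL (Fin d) F))),
      H.FiniteIndex ∧ Group.IsSolvable H) :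
    ∃ ρ : ℝ, Tendsto (fun n : ℕ => Real.log ((S ^ n).card : ℝ) / n) atTop (𝓝 ρ) ∧
      ((∃ H : Subgroup (Subgroup.closure (S : Set (GL (Fin d) F))),
        H.FiniteIndex ∧ Group.IsNilpotent H) ∨ 2 * Real.log 2 / (3 * d ^ 2) ≤ ρ) := by
  obtain ⟨ρ, hρ, S', hS', hw⟩ := exists_rate' S hne
  refine ⟨ρ, hρ, ?_⟩
  by_cases hnil : (∃ H : Subgroup (Subgroup.closure (S : Set (GL (Fin d) F))),
        H.FiniteIndex ∧ Group.IsNilpotent H)
  · exact Or.inl hnil
  right
  obtain ⟨l, hl, hls, hl2⟩ := words_charP S' hS' p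
    (Subgroup.closure (S : Set (GL (Fin d) F))).subtype (Subgroup.subtype_injective _) hsol hnil
  have := rate_of_words2 hw (B := 3 * d ^ 2) ⟨l, hl, hls, hl2⟩
  push_cast at this
  exact this

/-- The elementary estimate behind the choice of the exponent. -/
theorem exp_estimate {h ρ : ℝ} (hh : 0 < h) {d : ℕ} (hd : 0 < d)
    (hw : ∀ m : ℕ, 1 ≤ m → Real.log 4 ≤ m * h → 2 * Real.log 2 / ((2 * m + 1) * d ^ 2) ≤ ρ) :
    min h (Real.log 4) / (5 * d ^ 2) ≤ ρ := by
  have hlog4 : Real.log 4 = 2 * Real.log 2 := by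
    rw [show (4 : ℝ) = 2 ^ 2 by norm_num, Real.log_pow]; norm_num
  have hlog : 0 < Real.log 4 := Real.log_pos (by norm_num)
  have hd' : (0 : ℝ) < (d : ℝ) ^ 2 := by positivity
  rcases le_or_gt (Real.log 4) h with h4 | h4
  · have := hw 1 le_rfl (by push_cast; linarith)
    refine le_trans ?_ this
    rw [min_eq_right h4, ← hlog4]
    push_cast
    rw [div_le_div_iff₀ (by positivity) (by positivity)]
    nlinarith
  · set m := ⌈Real.log 4 / h⌉₊ with hm
    have hm1 : Real.log 4 / h ≤ m := Nat.le_ceil _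
    have hm2 : (m : ℝ) < Real.log 4 / h + 1 := Nat.ceil_lt_add_one (by positivity)
    have hmpos : 1 ≤ m := by
      have : 0 < Real.log 4 / h := by positivity
      exact Nat.one_le_iff_ne_zero.2 (by
        intro h0
        rw [h0] at hm1
        push_cast at hm1
        linarith)
    have h5 := hw m hmpos (by rwa [div_le_iff₀ hh] at hm1)
    refine le_trans ?_ h5
    rw [min_eq_left h4.le, ← hlog4]
    have h6 : (m : ℝ) * h < Real.log 4 + h := by
      have := mul_lt_mul_of_pos_right hm2 hh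
      rwa [add_mul, div_mul_cancel₀ _ hh.ne', one_mul] at this
    rw [div_le_div_iff₀ (by positivity) (by positivity)]
    have h7 : (2 * (m : ℝ) + 1) * h ≤ 5 * Real.log 4 := by nlinarith
    nlinarith [mul_le_mul_of_nonneg_right h7 hd'.le]

/-- Conclusion for the ratio `θ` of two eigenvalues. -/
def RatioBound {k : Type u} [Field k] [CharZero k] (θ : k) (d : ℕ) (ρ : ℝ) : Prop :=
  (∀ n, 0 < n → θ ^ n ≠ 1) ∧
  (¬ (IsIntegral ℤ θ ∧ IsIntegral ℤ θ⁻¹) → 2 * Real.log 2 / (3 * d ^ 2) ≤ ρ) ∧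
  (IsIntegral ℤ θ ∧ IsIntegral ℤ θ⁻¹ →
    Real.log 2 / (33 * d ^ 2 * (minpoly ℚ θ).natDegree ^ 2) ≤ ρ ∧
    ∀ z : ℂ, Polynomial.aeval z (minpoly ℚ θ) = 0 →
      min |Real.log ‖z‖| (Real.log 4) / (5 * d ^ 2) ≤ ρ)

theorem ratioBound_map {k K : Type*} [Field k] [CharZero k] [Field K] [CharZero K] (ι : k →+* K)
    {θ : k} {d : ℕ} {ρ : ℝ} (h : RatioBound θ d ρ) : RatioBound (ι θ) d ρ := by
  have hmin : minpoly ℚ (ι θ) = minpoly ℚ θ :=
    minpoly.algHom_eq ι.toRatAlgHom ι.injective θ
  have hint : ∀ x : k, IsIntegral ℤ (ι x) ↔ IsIntegral ℤ x := fun x =>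
    isIntegral_algHom_iff ι.toIntAlgHom ι.injective
  have hinv : ι θ⁻¹ = (ι θ)⁻¹ := map_inv₀ ι θ
  refine ⟨?_, ?_, ?_⟩
  · intro n hn hcon
    apply h.1 n hn
    rw [← map_pow] at hcon
    exact ι.injective (by rw [hcon, map_one])
  · rw [← hinv, hint, hint]
    exact h.2.1
  · rw [← hinv, hint, hint, hmin]
    exact h.2.2

theorem final_char0 {F : Type u} [Field F] [CharZero F] (d : ℕ)
    [DecidableEq (GL (Fin d) F)] (S : Finset (GL (Fin d) F)) (hne : S.Nonempty)
    (hsol : ∃ H : Subgroup (Subgroup.closure (S : Set (GL (Fin d) F))),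
      H.FiniteIndex ∧ Group.IsSolvable H) :
    ∃ ρ : ℝ, Tendsto (fun n : ℕ => Real.log ((S ^ n).card : ℝ) / n) atTop (𝓝 ρ) ∧
      ((∃ H : Subgroup (Subgroup.closure (S : Set (GL (Fin d) F))),
        H.FiniteIndex ∧ Group.IsNilpotent H) ∨
        ((∃ g ∈ Subgroup.closure (S : Set (GL (Fin d) F)), ∃ x y : AlgebraicClosure F,
          (((g : Matrix (Fin d) (Fin d) F).map
            (algebraMap F (AlgebraicClosure F))).charpoly).IsRoot x ∧
          (((g : Matrix (Fin d) (Fin d) F).map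
            (algebraMap F (AlgebraicClosure F))).charpoly).IsRoot y ∧ RatioBound (x / y) d ρ) ∧
        (FiniteDimensional ℚ (algebraicClosure ℚ F) →
          Real.log 2 / (33 * d ^ 6 * (finrank ℚ (algebraicClosure ℚ F)) ^ 2) ≤ ρ))) := by
  classical
  obtain ⟨ρ, hρ, S', hS', hw⟩ := exists_rate' S hne
  refine ⟨ρ, hρ, ?_⟩
  by_cases hnil : (∃ H : Subgroup (Subgroup.closure (S : Set (GL (Fin d) F))),
        H.FiniteIndex ∧ Group.IsNilpotent H)
  · exact Or.inl hnil
  right
  have hlog : 0 < Real.log 2 := Real.log_pos (by norm_num)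
  obtain ⟨F', hF'c, hF'⟩ := Pool.Agent.Helper16.TL.exists_countable_subfield S
  let f : GL (Fin d) F' →* GL (Fin d) F := Matrix.GeneralLinearGroup.map F'.subtype
  have hf : Function.Injective f := by
    intro a b hab
    have h1 : (a : Matrix (Fin d) (Fin d) F').map F'.subtype =
        (b : Matrix (Fin d) (Fin d) F').map F'.subtype := congrArg Units.val hab
    exact Units.ext (Matrix.map_injective F'.subtype_injective h1)
  have hrange : Subgroup.closure (S : Set (GL (Fin d) F)) ≤ f.range := by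
    rw [Subgroup.closure_le]
    intro s hs
    obtain ⟨s', hs'⟩ := hF' s hs
    exact ⟨s', hs'⟩
  let φ : Subgroup.closure (S : Set (GL (Fin d) F)) →* GL (Fin d) F' :=
    (MonoidHom.ofInjective hf).symm.toMonoidHom.comp (Subgroup.inclusion hrange)
  have hφ : Function.Injective φ :=
    (MonoidHom.ofInjective hf).symm.injective.comp (Subgroup.inclusion_injective hrange)
  have hfφ : ∀ g : Subgroup.closure (S : Set (GL (Fin d) F)), f (φ g) = g := by
    intro g
    have h1 := (MonoidHom.ofInjective hf).apply_symm_apply (Subgroup.inclusion hrange g)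
    have h2 := congrArg Subtype.val h1
    exact h2
  obtain ⟨hd, g, x, y, hx, hy, hxy, hroot, hnu, hu⟩ := words_char0 S' hS' φ hφ hsol hnil
  have hC' : CharZero (AlgebraicClosure F') :=
    charZero_of_injective_algebraMap (algebraMap F' (AlgebraicClosure F')).injective
  have hC : CharZero (AlgebraicClosure F) :=
    charZero_of_injective_algebraMap (algebraMap F (AlgebraicClosure F)).injective
  have hcount : Countable (AlgebraicClosure F') :=
    Pool.Agent.Helper16.TL.countable_algebraicClosure F'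
  have hd' : (0 : ℝ) < (d : ℝ) ^ 2 := by positivity
  -- the bounds for the ratio
  have hratio : RatioBound (x / y) d ρ := by
    refine ⟨hroot, ?_, ?_⟩
    · intro h
      have := rate_of_words2 hw (hnu h)
      push_cast at this
      exact this
    · intro h
      have key : ∀ z : ℂ, Polynomial.aeval z (minpoly ℚ (x / y)) = 0 → ∀ m : ℕ, 1 ≤ m →
          4 ≤ (max ‖z‖ ‖z‖⁻¹) ^ m → 2 * Real.log 2 / ((2 * m + 1) * d ^ 2) ≤ ρ := by
        intro z hz m hm hzm
        have := rate_of_words2 hw (hu h z m hz hm hzm)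
        push_cast at this
        exact this
      have hdeg : Real.log 2 / (33 * d ^ 2 * (minpoly ℚ (x / y)).natDegree ^ 2) ≤ ρ := by
        obtain ⟨z, hz, hz2⟩ := exists_big_root (x / y) h.1 h.2 hxy hroot
        set D := (minpoly ℚ (x / y)).natDegree with hD
        have hDpos : 0 < D := minpoly.natDegree_pos h.1.tower_top
        have hD2 : 1 ≤ D ^ 2 := Nat.one_le_pow _ _ hDpos
        have h1 := key z hz (32 * D ^ 2) (by omega) (by
          have e : 32 * D ^ 2 = (16 * D ^ 2) * 2 := by ring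
          have h2 : 4 ≤ ‖z‖ ^ (32 * D ^ 2) := by
            rw [e, pow_mul]
            nlinarith
          exact h2.trans (pow_le_pow_left₀ (norm_nonneg _) (le_max_left _ _) _))
        refine le_trans ?_ h1
        push_cast
        have hD2' : (1 : ℝ) ≤ (D : ℝ) ^ 2 := by exact_mod_cast hD2
        rw [div_le_div_iff₀ (by positivity) (by positivity)]
        nlinarith [mul_pos hlog hd', mul_le_mul_of_nonneg_left hD2' (mul_pos hlog hd').le]
      refine ⟨hdeg, ?_⟩
      intro z hz
      have hρ0 : 0 ≤ ρ := le_trans (by positivity) hdeg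
      rcases eq_or_ne (Real.log ‖z‖) 0 with h0 | h0
      · rw [h0, abs_zero]
        have : min (0 : ℝ) (Real.log 4) = 0 := min_eq_left (Real.log_nonneg (by norm_num))
        rw [this, zero_div]
        exact hρ0
      · refine exp_estimate (abs_pos.2 h0) hd ?_
        intro m hm hmlog
        apply key z hz m hm
        have hz0 : 0 < ‖z‖ := by
          rcases (norm_nonneg z).eq_or_lt with h | h
          · exfalso; apply h0; rw [← h, Real.log_zero]
          · exact h
        have hmax : Real.log (max ‖z‖ ‖z‖⁻¹) = |Real.log ‖z‖| := by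
          rcases le_total 1 ‖z‖ with h1 | h1
          · rw [max_eq_left ((inv_le_one_of_one_le₀ h1).trans h1),
              abs_of_nonneg (Real.log_nonneg h1)]
          · rw [max_eq_right (h1.trans ((one_le_inv₀ hz0).2 h1)), Real.log_inv,
              abs_of_nonpos (Real.log_nonpos hz0.le h1)]
        have hmpos : 0 < max ‖z‖ ‖z‖⁻¹ := lt_max_of_lt_left hz0
        rw [← Real.log_le_log_iff (by norm_num) (by positivity), Real.log_pow, hmax]
        exact hmlog
  -- transfer to the algebraic closure of `F`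
  let ι : AlgebraicClosure F' →ₐ[F'] AlgebraicClosure F := IsAlgClosed.lift
  have hmat : ((φ g : Matrix (Fin d) (Fin d) F').map
      (algebraMap F' (AlgebraicClosure F'))).map (ι : AlgebraicClosure F' →+* AlgebraicClosure F) =
      ((g : GL (Fin d) F) : Matrix (Fin d) (Fin d) F).map (algebraMap F (AlgebraicClosure F)) := by
    have h1 : (φ g : Matrix (Fin d) (Fin d) F').map F'.subtype =
        ((g : GL (Fin d) F) : Matrix (Fin d) (Fin d) F) := congrArg Units.val (hfφ g)
    rw [← h1]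
    ext i j
    simp only [Matrix.map_apply]
    exact ι.commutes _
  have hroot' : ∀ t : AlgebraicClosure F', (((φ g : Matrix (Fin d) (Fin d) F').map
        (algebraMap F' (AlgebraicClosure F'))).charpoly).IsRoot t →
      ((((g : GL (Fin d) F) : Matrix (Fin d) (Fin d) F).map
        (algebraMap F (AlgebraicClosure F))).charpoly).IsRoot (ι t) := by
    intro t ht
    rw [← hmat, Matrix.charpoly_map]
    exact ht.map
  have hxy' : ι (x / y) = ι x / ι y := map_div₀ ι x y
  have hratio' : RatioBound (ι x / ι y) d ρ := by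
    rw [← hxy']
    exact ratioBound_map (ι : AlgebraicClosure F' →+* AlgebraicClosure F) hratio
  refine ⟨⟨g, g.2, ι x, ι y, hroot' x hx, hroot' y hy, hratio'⟩, ?_⟩
  intro hfd
  set D := finrank ℚ (algebraicClosure ℚ F) with hD
  have hDpos : 0 < D := finrank_pos
  have hD1 : (1 : ℝ) ≤ (D : ℝ) := by exact_mod_cast hDpos
  have hd1 : (1 : ℝ) ≤ (d : ℝ) := by exact_mod_cast hd
  by_cases hint : IsIntegral ℤ (ι x / ι y) ∧ IsIntegral ℤ (ι x / ι y)⁻¹
  · refine le_trans ?_ (hratio'.2.2 hint).1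
    obtain ⟨hF, hdeg⟩ := Pool.Agent.Helper84.TL.natDegree_minpoly_div_le
      ((g : GL (Fin d) F) : Matrix (Fin d) (Fin d) F) (ι x) (ι y) (hroot' x hx) (hroot' y hy)
    have h1 := Pool.Agent.Helper84.TL.natDegree_minpoly_rat_le (ι x / ι y) hF hint.1.tower_top
    have h2 : (minpoly ℚ (ι x / ι y)).natDegree ≤ d ^ 2 * D :=
      h1.trans (Nat.mul_le_mul_right _ hdeg)
    set D' := (minpoly ℚ (ι x / ι y)).natDegree with hD'
    have hD'pos : 0 < D' := minpoly.natDegree_pos hint.1.tower_top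
    have h3 : (D' : ℝ) ≤ d ^ 2 * D := by exact_mod_cast h2
    have hD'1 : (0 : ℝ) < D' := by exact_mod_cast hD'pos
    apply div_le_div_of_nonneg_left hlog.le (by positivity)
    calc 33 * (d : ℝ) ^ 2 * (D' : ℝ) ^ 2 ≤ 33 * (d : ℝ) ^ 2 * ((d : ℝ) ^ 2 * (D : ℝ)) ^ 2 := by
          gcongr
      _ = 33 * (d : ℝ) ^ 6 * (D : ℝ) ^ 2 := by ring
  · refine le_trans ?_ (hratio'.2.1 hint)
    rw [div_le_div_iff₀ (by positivity) (by positivity)]
    have h1 : (d : ℝ) ^ 2 ≤ (d : ℝ) ^ 6 * (D : ℝ) ^ 2 := by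
      calc (d : ℝ) ^ 2 = (d : ℝ) ^ 2 * (1 : ℝ) ^ 2 := by ring
        _ ≤ (d : ℝ) ^ 6 * (D : ℝ) ^ 2 := by
          apply mul_le_mul (pow_le_pow_right₀ hd1 (by norm_num)) _ (by positivity) (by positivity)
          exact pow_le_pow_left₀ (by norm_num) hD1 2
    nlinarith [mul_le_mul_of_nonneg_left h1 hlog.le, mul_pos hlog hd']

end Pool.Agent.Helper5.TL
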