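import Pool.Agent.Helper5.TL.Similar

/-!
# Ping-pong for affine actions
-/

namespace Pool.Agent.Helper5.TL

open Module NNReal

/-- `e true` and `e false` generate a free semigroup (equal length words suffice here). -/
def Free₂ {G : Type*} [Group G] (e : Bool → G) : Prop :=
  ∀ L L' : List Bool, L.length = L'.length → (L.map e).prod = (L'.map e).prod → L = L'

theorem free_of_pingpong {G X : Type*} [Group G] (act : G → X → X)
    (hone : ∀ x, act 1 x = x)
    (hact : ∀ g h x, act (g * h) x = act g (act h x)) (B : Set X) (x₀ : X) (hx₀ : x₀ ∈ B)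
    (e : Bool → G) (hB : ∀ i, ∀ x ∈ B, act (e i) x ∈ B)
    (hdisj : ∀ x ∈ B, ∀ y ∈ B, act (e true) x ≠ act (e false) y) : Free₂ e := by
  have hprod : ∀ L : List Bool, ∀ x ∈ B, act (L.map e).prod x ∈ B := by
    intro L
    induction L with
    | nil => intro x hx; simpa [hone] using hx
    | cons i L ih =>
      intro x hx
      rw [List.map_cons, List.prod_cons, hact]
      exact hB i _ (ih x hx)
  intro L
  induction L with
  | nil =>
    intro L' hlen _
    exact (List.length_eq_zero_iff.1 hlen.symm).symm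
  | cons i L ih =>
    intro L' hlen heq
    cases L' with
    | nil => simp at hlen
    | cons j L' =>
      rw [List.map_cons, List.prod_cons, List.map_cons, List.prod_cons] at heq
      have hij : i = j := by
        by_contra hne
        have h1 := congrArg (fun g => act g x₀) heq
        simp only [hact] at h1
        have hL := hprod L x₀ hx₀
        have hL' := hprod L' x₀ hx₀
        cases i <;> cases j
        · exact hne rfl
        · exact hdisj _ hL' _ hL h1.symm
        · exact hdisj _ hL _ hL' h1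
        · exact hne rfl
      subst hij
      have := ih L' (by simpa using hlen) (mul_left_cancel heq)
      rw [this]

theorem Free₂.inv {G : Type*} [Group G] {e : Bool → G} (h : Free₂ e) :
    Free₂ (fun i => (e i)⁻¹) := by
  have key : ∀ L : List Bool, (L.map (fun i => (e i)⁻¹)).prod = ((L.reverse.map e).prod)⁻¹ := by
    intro L
    rw [List.prod_inv_reverse, List.map_reverse, List.map_reverse, List.reverse_reverse,
      List.map_map]
    rfl
  intro L L' hlen heq
  rw [key, key, inv_inj] at heq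
  have := h _ _ (by simpa using hlen) heq
  simpa using this

variable {k L G : Type*} [Field k] [AddCommGroup L] [Module k L] [Group G]

/-- An affine action with linear part `A`: a cocycle. -/
def Cocycle (A : G →* Module.End k L) (b : G → L) : Prop :=
  ∀ g h, b (g * h) = A g (b h) + b g

/-- The affine action. -/
def aff (A : G →* Module.End k L) (b : G → L) (g : G) (x : L) : L := A g x + b g

theorem Cocycle.map_one {A : G →* Module.End k L} {b : G → L} (h : Cocycle A b) : b 1 = 0 := by
  have := h 1 1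
  simpa using this

theorem Cocycle.aff_one {A : G →* Module.End k L} {b : G → L} (h : Cocycle A b) (x : L) :
    aff A b 1 x = x := by
  simp [aff, h.map_one]

theorem Cocycle.aff_mul {A : G →* Module.End k L} {b : G → L} (h : Cocycle A b) (g g' : G)
    (x : L) : aff A b (g * g') x = aff A b g (aff A b g' x) := by
  simp only [aff, h g g', map_mul, Module.End.mul_apply, map_add, add_assoc]

theorem aff_sub {A : G →* Module.End k L} {b : G → L} (g : G) (x y : L) :
    aff A b g x - aff A b g y = A g (x - y) := by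
  simp only [aff, map_sub]
  abel

theorem Cocycle.aff_inv_fix {A : G →* Module.End k L} {b : G → L} (h : Cocycle A b) {g : G}
    {x : L} (hx : aff A b g x = x) : aff A b g⁻¹ x = x := by
  conv_lhs => rw [← hx]
  rw [← h.aff_mul, inv_mul_cancel, h.aff_one]

variable {Γ₀ : Type*} [LinearOrderedCommGroupWithZero Γ₀]

namespace SimNorm

variable [IsAlgClosed k] [FiniteDimensional k L] [Nontrivial L]
  {op : Γ₀ → Γ₀ → Γ₀} {V : k →*₀ Γ₀} {A : G →* Module.End k L} {N : Subgroup G} {η : N → k}

omit [IsAlgClosed k] [FiniteDimensional k L] [Nontrivial L] in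
theorem r_one (σ : SimNorm op V A N η) : σ.r 1 = 1 := by
  have h := σ.r_mul 1 1
  rw [mul_one] at h
  exact (mul_eq_left₀ (σ.r_ne 1)).1 h.symm

omit [IsAlgClosed k] [FiniteDimensional k L] [Nontrivial L] in
theorem r_inv (σ : SimNorm op V A N η) (g : G) : σ.r g⁻¹ = (σ.r g)⁻¹ := by
  have h := σ.r_mul g g⁻¹
  rw [mul_inv_cancel, σ.r_one] at h
  exact eq_inv_of_mul_eq_one_right h.symm

omit [IsAlgClosed k] [FiniteDimensional k L] [Nontrivial L] in
theorem r_pow (σ : SimNorm op V A N η) (g : G) (n : ℕ) : σ.r (g ^ n) = (σ.r g) ^ n := by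
  induction n with
  | zero => rw [pow_zero, pow_zero, σ.r_one]
  | succ n ih => rw [pow_succ, σ.r_mul, ih, pow_succ]

omit [IsAlgClosed k] [Nontrivial L] in
/-- An element with ratio different from `1` has a fixed point. -/
theorem exists_fix (σ : SimNorm op V A N η) {b : G → L} (z : G)
    (hz : σ.r z ≠ 1) : ∃ p, aff A b z p = p := by
  have hinj : Function.Injective (A z - 1 : Module.End k L) := by
    rw [injective_iff_map_eq_zero]
    intro x hx
    rw [LinearMap.sub_apply, Module.End.one_apply, sub_eq_zero] at hx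
    have h := σ.ν_act z x
    rw [hx] at h
    by_contra hne
    have hν : σ.ν x ≠ 0 := fun h0 => hne ((σ.ν_zero x).1 h0)
    exact hz ((mul_eq_right₀ hν).1 h.symm)
  have hsurj := (LinearMap.injective_iff_surjective (f := (A z - 1 : Module.End k L))).1 hinj
  obtain ⟨p, hp⟩ := hsurj (-b z)
  refine ⟨p, ?_⟩
  rw [LinearMap.sub_apply, Module.End.one_apply] at hp
  rw [aff]
  have : A z p = p - b z := by
    rw [sub_eq_iff_eq_add] at hp
    rw [hp]; abel
  rw [this]; abel

end SimNorm

/-- The words used: `z^k y z^k`, `y z^{2k}`, `z^{2k} y`. -/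
def IsWd (z y : G) (m : ℕ) (g : G) : Prop :=
  g = z ^ m * y * z ^ m ∨ g = y * z ^ (2 * m) ∨ g = z ^ (2 * m) * y

theorem ultra_free_lt {V : k →*₀ Γ₀} {A : G →* Module.End k L} {N : Subgroup G} {η : N → k}
    (σ : SimNorm (fun a b => max a b) V A N η) {b : G → L} (hb : Cocycle A b) (z y : G) (p : L)
    (hp : aff A b z p = p) (hy : aff A b y p ≠ p) (hz : σ.r z < 1) (hyz : σ.r y * σ.r z ≤ 1) :
    Free₂ (fun i => if i then z * y * z else y * (z * z)) := by
  set δ := σ.ν (aff A b y p - p) with hδ
  have hδ0 : δ ≠ 0 := fun h => hy (sub_eq_zero.1 ((σ.ν_zero _).1 h))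
  have hδpos : 0 < δ := zero_lt_iff.2 hδ0
  have hzw : ∀ w x, σ.ν (aff A b (z * w) x - p) = σ.r z * σ.ν (aff A b w x - p) := by
    intro w x
    rw [hb.aff_mul, ← σ.ν_act, ← aff_sub (b := b), hp]
  have hyw : ∀ w x, aff A b w p = p →
      aff A b (y * w) x - p = A (y * w) (x - p) + (aff A b y p - p) := by
    intro w x hw
    rw [← aff_sub (b := b), hb.aff_mul y w p, hw]
    abel
  have hzz : aff A b (z * z) p = p := by rw [hb.aff_mul, hp, hp]
  have hsmall : ∀ x, σ.ν (x - p) ≤ δ → σ.ν (aff A b (z * y * z) x - p) ≤ σ.r z * δ := by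
    intro x hx
    rw [mul_assoc, hzw, hyw z x hp]
    refine mul_le_mul_right ((σ.ν_add _ _).trans (max_le ?_ le_rfl)) _
    rw [σ.ν_act, σ.r_mul]
    calc σ.r y * σ.r z * σ.ν (x - p) ≤ 1 * δ := mul_le_mul' hyz hx
      _ = δ := one_mul _
  have hlt : σ.r z * δ < δ := by
    calc σ.r z * δ < 1 * δ := mul_lt_mul_of_pos_right hz hδpos
      _ = δ := one_mul _
  have hfar : ∀ x, σ.ν (x - p) ≤ δ → σ.ν (A (y * (z * z)) (x - p)) < δ := by
    intro x hx
    rw [σ.ν_act, σ.r_mul, σ.r_mul]
    calc σ.r y * (σ.r z * σ.r z) * σ.ν (x - p) = (σ.r y * σ.r z) * (σ.r z * σ.ν (x - p)) := by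
          simp only [mul_assoc]
      _ ≤ 1 * (σ.r z * δ) := mul_le_mul' hyz (mul_le_mul_right hx _)
      _ = σ.r z * δ := one_mul _
      _ < δ := hlt
  have hb1 : ∀ x, σ.ν (x - p) ≤ δ → σ.ν (aff A b (y * (z * z)) x - p) ≤ δ := by
    intro x hx
    rw [hyw _ x hzz]
    exact (σ.ν_add _ _).trans (max_le (hfar x hx).le le_rfl)
  have hb2 : ∀ x, σ.ν (x - p) ≤ δ → δ ≤ σ.ν (aff A b (y * (z * z)) x - p) := by
    intro x hx
    rw [hyw _ x hzz]
    have h1 := σ.ν_add (A (y * (z * z)) (x - p) + (aff A b y p - p))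
      (-(A (y * (z * z)) (x - p)))
    rw [σ.ν_neg, add_neg_cancel_comm, ← hδ] at h1
    rcases le_max_iff.1 h1 with h2 | h2
    · exact h2
    · exact absurd (hfar x hx) (not_lt.2 h2)
  apply free_of_pingpong (aff A b) hb.aff_one hb.aff_mul {x | σ.ν (x - p) ≤ δ} p
  · change σ.ν (p - p) ≤ δ
    rw [sub_self, (σ.ν_zero 0).2 rfl]
    exact hδpos.le
  · intro i x hx
    cases i
    · exact hb1 x hx
    · exact (hsmall x hx).trans hlt.le
  · intro x hx y' hy' heq
    simp only [if_true, Bool.false_eq_true, if_false] at heq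
    have h1 := hsmall x hx
    have h2 := hb2 y' hy'
    rw [← heq] at h2
    exact absurd (h1.trans_lt hlt) (not_lt.2 h2)

theorem ultra_free {V : k →*₀ Γ₀} {A : G →* Module.End k L} {N : Subgroup G} {η : N → k}
    (σ : SimNorm (fun a b => max a b) V A N η) {b : G → L} (hb : Cocycle A b) (z y : G) (p : L)
    (hp : aff A b z p = p) (hy : aff A b y p ≠ p) (hz : σ.r z ≠ 1)
    (hlt : σ.r z < 1 → σ.r y * σ.r z ≤ 1) (hgt : 1 < σ.r z → 1 ≤ σ.r y * σ.r z) :
    ∃ e : Bool → G, Free₂ e ∧ ∀ i, IsWd z y 1 (e i) := by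
  rcases lt_or_gt_of_ne hz with h | h
  · refine ⟨_, ultra_free_lt σ hb z y p hp hy h (hlt h), ?_⟩
    intro i
    cases i
    · right; left
      simp only [Bool.false_eq_true, if_false]
      rw [mul_one, pow_two]
    · left
      simp
  · have h1 := ultra_free_lt σ hb z⁻¹ y⁻¹ p (hb.aff_inv_fix hp)
      (fun hf => hy (by have := hb.aff_inv_fix hf; rwa [inv_inv] at this))
      (by rw [σ.r_inv]; exact inv_lt_one_of_one_lt₀ h)
      (by
        rw [σ.r_inv, σ.r_inv, ← mul_inv]
        exact inv_le_one_of_one_le₀ (hgt h))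
    refine ⟨_, h1.inv, ?_⟩
    intro i
    cases i
    · right; right
      simp only [Bool.false_eq_true, if_false, mul_inv_rev, inv_inv]
      rw [mul_one, pow_two]
    · left
      simp only [if_true, mul_inv_rev, inv_inv]
      rw [pow_one, mul_assoc]

end Pool.Agent.Helper5.TL
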