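import Pool.Agent.Helper5.TL.Retract
import Pool.Agent.Helper5.TL.PingPong

/-!
# The affine action attached to a linear group that is not virtually nilpotent
-/

namespace Pool.Agent.Helper5.TL

open Module

universe u v

variable {k : Type u} {G : Type*} {V : Type v} [Field k] [Group G] [AddCommGroup V] [Module k V]

/-- The result of the algebraic part. -/
structure AffData (ρ : G →* Module.End k V) where
  G₁ : Subgroup G
  fi : G₁.FiniteIndex
  index_le : 4 * G₁.index ≤ finrank k V ^ 2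
  N : Subgroup G₁
  nN : N.Normal
  fN : N.FiniteIndex
  L : Type v
  iL : AddCommGroup L
  mL : Module k L
  fL : FiniteDimensional k L
  nL : Nontrivial L
  A : G₁ →* Module.End k L
  b : G₁ → L
  hb : Cocycle A b
  η : N → k
  hη : ∀ n : N, ∀ x, A n x = η n • x
  nofix : ∀ x : L, ∃ n : N, aff A b n x ≠ x
  nontors : ∀ M, 0 < M → ∃ n : N, η n ^ M ≠ 1
  E : ℕ
  hE : 0 < E
  ratio : ∀ g : G₁, ∃ x y : k, (ρ g).HasEigenvalue x ∧ (ρ g).HasEigenvalue y ∧
    ∃ h : g ^ E ∈ N, η ⟨g ^ E, h⟩ = (x / y) ^ E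

variable (ρ : G →* Module.End k V) {N : Subgroup G} [N.Normal]

/-- The reduction to scalars. -/
theorem exists_reduction [FiniteDimensional k V] {m : ℕ} {F : ℕ → Submodule k V}
    {c : ℕ → N →* k} (hF : FlagC2 ρ N m F c) {χ ψ : N →* k} {n₀ : N}
    (hχψ : χ n₀ ≠ ψ n₀) {τ₀ : Module.End k V} (hτ₀ : IsT ρ χ ψ τ₀)
    (hno : ∀ τ, IsT ρ χ ψ τ → ∃ n : N, cj ρ n τ - τ ∉ LU ρ ψ ⊥) :
    ∃ (U₀ U₁ : Submodule k V) (τ₁ : Module.End k V), U₀ ≤ U₁ ∧ ¬ U₁ ≤ U₀ ∧ U₁ ≤ wt ρ N χ ∧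
      (∀ g ∈ stab N χ ⊓ stab N ψ, ∀ x ∈ U₀, ρ g x ∈ U₀) ∧
      (∀ g ∈ stab N χ ⊓ stab N ψ, ∀ x ∈ U₁, ρ g x ∈ U₁) ∧
      (∀ n : N, ∀ x ∈ U₁, ρ n x - χ n • x ∈ U₀) ∧ IsT ρ χ ψ τ₁ ∧
      (∀ g ∈ stab N χ ⊓ stab N ψ, cj ρ g τ₁ - τ₁ ∈ LU ρ ψ U₁) ∧
      ∀ x ∈ LU ρ ψ U₁, ∃ n : N, cj ρ n (τ₁ + x) - (τ₁ + x) ∉ LU ρ ψ U₀ := by
  classical
  set G₁ := stab N χ ⊓ stab N ψ with hG₁
  have hN : ∀ n : N, (n : G) ∈ G₁ := fun n => ⟨le_stab N χ n.2, le_stab N ψ n.2⟩
  let 𝒰 : Set (Submodule k V) := {U | U ≤ wt ρ N χ ∧ (∀ g ∈ G₁, ∀ x ∈ U, ρ g x ∈ U) ∧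
    ∀ τ, IsT ρ χ ψ τ → ∃ n : N, cj ρ n τ - τ ∉ LU ρ ψ U}
  have hbot : (⊥ : Submodule k V) ∈ 𝒰 := by
    refine ⟨bot_le, ?_, hno⟩
    intro g _ x hx
    rw [(Submodule.mem_bot k).1 hx, map_zero]
    exact Submodule.zero_mem _
  obtain ⟨U₀, hU₀, hmax⟩ := (wellFounded_gt : WellFounded
    ((· > ·) : Submodule k V → Submodule k V → Prop)).has_min 𝒰 ⟨⊥, hbot⟩
  have hU₀le := hU₀.1
  have hU₀inv := hU₀.2.1
  -- the whole weight space is not in the set
  have hnle : ¬ wt ρ N χ ≤ U₀ := by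
    intro h
    obtain ⟨n, hn⟩ := hU₀.2.2 τ₀ hτ₀
    exact hn (LU_mono ρ h ((hτ₀.cj ρ (hN n).1 (hN n).2).sub_mem ρ hτ₀))
  let U₁ : Submodule k V :=
    { carrier := {x | x ∈ wt ρ N χ ∧ ∀ n : N, ρ n x - χ n • x ∈ U₀}
      zero_mem' := ⟨Submodule.zero_mem _, fun n => by simp⟩
      add_mem' := by
        rintro a b ⟨ha, ha'⟩ ⟨hb, hb'⟩
        refine ⟨Submodule.add_mem _ ha hb, fun n => ?_⟩
        have e : ρ n (a + b) - χ n • (a + b) = (ρ n a - χ n • a) + (ρ n b - χ n • b) := by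
          rw [map_add, smul_add]; abel
        rw [e]
        exact U₀.add_mem (ha' n) (hb' n)
      smul_mem' := by
        rintro t a ⟨ha, ha'⟩
        refine ⟨Submodule.smul_mem _ _ ha, fun n => ?_⟩
        have e : ρ n (t • a) - χ n • (t • a) = t • (ρ n a - χ n • a) := by
          rw [map_smul, smul_sub, smul_comm]
        rw [e]
        exact U₀.smul_mem _ (ha' n) }
  have hU₁le : U₁ ≤ wt ρ N χ := fun x hx => hx.1
  have hU₀₁ : U₀ ≤ U₁ := fun x hx => ⟨hU₀le hx, fun n =>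
    U₀.sub_mem (hU₀inv n (hN n) x hx) (U₀.smul_mem _ hx)⟩
  have hU₁inv : ∀ g ∈ G₁, ∀ x ∈ U₁, ρ g x ∈ U₁ := by
    intro g hg x hx
    refine ⟨rho_mem_wt_of_stab ρ hx.1 hg.1, fun n => ?_⟩
    have h1 : χ n = χ (MulAut.conjNormal g⁻¹ n) := ((stab N χ).inv_mem hg.1 n).symm
    rw [rho_comm, h1, ← map_smul, ← map_sub]
    exact hU₀inv g hg _ (hx.2 _)
  obtain ⟨-, v, hvw, hvU, hv⟩ := exists_wt_eigen ρ hF U₀
    (fun n x hx => hU₀inv n (hN n) x hx) hnle
  have hU₁nle : ¬ U₁ ≤ U₀ := fun h => hvU (h ⟨hvw, hv⟩)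
  have hU₁not : U₁ ∉ 𝒰 := fun h => hmax U₁ h (lt_of_le_not_ge hU₀₁ hU₁nle)
  have hex : ∃ τ, IsT ρ χ ψ τ ∧ ∀ n : N, cj ρ n τ - τ ∈ LU ρ ψ U₁ := by
    by_contra hcon
    push Not at hcon
    exact hU₁not ⟨hU₁le, hU₁inv, hcon⟩
  obtain ⟨τ₁, hτ₁, hfix⟩ := hex
  refine ⟨U₀, U₁, τ₁, hU₀₁, hU₁nle, hU₁le, hU₀inv, hU₁inv, fun n x hx => hx.2 n, hτ₁, ?_, ?_⟩
  · intro g hg
    set x := cj ρ g τ₁ - τ₁ with hx
    have hxL : x ∈ LU ρ ψ (wt ρ N χ) := (hτ₁.cj ρ hg.1 hg.2).sub_mem ρ hτ₁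
    have hn : ∀ n : N, cj ρ n x - x ∈ LU ρ ψ U₁ := by
      intro n
      have e : cj ρ n x - x =
          cj ρ g (cj ρ (MulAut.conjNormal g⁻¹ n : N) τ₁ - τ₁) - (cj ρ n τ₁ - τ₁) := by
        have e1 : cj ρ n (cj ρ g τ₁) = cj ρ g (cj ρ (MulAut.conjNormal g⁻¹ n : N) τ₁) := by
          rw [← Module.End.mul_apply, ← Module.End.mul_apply, ← map_mul, ← map_mul,
            MulAut.conjNormal_apply]
          congr 2
          group
        rw [hx, map_sub, map_sub, e1]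
        abel
      rw [e]
      exact Submodule.sub_mem _ (cj_mem_LU ρ (hfix _) hg.2 (hU₁inv g hg)) (hfix n)
    refine ⟨hxL.1, fun p hp => ?_⟩
    have h1 := (hn n₀).2 p hp
    rw [LinearMap.sub_apply, cj_N_apply ρ hxL n₀ hp] at h1
    have hψ : ψ n₀⁻¹ * ψ n₀ = 1 := by rw [← map_mul, inv_mul_cancel, map_one]
    have hψ0 : ψ n₀ ≠ 0 := right_ne_zero_of_mul_eq_one hψ
    have h2 : ρ n₀ (x p) - ψ n₀ • x p ∈ U₁ := by
      have e : ρ n₀ (x p) - ψ n₀ • x p = ψ n₀ • (ψ n₀⁻¹ • ρ n₀ (x p) - x p) := by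
        rw [smul_sub, smul_smul, mul_comm, hψ, one_smul]
      rw [e]
      exact U₁.smul_mem _ h1
    exact mem_of_gen_eigen U₁ (fun y hy => hU₁inv n₀ (hN n₀) y hy)
      ((mem_wt ρ).1 (hxL.2 p hp) n₀) h2 hχψ.symm
  · intro x hx
    exact hU₀.2.2 (τ₁ + x) (hτ₁.add ρ (LU_mono ρ hU₁le hx))

/-- Subrepresentation. -/
def subRep {H M : Type*} [Group H] [AddCommGroup M] [Module k M] (R : H →* Module.End k M)
    (W : Submodule k M) (hW : ∀ h, ∀ x ∈ W, R h x ∈ W) : H →* Module.End k W where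
  toFun h := (R h).restrict (hW h)
  map_one' := by ext x; simp
  map_mul' a b := by ext x; simp

/-- Quotient representation. -/
def quotRep {H M : Type*} [Group H] [AddCommGroup M] [Module k M] (R : H →* Module.End k M)
    (U : Submodule k M) (hU : ∀ h, ∀ x ∈ U, R h x ∈ U) : H →* Module.End k (M ⧸ U) where
  toFun h := U.mapQ U (R h) (fun x hx => hU h x hx)
  map_one' := by ext x; simp
  map_mul' a b := by ext x; simp

theorem subRep_apply {H M : Type*} [Group H] [AddCommGroup M] [Module k M]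
    (R : H →* Module.End k M) (W : Submodule k M) (hW : ∀ h, ∀ x ∈ W, R h x ∈ W) (h : H) (x : W) :
    ((subRep R W hW h x : W) : M) = R h x := rfl

theorem quotRep_mk {H M : Type*} [Group H] [AddCommGroup M] [Module k M]
    (R : H →* Module.End k M) (U : Submodule k M) (hU : ∀ h, ∀ x ∈ U, R h x ∈ U) (h : H) (x : M) :
    quotRep R U hU h (Submodule.Quotient.mk x) = Submodule.Quotient.mk (R h x) := rfl

theorem index_stab_le {W : Type*} [AddCommGroup W] [Module k W] [FiniteDimensional k W]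
    (σ : G →* Module.End k W) (χ : N →* k) {x₀ : W} (hx₀ : x₀ ≠ 0)
    (hx : ∀ n : N, σ n x₀ = χ n • x₀) {n₀ : N}
    (hsep : ∀ g h : G, cg N g χ ≠ cg N h χ → cg N g χ n₀ ≠ cg N h χ n₀) :
    (stab N χ).FiniteIndex ∧ (stab N χ).index ≤ finrank k W := by
  classical
  let μ : G ⧸ stab N χ → k := fun q => cg N (Quotient.out q) χ n₀
  let xs : G ⧸ stab N χ → W := fun q => σ (Quotient.out q) x₀
  have hμ : Function.Injective μ := by
    intro q q' h
    by_contra hne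
    have h1 : cg N (Quotient.out q) χ = cg N (Quotient.out q') χ := by
      by_contra h2
      exact hsep _ _ h2 h
    have h2 := stab_of_cg_eq N h1
    rw [← QuotientGroup.eq] at h2
    exact hne (by
      rw [← QuotientGroup.out_eq' q, ← QuotientGroup.out_eq' q']
      exact h2)
  have hev : ∀ q, (σ n₀).HasEigenvector (μ q) (xs q) := by
    intro q
    rw [Module.End.hasEigenvector_iff, Module.End.mem_eigenspace_iff]
    refine ⟨?_, ?_⟩
    · change σ n₀ (σ (Quotient.out q) x₀) = cg N (Quotient.out q) χ n₀ • σ (Quotient.out q) x₀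
      rw [rho_comm, hx, map_smul, cg_apply]
    · intro h0
      have : σ (Quotient.out q)⁻¹ (xs q) = x₀ := rho_inv_apply' σ _ _
      rw [h0, map_zero] at this
      exact hx₀ this.symm
  have hli := Module.End.eigenvectors_linearIndependent' (σ n₀) μ hμ xs hev
  have hfin : Finite (G ⧸ stab N χ) := hli.finite
  have := Fintype.ofFinite (G ⧸ stab N χ)
  refine ⟨Subgroup.finiteIndex_of_finite_quotient, ?_⟩
  have h1 := hli.fintype_card_le_finrank
  rwa [Subgroup.index, Nat.card_eq_fintype_card]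

omit [N.Normal] in
theorem exists_eigen_between [IsAlgClosed k] [FiniteDimensional k V] (f : Module.End k V)
    (U W : Submodule k V) (hU : ∀ x ∈ U, f x ∈ U) (hW : ∀ x ∈ W, f x ∈ W) (hne : ¬ W ≤ U) :
    ∃ y, f.HasEigenvalue y ∧ ∃ w ∈ W, w ∉ U ∧ f w - y • w ∈ U := by
  classical
  let U' : Submodule k W := U.submoduleOf W
  have hnt : Nontrivial (W ⧸ U') := by
    rw [Submodule.Quotient.nontrivial_iff]
    intro h
    apply hne
    intro w hw
    have : (⟨w, hw⟩ : W) ∈ U' := by rw [h]; exact Submodule.mem_top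
    exact this
  let f' : Module.End k (W ⧸ U') := U'.mapQ U' (f.restrict hW) (fun x hx => hU _ hx)
  obtain ⟨y, hy⟩ := Module.End.exists_eigenvalue f'
  obtain ⟨q, hq⟩ := hy.exists_hasEigenvector
  obtain ⟨w, rfl⟩ := Submodule.Quotient.mk_surjective U' q
  rw [Module.End.hasEigenvector_iff, Module.End.mem_eigenspace_iff] at hq
  obtain ⟨h1, h2⟩ := hq
  have hwU : (w : V) ∉ U := by
    intro h
    exact h2 ((Submodule.Quotient.mk_eq_zero U').2 h)
  have h3 : f w - y • (w : V) ∈ U := by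
    have h4 : (Submodule.Quotient.mk (f.restrict hW w) : W ⧸ U') =
        Submodule.Quotient.mk (y • w) := h1
    have h5 := (Submodule.Quotient.eq U').1 h4
    exact h5
  refine ⟨y, ?_, w, w.2, hwU, h3⟩
  by_contra hnot
  have hinj : Function.Injective (f - y • (1 : Module.End k V)) := by
    rw [injective_iff_map_eq_zero]
    intro x hx
    by_contra hx0
    apply hnot
    apply Module.End.hasEigenvalue_of_hasEigenvector (x := x)
    rw [Module.End.hasEigenvector_iff, Module.End.mem_eigenspace_iff]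
    refine ⟨?_, hx0⟩
    rw [LinearMap.sub_apply, LinearMap.smul_apply, Module.End.one_apply, sub_eq_zero] at hx
    exact hx
  have hUinv : ∀ x ∈ U, (f - y • (1 : Module.End k V)) x ∈ U := by
    intro x hx
    rw [LinearMap.sub_apply, LinearMap.smul_apply, Module.End.one_apply]
    exact U.sub_mem (hU x hx) (U.smul_mem _ hx)
  let g : Module.End k U := (f - y • (1 : Module.End k V)).restrict hUinv
  have hginj : Function.Injective g := by
    intro a b hab
    have := congrArg (fun z : U => (z : V)) hab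
    exact Subtype.ext (hinj this)
  obtain ⟨u, hu⟩ := (LinearMap.injective_iff_surjective (f := g)).1 hginj ⟨_, h3⟩
  have h6 := congrArg (fun z : U => (z : V)) hu
  have h7 : (f - y • (1 : Module.End k V)) u = (f - y • (1 : Module.End k V)) w := h6
  have h8 := hinj h7
  exact hwU (by rw [← h8]; exact u.2)

omit [N.Normal] in
theorem pow_sub_mem {f : Module.End k V} (U : Submodule k V) (hU : ∀ x ∈ U, f x ∈ U) {y : k}
    {w : V} (h : f w - y • w ∈ U) (n : ℕ) : (f ^ n) w - y ^ n • w ∈ U := by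
  induction n with
  | zero => simp
  | succ n ih =>
    have e : (f ^ (n + 1)) w - y ^ (n + 1) • w =
        f ((f ^ n) w - y ^ n • w) + y ^ n • (f w - y • w) := by
      rw [pow_succ', Module.End.mul_apply, map_sub, map_smul, smul_sub, smul_smul, pow_succ]
      abel
    rw [e]
    exact U.add_mem (hU _ ih) (U.smul_mem _ h)

end Pool.Agent.Helper5.TL
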