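import Pool.Agent.Helper5.TL.Blocks

/-!
# Reduction to scalars for blocks
-/

namespace Pool.Agent.Helper5.TL

open Module Polynomial

universe u v

variable {k : Type u} {G : Type*} {V : Type v} [Field k] [Group G] [AddCommGroup V] [Module k V]

theorem aeval_sub_mem {f : Module.End k V} {U : Submodule k V} (hU : ∀ x ∈ U, f x ∈ U) {b : k}
    {x : V} (h : f x - b • x ∈ U) (P : k[X]) : (aeval f P) x - (P.eval b) • x ∈ U := by
  have hpow : ∀ n : ℕ, (f ^ n) x - b ^ n • x ∈ U := by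
    intro n
    induction n with
    | zero => simp
    | succ n ih =>
      have e : (f ^ (n + 1)) x - b ^ (n + 1) • x =
          f ((f ^ n) x - b ^ n • x) + b ^ n • (f x - b • x) := by
        rw [pow_succ', Module.End.mul_apply, map_sub, map_smul, smul_sub, smul_smul, pow_succ]
        abel
      rw [e]
      exact U.add_mem (hU _ ih) (U.smul_mem _ h)
  induction P using Polynomial.induction_on' with
  | add p q hp hq =>
    have e : (aeval f (p + q)) x - ((p + q).eval b) • x =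
        ((aeval f p) x - (p.eval b) • x) + ((aeval f q) x - (q.eval b) • x) := by
      rw [map_add, LinearMap.add_apply, eval_add]
      module
    rw [e]
    exact U.add_mem hp hq
  | monomial n a =>
    have e : (aeval f (monomial n a)) x - ((monomial n a).eval b) • x =
        a • ((f ^ n) x - b ^ n • x) := by
      rw [aeval_monomial, eval_monomial, Module.End.mul_apply, Module.algebraMap_end_apply]
      module
    rw [e]
    exact U.smul_mem _ (hpow n)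

theorem aeval_mem {f : Module.End k V} {U : Submodule k V} (hU : ∀ x ∈ U, f x ∈ U)
    {x : V} (hx : x ∈ U) (P : k[X]) : (aeval f P) x ∈ U := by
  have h := aeval_sub_mem (b := 0) hU (x := x) (by simpa using hU x hx) P
  have := U.add_mem h (U.smul_mem (P.eval 0) hx)
  simpa using this

variable (ρ : G →* Module.End k V) {N : Subgroup G} [N.Normal] [FiniteDimensional k V]

theorem exists_reductionQ {m : ℕ} {F : ℕ → Submodule k V}
    {c : ℕ → N →* k} (hF : FlagC2 ρ N m F c) {q : Cl k N} {ψ : N →* k} {n₀ : N}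
    (hn₀ : ∀ i < m, ∀ j < m, c i ≠ c j → c i n₀ ≠ c j n₀)
    (hqψ : q ≠ cl ψ) {τ₀ : Module.End k V} (hτ₀ : IsR ρ q ψ τ₀)
    (hno : ∀ τ, IsR ρ q ψ τ → ∃ n : N, cj ρ n τ - τ ∉ LQ ρ ψ ⊥) :
    ∃ (χ : N →* k) (U₁ E : Submodule k V) (τ₁ : Module.End k V), cl χ = q ∧ E ≤ U₁ ∧ ¬ U₁ ≤ E ∧
      (∀ g ∈ stab N χ ⊓ stab N ψ, ∀ x ∈ U₁, ρ g x ∈ U₁) ∧
      (∀ g ∈ stab N χ ⊓ stab N ψ, ∀ x ∈ E, ρ g x ∈ E) ∧
      (∀ n : N, ∀ x ∈ U₁, ρ n x - χ n • x ∈ E) ∧
      (∀ g ∈ stab N χ ⊓ stab N ψ, cj ρ g τ₁ - τ₁ ∈ LQ ρ ψ U₁) ∧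
      (∀ x ∈ LQ ρ ψ U₁, ∃ n : N, cj ρ n (τ₁ + x) - (τ₁ + x) ∉ LQ ρ ψ E) ∧
      ∃ (U : Submodule k V) (v : V), NInv ρ N U ∧ v ∈ gd ρ N ∧ v ∉ U ∧
        ∀ n : N, ρ n v - χ n • v ∈ U := by
  classical
  let G₀ : Set G := {g | cgQ g q = q ∧ g ∈ stab N ψ}
  have hN : ∀ n : N, (n : G) ∈ G₀ := fun n => ⟨cgQ_of_N n q, le_stab N ψ n.2⟩
  let 𝒰 : Set (Submodule k V) := {U | U ≤ WQ ρ q ∧ (∀ g ∈ G₀, ∀ x ∈ U, ρ g x ∈ U) ∧
    ∀ τ, IsR ρ q ψ τ → ∃ n : N, cj ρ n τ - τ ∉ LQ ρ ψ U}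
  have hbot : (⊥ : Submodule k V) ∈ 𝒰 := by
    refine ⟨bot_le, ?_, hno⟩
    intro g _ x hx
    rw [(Submodule.mem_bot k).1 hx, map_zero]
    exact Submodule.zero_mem _
  obtain ⟨U₀, hU₀, hmax⟩ := (wellFounded_gt : WellFounded
    ((· > ·) : Submodule k V → Submodule k V → Prop)).has_min 𝒰 ⟨⊥, hbot⟩
  have hU₀le := hU₀.1
  have hU₀inv := hU₀.2.1
  have hU₀N : NInv ρ N U₀ := fun n x hx => hU₀inv n (hN n) x hx
  -- the whole block is not in the set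
  have hnle : ¬ WQ ρ q ≤ U₀ := by
    intro h
    obtain ⟨n, hn⟩ := hU₀.2.2 τ₀ hτ₀
    exact hn (LQ_mono ρ h ((hτ₀.cj ρ (hN n).1 (hN n).2).sub_mem ρ hτ₀))
  -- the eigenspaces modulo `U₀`
  let E : (N →* k) → Submodule k V := fun χ =>
    { carrier := {x | x ∈ WQ ρ q ∧ ∀ n : N, ρ n x - χ n • x ∈ U₀}
      zero_mem' := ⟨Submodule.zero_mem _, fun n => by simp⟩
      add_mem' := by
        rintro a b ⟨ha, ha'⟩ ⟨hb, hb'⟩
        refine ⟨Submodule.add_mem _ ha hb, fun n => ?_⟩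
        have e : ρ n (a + b) - χ n • (a + b) = (ρ n a - χ n • a) + (ρ n b - χ n • b) := by
          rw [map_add, smul_add]; abel
        rw [e]
        exact U₀.add_mem (ha' n) (hb' n)
      smul_mem' := by
        rintro t a ⟨ha, ha'⟩
        refine ⟨Submodule.smul_mem _ _ ha, fun n => ?_⟩
        have e : ρ n (t • a) - χ n • (t • a) = t • (ρ n a - χ n • a) := by
          rw [map_smul, smul_sub, smul_comm]
        rw [e]
        exact U₀.smul_mem _ (ha' n) }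
  have hU₀E : ∀ χ, U₀ ≤ E χ := fun χ x hx => ⟨hU₀le hx, fun n =>
    U₀.sub_mem (hU₀N n x hx) (U₀.smul_mem _ hx)⟩
  have hEg : ∀ g ∈ G₀, ∀ χ, ∀ x ∈ E χ, ρ g x ∈ E (cg N g χ) := by
    intro g hg χ x hx
    refine ⟨rho_mem_WQ_of ρ hx.1 hg.1, fun n => ?_⟩
    rw [rho_comm, cg_apply, ← map_smul, ← map_sub]
    exact hU₀inv g hg _ (hx.2 _)
  have hEN : ∀ χ, NInv ρ N (E χ) := by
    intro χ n x hx
    have := hEg n (hN n) χ x hx
    rwa [cg_eq_of_stab N (le_stab N χ n.2)] at this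
  have hEc : ∀ χ, ¬ E χ ≤ U₀ → (∃ i < m, c i = χ) ∧ cl χ = q := by
    intro χ hne
    obtain ⟨x, hx, hxU⟩ := Set.not_subset.1 hne
    refine ⟨?_, (cls_VP ρ (fun φ => cl φ = q)).2 U₀ hU₀N x hx.1 hxU χ hx.2⟩
    exact char_of_mod ρ hF U₀ hU₀N hxU hx.2
  let U₁ : Submodule k V := ⨆ χ, E χ
  have hEU₁ : ∀ χ, E χ ≤ U₁ := fun χ => le_iSup E χ
  have hU₀₁ : U₀ ≤ U₁ := (hU₀E ψ).trans (hEU₁ ψ)
  have hU₁le : U₁ ≤ WQ ρ q := iSup_le (fun χ x hx => hx.1)
  have hU₁inv : ∀ g ∈ G₀, ∀ x ∈ U₁, ρ g x ∈ U₁ := by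
    intro g hg
    have : U₁ ≤ U₁.comap (ρ g) := iSup_le (fun χ x hx => hEU₁ _ (hEg g hg χ x hx))
    exact fun x hx => this hx
  have hU₁nle : ¬ U₁ ≤ U₀ := by
    obtain ⟨i, -, v, hv, hvU, he⟩ := exists_eigen_mod ρ hF U₀ (WQ ρ q) (WQ_inv ρ q) hnle
    exact fun h => hvU (h (hEU₁ (c i) ⟨hv, he⟩))
  have hU₁not : U₁ ∉ 𝒰 := fun h => hmax U₁ h (lt_of_le_not_ge hU₀₁ hU₁nle)
  have hex : ∃ τ, IsR ρ q ψ τ ∧ ∀ n : N, cj ρ n τ - τ ∈ LQ ρ ψ U₁ := by
    by_contra hcon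
    push Not at hcon
    exact hU₁not ⟨hU₁le, hU₁inv, hcon⟩
  obtain ⟨τ₁, hτ₁, hfix⟩ := hex
  have hg₁ : ∀ g ∈ G₀, cj ρ g τ₁ - τ₁ ∈ LQ ρ ψ U₁ := by
    intro g hg
    set x := cj ρ g τ₁ - τ₁ with hx
    have hxL : x ∈ LQ ρ ψ (WQ ρ q) := (hτ₁.cj ρ hg.1 hg.2).sub_mem ρ hτ₁
    have hn : ∀ n : N, cj ρ n x - x ∈ LQ ρ ψ U₁ := by
      intro n
      have e : cj ρ n x - x =
          cj ρ g (cj ρ (MulAut.conjNormal g⁻¹ n : N) τ₁ - τ₁) - (cj ρ n τ₁ - τ₁) := by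
        have e1 : cj ρ n (cj ρ g τ₁) = cj ρ g (cj ρ (MulAut.conjNormal g⁻¹ n : N) τ₁) := by
          rw [← Module.End.mul_apply, ← Module.End.mul_apply, ← map_mul, ← map_mul,
            MulAut.conjNormal_apply]
          congr 2
          group
        rw [hx, map_sub, map_sub, e1]
        abel
      rw [e]
      exact Submodule.sub_mem _ (cj_mem_LQ ρ (hfix _) hg.2 (hU₁inv g hg)) (hfix n)
    refine ⟨hxL.1, fun p hp => ?_⟩
    by_contra hnot
    apply hqψ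
    refine ((cls_VP ρ (fun φ => cl φ = q)).2 U₁ (fun n y hy => hU₁inv n (hN n) y hy) (x p)
      (hxL.2 p hp) hnot ψ ?_).symm
    intro n
    have h1 := (hn n).2 p hp
    rw [LinearMap.sub_apply, cj_N_apply' ρ hxL n hp] at h1
    have hψ : ψ n * ψ n⁻¹ = 1 := char_mul_inv n
    have e : ρ n (x p) - ψ n • x p = ψ n • (ψ n⁻¹ • ρ n (x p) - x p) := by
      rw [smul_sub, smul_smul, hψ, one_smul]
    rw [e]
    exact U₁.smul_mem _ h1
  -- the complements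
  let E' : (N →* k) → Submodule k V := fun χ => U₀ ⊔ ⨆ (χ' : N →* k) (_ : χ' ≠ χ), E χ'
  have hU₀E' : ∀ χ, U₀ ≤ E' χ := fun χ => le_sup_left
  have hEE' : ∀ χ χ', χ' ≠ χ → E χ' ≤ E' χ := fun χ χ' h =>
    (le_iSup₂ (f := fun (χ' : N →* k) (_ : χ' ≠ χ) => E χ') χ' h).trans le_sup_right
  have hE'le : ∀ χ (W : Submodule k V), U₀ ≤ W → (∀ χ', χ' ≠ χ → E χ' ≤ W) → E' χ ≤ W :=
    fun χ W h0 h => sup_le h0 (iSup₂_le h)
  have hE'U₁ : ∀ χ, E' χ ≤ U₁ := fun χ => hE'le χ U₁ hU₀₁ (fun χ' _ => hEU₁ χ')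
  have hE'N : ∀ χ, NInv ρ N (E' χ) := fun χ => hU₀N.sup ρ (NInv.iSup ρ (fun χ' =>
    NInv.iSup ρ (fun _ => hEN χ')))
  set X : Finset (N →* k) := (Finset.range m).image c with hX
  have hEX : ∀ χ, χ ∉ X → E χ ≤ U₀ := by
    intro χ hχ
    by_contra hne
    obtain ⟨i, hi, hci⟩ := (hEc χ hne).1
    exact hχ (Finset.mem_image.2 ⟨i, Finset.mem_range.2 hi, hci⟩)
  have hXsep : ∀ χ ∈ X, ∀ χ' ∈ X, χ ≠ χ' → χ n₀ ≠ χ' n₀ := by
    intro χ hχ χ' hχ' hne
    obtain ⟨i, hi, rfl⟩ := Finset.mem_image.1 hχ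
    obtain ⟨j, hj, rfl⟩ := Finset.mem_image.1 hχ'
    exact hn₀ i (Finset.mem_range.1 hi) j (Finset.mem_range.1 hj) hne
  -- interpolation
  let P : (N →* k) → k[X] := fun χ => ∏ χ' ∈ X.erase χ,
    (C ((χ n₀ - χ' n₀)⁻¹) * (Polynomial.X - C (χ' n₀)))
  have hPself : ∀ χ ∈ X, (P χ).eval (χ n₀) = 1 := by
    intro χ hχ
    simp only [P, eval_prod]
    apply Finset.prod_eq_one
    intro χ' hχ'
    have h1 := hXsep χ hχ χ' (Finset.mem_of_mem_erase hχ') (Finset.ne_of_mem_erase hχ').symm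
    simp only [eval_mul, eval_C, eval_sub, eval_X]
    exact inv_mul_cancel₀ (sub_ne_zero.2 h1)
  have hPother : ∀ χ χ', χ' ∈ X → χ' ≠ χ → (P χ).eval (χ' n₀) = 0 := by
    intro χ χ' hχ' hne
    simp only [P, eval_prod]
    apply Finset.prod_eq_zero (Finset.mem_erase.2 ⟨hne, hχ'⟩)
    simp
  let π : (N →* k) → Module.End k V := fun χ => aeval (ρ n₀) (P χ)
  have hU₀f : ∀ x ∈ U₀, ρ n₀ x ∈ U₀ := fun x hx => hU₀N n₀ x hx
  have hπU₀ : ∀ χ, ∀ x ∈ U₀, π χ x ∈ U₀ := fun χ x hx => aeval_mem hU₀f hx _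
  have hπU₁ : ∀ χ, ∀ x ∈ U₁, π χ x ∈ U₁ := fun χ x hx =>
    aeval_mem (fun y hy => hU₁inv n₀ (hN n₀) y hy) hx _
  have hπself : ∀ χ ∈ X, ∀ x ∈ E χ, π χ x - x ∈ U₀ := by
    intro χ hχ x hx
    have := aeval_sub_mem hU₀f (hx.2 n₀) (P χ)
    rwa [hPself χ hχ, one_smul] at this
  have hπother : ∀ χ χ', χ' ≠ χ → ∀ x ∈ E χ', π χ x ∈ U₀ := by
    intro χ χ' hne x hx
    by_cases hχ' : χ' ∈ X
    · have := aeval_sub_mem hU₀f (hx.2 n₀) (P χ)
      rwa [hPother χ χ' hχ' hne, zero_smul, sub_zero] at this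
    · exact hπU₀ χ x (hEX χ' hχ' hx)
  have hπE' : ∀ χ, ∀ x ∈ E' χ, π χ x ∈ U₀ := by
    intro χ
    have : E' χ ≤ U₀.comap (π χ) := hE'le χ _ (fun x hx => hπU₀ χ x hx)
      (fun χ' hne x hx => hπother χ χ' hne x hx)
    exact fun x hx => this hx
  have hπE : ∀ χ ∈ X, ∀ x ∈ U₁, π χ x ∈ E χ := by
    intro χ hχ
    have : U₁ ≤ (E χ).comap (π χ) := by
      apply iSup_le
      intro χ' x hx
      by_cases hne : χ' = χ
      · subst hne
        have h1 := (E χ').add_mem (hU₀E χ' (hπself χ' hχ x hx)) hx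
        rwa [sub_add_cancel] at h1
      · exact hU₀E χ (hπother χ χ' hne x hx)
    exact fun x hx => this hx
  have hπsum : ∀ x ∈ U₁, x - ∑ χ ∈ X, π χ x ∈ U₀ := by
    have : U₁ ≤ U₀.comap (1 - ∑ χ ∈ X, π χ) := by
      apply iSup_le
      intro χ' x hx
      rw [Submodule.mem_comap, LinearMap.sub_apply, LinearMap.sum_apply, Module.End.one_apply]
      by_cases hχ' : χ' ∈ X
      · rw [← Finset.add_sum_erase X _ hχ', ← sub_sub]
        apply U₀.sub_mem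
        · have := U₀.neg_mem (hπself χ' hχ' x hx)
          rwa [neg_sub] at this
        · apply U₀.sum_mem
          intro χ hχ
          exact hπother χ χ' (Finset.ne_of_mem_erase hχ).symm x hx
      · have hx0 := hEX χ' hχ' hx
        exact U₀.sub_mem hx0 (U₀.sum_mem (fun χ _ => hπU₀ χ x hx0))
    intro x hx
    have h1 := this hx
    rwa [Submodule.mem_comap, LinearMap.sub_apply, LinearMap.sum_apply,
      Module.End.one_apply] at h1
  -- some component has no fixed point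
  have hcomp : ∃ χ, ∀ x ∈ LQ ρ ψ U₁, ∃ n : N, cj ρ n (τ₁ + x) - (τ₁ + x) ∉ LQ ρ ψ (E' χ) := by
    by_contra hcon
    push Not at hcon
    choose x hxL hxfix using hcon
    set y : Module.End k V := ∑ χ ∈ X, π χ * x χ with hy
    have hyL : y ∈ LQ ρ ψ U₁ := by
      apply Submodule.sum_mem
      intro χ _
      refine ⟨fun v hv => ?_, fun v hv => ?_⟩
      · rw [Module.End.mul_apply, (hxL χ).1 v hv, map_zero]
      · rw [Module.End.mul_apply]
        exact hπU₁ χ _ ((hxL χ).2 v hv)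
    obtain ⟨n, hn⟩ := hU₀.2.2 (τ₁ + y) (hτ₁.add ρ (LQ_mono ρ hU₁le hyL))
    apply hn
    have hdiff : cj ρ n (τ₁ + y) - (τ₁ + y) ∈ LQ ρ ψ U₁ := by
      have e : cj ρ n (τ₁ + y) - (τ₁ + y) = (cj ρ n τ₁ - τ₁) + (cj ρ n y - y) := by
        rw [map_add]; abel
      rw [e]
      exact Submodule.add_mem _ (hfix n) (Submodule.sub_mem _
        (cj_mem_LQ ρ hyL (hN n).2 (hU₁inv n (hN n))) hyL)
    refine ⟨hdiff.1, fun p hp => ?_⟩
    have hE'all : ∀ χ ∈ X, (cj ρ n (τ₁ + y) - (τ₁ + y)) p ∈ E' χ := by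
      intro χ hχ
      have hd : y - x χ ∈ LQ ρ ψ (E' χ) := by
        refine ⟨fun v hv => ?_, fun v hv => ?_⟩
        · rw [LinearMap.sub_apply, hyL.1 v hv, (hxL χ).1 v hv, sub_self]
        · rw [LinearMap.sub_apply, hy, LinearMap.sum_apply, ← Finset.add_sum_erase X _ hχ]
          have h1 : π χ (x χ v) - x χ v ∈ E' χ := by
            have h2 := hπsum (x χ v) ((hxL χ).2 v hv)
            rw [← Finset.add_sum_erase X _ hχ, ← sub_sub] at h2
            have h3 : ∑ χ' ∈ X.erase χ, π χ' (x χ v) ∈ E' χ := by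
              apply Submodule.sum_mem
              intro χ' hχ'
              exact hEE' χ χ' (Finset.ne_of_mem_erase hχ')
                (hπE χ' (Finset.mem_of_mem_erase hχ') _ ((hxL χ).2 v hv))
            have h4 := (E' χ).neg_mem ((E' χ).add_mem (hU₀E' χ h2) h3)
            rwa [sub_add_cancel, neg_sub] at h4
          have h5 : ∑ χ' ∈ X.erase χ, (π χ' * x χ') v ∈ E' χ := by
            apply Submodule.sum_mem
            intro χ' hχ'
            exact hEE' χ χ' (Finset.ne_of_mem_erase hχ')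
              (hπE χ' (Finset.mem_of_mem_erase hχ') _ ((hxL χ').2 v hv))
          have h6 := (E' χ).add_mem h1 h5
          have e : (π χ * x χ) v + ∑ χ' ∈ X.erase χ, (π χ' * x χ') v - x χ v =
              π χ (x χ v) - x χ v + ∑ χ' ∈ X.erase χ, (π χ' * x χ') v := by
            rw [Module.End.mul_apply]; abel
          rw [e]
          exact h6
      have e : cj ρ n (τ₁ + y) - (τ₁ + y) = (cj ρ n (τ₁ + x χ) - (τ₁ + x χ)) +
          (cj ρ n (y - x χ) - (y - x χ)) := by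
        simp only [map_add, map_sub]; abel
      rw [e]
      exact ((LQ ρ ψ (E' χ)).add_mem (hxfix χ n) (Submodule.sub_mem _
        (cj_mem_LQ ρ hd (hN n).2 (fun z hz => hE'N χ n z hz)) hd)).2 p hp
    set z := (cj ρ n (τ₁ + y) - (τ₁ + y)) p with hz
    have hzU : z ∈ U₁ := hdiff.2 p hp
    have h7 := hπsum z hzU
    have h8 : ∑ χ ∈ X, π χ z ∈ U₀ := U₀.sum_mem (fun χ hχ => hπE' χ z (hE'all χ hχ))
    have h9 := U₀.add_mem h7 h8
    rwa [sub_add_cancel] at h9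
  obtain ⟨χ, hχfix⟩ := hcomp
  have hU₁E' : ¬ U₁ ≤ E' χ := by
    intro h
    obtain ⟨n, hn⟩ := hχfix 0 (Submodule.zero_mem _)
    rw [add_zero] at hn
    exact hn (LQ_mono ρ h (hfix n))
  have hEne : ¬ E χ ≤ U₀ := by
    intro h
    apply hU₁E'
    apply iSup_le
    intro χ'
    by_cases hne : χ' = χ
    · rw [hne]; exact h.trans (hU₀E' χ)
    · exact hEE' χ χ' hne
  have hclχ := (hEc χ hEne).2
  have hG₁ : ∀ g ∈ stab N χ ⊓ stab N ψ, g ∈ G₀ := by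
    intro g hg
    refine ⟨?_, hg.2⟩
    rw [← hclχ, cgQ_cl, cg_eq_of_stab N hg.1]
  refine ⟨χ, U₁, E' χ, τ₁, hclχ, hE'U₁ χ, hU₁E', fun g hg => hU₁inv g (hG₁ g hg), ?_, ?_,
    fun g hg => hg₁ g (hG₁ g hg), hχfix, ?_⟩
  · intro g hg
    have : E' χ ≤ (E' χ).comap (ρ g) := by
      refine hE'le χ _ (fun x hx => hU₀E' χ (hU₀inv g (hG₁ g hg) x hx)) ?_
      intro χ' hne x hx
      refine hEE' χ _ ?_ (hEg g (hG₁ g hg) χ' x hx)
      intro h
      apply hne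
      have h1 := (stab N χ).inv_mem hg.1
      have h2 : cg N g⁻¹ (cg N g χ') = cg N g⁻¹ χ := by rw [h]
      rw [← cg_mul, inv_mul_cancel, cg_one, cg_eq_of_stab N h1] at h2
      exact h2
    exact fun x hx => this hx
  · intro n
    have : U₁ ≤ (E' χ).comap (ρ n - χ n • (1 : Module.End k V)) := by
      apply iSup_le
      intro χ' x hx
      rw [Submodule.mem_comap, LinearMap.sub_apply, LinearMap.smul_apply, Module.End.one_apply]
      by_cases hne : χ' = χ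
      · subst hne
        exact hU₀E' χ' (hx.2 n)
      · exact hEE' χ χ' hne ((E χ').sub_mem (hEN χ' n x hx) ((E χ').smul_mem _ hx))
    intro x hx
    have h1 := this hx
    rwa [Submodule.mem_comap, LinearMap.sub_apply, LinearMap.smul_apply,
      Module.End.one_apply] at h1
  · obtain ⟨v, hv, hvU⟩ := Set.not_subset.1 hEne
    exact ⟨U₀, v, hU₀N, WQ_le_gd ρ q hv.1, hvU, hv.2⟩

end Pool.Agent.Helper5.TL
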