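import Pool.Agent.Helper5.TL.Weights

/-!
# Retractions onto a weight space and the action on them
-/

namespace Pool.Agent.Helper5.TL

open Module

universe u v

variable {k : Type u} {G : Type*} {V : Type v} [Field k] [Group G] [AddCommGroup V] [Module k V]
  (ρ : G →* Module.End k V) {N : Subgroup G}

/-- The sum of the other weight spaces. -/
def oth (χ : N →* k) : Submodule k V := ⨆ (χ' : N →* k) (_ : χ' ≠ χ), wt ρ N χ'

theorem wt_le_oth {χ χ' : N →* k} (h : χ' ≠ χ) : wt ρ N χ' ≤ oth ρ χ :=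
  le_iSup₂ (f := fun (χ' : N →* k) (_ : χ' ≠ χ) => wt ρ N χ') χ' h

theorem oth_le_good (χ : N →* k) : oth ρ χ ≤ good ρ N := by
  rw [oth, iSup₂_le_iff]
  exact fun χ' _ => wt_le_good ρ χ'

theorem good_le (χ : N →* k) : good ρ N ≤ wt ρ N χ ⊔ oth ρ χ := by
  rw [good, iSup_le_iff]
  intro χ'
  by_cases h : χ' = χ
  · rw [h]; exact le_sup_left
  · exact (wt_le_oth ρ h).trans le_sup_right

theorem rho_mem_wt_N [N.Normal] {χ : N →* k} {v : V} (hv : v ∈ wt ρ N χ) (n : N) :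
    ρ n v ∈ wt ρ N χ := rho_mem_wt_of_stab ρ hv (le_stab N χ n.2)

theorem rho_mem_oth [N.Normal] {χ : N →* k} {v : V} (hv : v ∈ oth ρ χ) {g : G}
    (hg : g ∈ stab N χ) : ρ g v ∈ oth ρ χ := by
  have : oth ρ χ ≤ (oth ρ χ).comap (ρ g) := by
    rw [oth, iSup₂_le_iff]
    intro χ' hne v hv
    refine wt_le_oth ρ ?_ (rho_mem_wt ρ hv g)
    intro h
    apply hne
    have h1 := (stab N χ).inv_mem hg
    ext n
    have h2 := DFunLike.congr_fun h (MulAut.conjNormal g n)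
    rw [cg_apply, ← MulAut.mul_apply, ← map_mul, inv_mul_cancel, map_one, MulAut.one_apply] at h2
    rw [h2]
    exact hg n
  exact this hv

section flag

variable [N.Normal] {m : ℕ} {F : ℕ → Submodule k V} {c : ℕ → N →* k}

theorem exists_wt_eigen (hF : FlagC2 ρ N m F c) {χ : N →* k} (U : Submodule k V)
    (hU : ∀ n : N, ∀ v ∈ U, ρ n v ∈ U) (hne : ¬ wt ρ N χ ≤ U) :
    (∃ i < m, c i = χ) ∧ ∃ v ∈ wt ρ N χ, v ∉ U ∧ ∀ n : N, ρ n v - χ n • v ∈ U := by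
  obtain ⟨i, hi, v, hv, hvU, h⟩ := exists_eigen_mod ρ hF U (wt ρ N χ)
    (fun n v hv => rho_mem_wt_N ρ hv n) hne
  have hci : c i = χ := by
    ext n
    exact eq_of_gen_eigen U (hU n) hvU ((mem_wt ρ).1 hv n) (h n)
  subst hci
  exact ⟨⟨i, hi, rfl⟩, v, hv, hvU, h⟩

theorem disjoint_oth (hF : FlagC2 ρ N m F c) {n₀ : N}
    (hn₀ : ∀ i < m, ∀ j < m, c i ≠ c j → c i n₀ ≠ c j n₀) (χ : N →* k) :
    Disjoint (wt ρ N χ) (oth ρ χ) := by
  by_cases hχ : wt ρ N χ ≤ ⊥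
  · rw [le_bot_iff.1 hχ]; exact disjoint_bot_left
  obtain ⟨⟨i, hi, hci⟩, -⟩ := exists_wt_eigen ρ hF ⊥ (by
    intro n v hv
    rw [(Submodule.mem_bot k).1 hv, map_zero]; exact Submodule.zero_mem _) hχ
  have hind := Module.End.independent_maxGenEigenspace (ρ n₀)
  refine (hind (χ n₀)).mono ?_ ?_
  · intro v hv
    exact (mem_wt ρ).1 hv n₀
  · rw [oth, iSup₂_le_iff]
    intro χ' hne
    by_cases hχ' : wt ρ N χ' ≤ ⊥
    · exact hχ'.trans bot_le
    obtain ⟨⟨j, hj, hcj⟩, -⟩ := exists_wt_eigen ρ hF ⊥ (by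
      intro n v hv
      rw [(Submodule.mem_bot k).1 hv, map_zero]; exact Submodule.zero_mem _) hχ'
    have hne' : χ' n₀ ≠ χ n₀ := by
      rw [← hci, ← hcj]
      exact hn₀ j hj i hi (by rw [hci, hcj]; exact hne)
    refine le_trans ?_ (le_iSup₂ (f := fun (μ : k) (_ : μ ≠ χ n₀) =>
      (ρ n₀).maxGenEigenspace μ) (χ' n₀) hne')
    intro v hv
    exact (mem_wt ρ).1 hv n₀

end flag

/-- Vectors on which `N` acts by `ψ` modulo the sum of the weight spaces. -/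
def Pm (ψ : N →* k) : Submodule k V where
  carrier := {v | ∀ n : N, ρ n v - ψ n • v ∈ good ρ N}
  zero_mem' := fun n => by simp
  add_mem' := by
    intro a b ha hb n
    have e : ρ n (a + b) - ψ n • (a + b) = (ρ n a - ψ n • a) + (ρ n b - ψ n • b) := by
      rw [map_add, smul_add]; abel
    rw [e]
    exact (good ρ N).add_mem (ha n) (hb n)
  smul_mem' := by
    intro t a ha n
    have e : ρ n (t • a) - ψ n • (t • a) = t • (ρ n a - ψ n • a) := by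
      rw [map_smul, smul_sub, smul_comm]
    rw [e]
    exact (good ρ N).smul_mem _ (ha n)

theorem mem_Pm {ψ : N →* k} {v : V} : v ∈ Pm ρ ψ ↔ ∀ n : N, ρ n v - ψ n • v ∈ good ρ N := Iff.rfl

theorem good_le_Pm [N.Normal] (ψ : N →* k) : good ρ N ≤ Pm ρ ψ := fun v hv n =>
  (good ρ N).sub_mem (rho_mem_good ρ hv n) ((good ρ N).smul_mem _ hv)

theorem rho_mem_Pm [N.Normal] {ψ : N →* k} {v : V} (hv : v ∈ Pm ρ ψ) (g : G) :
    ρ g v ∈ Pm ρ (cg N g ψ) := by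
  intro n
  rw [cg_apply, rho_comm, ← map_smul, ← map_sub]
  exact rho_mem_good ρ (hv _) g

theorem rho_mem_Pm_of_stab [N.Normal] {ψ : N →* k} {v : V} (hv : v ∈ Pm ρ ψ) {g : G}
    (hg : g ∈ stab N ψ) : ρ g v ∈ Pm ρ ψ := by
  have := rho_mem_Pm ρ hv g
  rwa [cg_eq_of_stab N hg] at this

/-- Endomorphisms vanishing on the good part and mapping `Pm ψ` to `U`. -/
def LU (ψ : N →* k) (U : Submodule k V) : Submodule k (Module.End k V) where
  carrier := {τ | (∀ x ∈ good ρ N, τ x = 0) ∧ ∀ x ∈ Pm ρ ψ, τ x ∈ U}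
  zero_mem' := ⟨fun _ _ => rfl, fun _ _ => U.zero_mem⟩
  add_mem' := by
    rintro a b ⟨ha, ha'⟩ ⟨hb, hb'⟩
    refine ⟨fun x hx => ?_, fun x hx => ?_⟩
    · rw [LinearMap.add_apply, ha x hx, hb x hx, add_zero]
    · rw [LinearMap.add_apply]; exact U.add_mem (ha' x hx) (hb' x hx)
  smul_mem' := by
    rintro t a ⟨ha, ha'⟩
    refine ⟨fun x hx => ?_, fun x hx => ?_⟩
    · rw [LinearMap.smul_apply, ha x hx, smul_zero]
    · rw [LinearMap.smul_apply]; exact U.smul_mem _ (ha' x hx)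

theorem mem_LU {ψ : N →* k} {U : Submodule k V} {τ : Module.End k V} :
    τ ∈ LU ρ ψ U ↔ (∀ x ∈ good ρ N, τ x = 0) ∧ ∀ x ∈ Pm ρ ψ, τ x ∈ U := Iff.rfl

theorem LU_mono {ψ : N →* k} {U U' : Submodule k V} (h : U ≤ U') : LU ρ ψ U ≤ LU ρ ψ U' :=
  fun _ hτ => ⟨hτ.1, fun x hx => h (hτ.2 x hx)⟩

/-- Retractions of `Pm ψ` onto the weight space of `χ` killing the other weight spaces. -/
structure IsT (χ ψ : N →* k) (τ : Module.End k V) : Prop where
  id' : ∀ x ∈ wt ρ N χ, τ x = x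
  zero' : ∀ x ∈ oth ρ χ, τ x = 0
  mem' : ∀ x ∈ Pm ρ ψ, τ x ∈ wt ρ N χ

theorem IsT.sub_mem {χ ψ : N →* k} {τ τ' : Module.End k V} (h : IsT ρ χ ψ τ)
    (h' : IsT ρ χ ψ τ') : τ - τ' ∈ LU ρ ψ (wt ρ N χ) := by
  refine ⟨?_, ?_⟩
  · intro x hx
    obtain ⟨y, hy, z, hz, rfl⟩ := Submodule.mem_sup.1 (good_le ρ χ hx)
    rw [LinearMap.sub_apply, map_add, map_add, h.id' y hy, h'.id' y hy, h.zero' z hz,
      h'.zero' z hz, sub_self]
  · intro x hx
    rw [LinearMap.sub_apply]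
    exact Submodule.sub_mem _ (h.mem' x hx) (h'.mem' x hx)

theorem IsT.add {χ ψ : N →* k} {τ x : Module.End k V} (h : IsT ρ χ ψ τ)
    (hx : x ∈ LU ρ ψ (wt ρ N χ)) : IsT ρ χ ψ (τ + x) := by
  refine ⟨?_, ?_, ?_⟩
  · intro y hy
    rw [LinearMap.add_apply, h.id' y hy, hx.1 y (wt_le_good ρ χ hy), add_zero]
  · intro y hy
    rw [LinearMap.add_apply, h.zero' y hy, hx.1 y (oth_le_good ρ χ hy), add_zero]
  · intro y hy
    rw [LinearMap.add_apply]
    exact Submodule.add_mem _ (h.mem' y hy) (hx.2 y hy)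

theorem exists_isT [N.Normal] {m : ℕ} {F : ℕ → Submodule k V} {c : ℕ → N →* k}
    (hF : FlagC2 ρ N m F c) {n₀ : N}
    (hn₀ : ∀ i < m, ∀ j < m, c i ≠ c j → c i n₀ ≠ c j n₀) (χ ψ : N →* k) :
    ∃ τ, IsT ρ χ ψ τ := by
  obtain ⟨Q, hQ, hc⟩ := (disjoint_oth ρ hF hn₀ χ).symm.exists_isCompl
  refine ⟨(wt ρ N χ).projection Q hc.symm, ?_, ?_, ?_⟩
  · intro x hx
    exact Submodule.projection_apply_of_mem_left _ hx
  · intro x hx
    exact Submodule.projection_apply_of_mem_right _ (hQ hx)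
  · intro x _
    exact Submodule.projection_apply_mem _ x

/-- Conjugation action. -/
noncomputable def cj : G →* Module.End k (Module.End k V) := Representation.linHom ρ ρ

theorem cj_apply (g : G) (τ : Module.End k V) (x : V) : cj ρ g τ x = ρ g (τ (ρ g⁻¹ x)) := rfl

theorem IsT.cj [N.Normal] {χ ψ : N →* k} {τ : Module.End k V} (h : IsT ρ χ ψ τ) {g : G}
    (hg : g ∈ stab N χ) (hg' : g ∈ stab N ψ) : IsT ρ χ ψ (cj ρ g τ) := by
  refine ⟨?_, ?_, ?_⟩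
  · intro x hx
    rw [cj_apply, h.id' _ (rho_mem_wt_of_stab ρ hx ((stab N χ).inv_mem hg)), rho_inv_apply]
  · intro x hx
    rw [cj_apply, h.zero' _ (rho_mem_oth ρ hx ((stab N χ).inv_mem hg)), map_zero]
  · intro x hx
    rw [cj_apply]
    exact rho_mem_wt_of_stab ρ (h.mem' _ (rho_mem_Pm_of_stab ρ hx ((stab N ψ).inv_mem hg'))) hg

theorem cj_mem_LU [N.Normal] {ψ : N →* k} {U : Submodule k V} {τ : Module.End k V}
    (h : τ ∈ LU ρ ψ U) {g : G} (hg : g ∈ stab N ψ) (hU : ∀ x ∈ U, ρ g x ∈ U) :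
    cj ρ g τ ∈ LU ρ ψ U := by
  refine ⟨?_, ?_⟩
  · intro x hx
    rw [cj_apply, h.1 _ (rho_mem_good ρ hx _), map_zero]
  · intro x hx
    rw [cj_apply]
    exact hU _ (h.2 _ (rho_mem_Pm_of_stab ρ hx ((stab N ψ).inv_mem hg)))

theorem cj_N_apply [N.Normal] {ψ : N →* k} {U : Submodule k V} {τ : Module.End k V}
    (h : τ ∈ LU ρ ψ U) (n : N) {x : V} (hx : x ∈ Pm ρ ψ) :
    cj ρ n τ x = ψ n⁻¹ • ρ n (τ x) := by
  have h1 := h.1 _ (hx n⁻¹)
  rw [map_sub, map_smul, sub_eq_zero] at h1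
  rw [cj_apply]
  have e : ((n⁻¹ : N) : G) = (n : G)⁻¹ := rfl
  rw [e] at h1
  rw [h1, map_smul]

/-- If all retractions for `χ ≠ ψ` can be chosen `N`-invariant then `Pm ψ` is good. -/
theorem exists_no_fixed [N.Normal] {m : ℕ} {F : ℕ → Submodule k V} {c : ℕ → N →* k}
    (hF : FlagC2 ρ N m F c) {n₀ : N}
    (hn₀ : ∀ i < m, ∀ j < m, c i ≠ c j → c i n₀ ≠ c j n₀) (ψ : N →* k)
    {v : V} (hv : v ∈ Pm ρ ψ) (hvg : v ∉ good ρ N) :
    ∃ χ : N →* k, χ ≠ ψ ∧ ¬ wt ρ N χ ≤ ⊥ ∧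
      ∀ τ, IsT ρ χ ψ τ → ∃ n : N, cj ρ n τ - τ ∉ LU ρ ψ ⊥ := by
  classical
  by_contra hcon
  push Not at hcon
  have hex : ∀ χ : N →* k, ∃ τ, IsT ρ χ ψ τ ∧ (χ ≠ ψ → ∀ n : N, ∀ x ∈ Pm ρ ψ,
      ρ n (τ x) = τ (ρ n x)) := by
    intro χ
    by_cases hχ : wt ρ N χ ≤ ⊥
    · obtain ⟨τ, hτ⟩ := exists_isT ρ hF hn₀ χ ψ
      refine ⟨τ, hτ, fun _ n x hx => ?_⟩
      have h1 : τ x = 0 := (Submodule.mem_bot k).1 (hχ (hτ.mem' x hx))
      have h2 : τ (ρ n x) = 0 := (Submodule.mem_bot k).1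
        (hχ (hτ.mem' _ (rho_mem_Pm_of_stab ρ hx (le_stab N ψ n.2))))
      rw [h1, h2, map_zero]
    · by_cases hne : χ = ψ
      · obtain ⟨τ, hτ⟩ := exists_isT ρ hF hn₀ χ ψ
        exact ⟨τ, hτ, fun h => absurd hne h⟩
      · obtain ⟨τ, hτ, h⟩ := hcon χ hne hχ
        refine ⟨τ, hτ, fun _ n x hx => ?_⟩
        have h1 := (h n).2 (ρ n x) (rho_mem_Pm_of_stab ρ hx (le_stab N ψ n.2))
        rw [Submodule.mem_bot, LinearMap.sub_apply, sub_eq_zero, cj_apply, rho_inv_apply'] at h1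
        exact h1
  choose τ hτ hfix using hex
  set X : Finset (N →* k) := (Finset.range m).image c with hX
  -- decomposition of good vectors
  have hdec : ∀ u ∈ good ρ N, ∑ χ ∈ X, τ χ u = u := by
    intro u hu
    have hle : good ρ N ≤ LinearMap.eqLocus (∑ χ ∈ X, τ χ) LinearMap.id := by
      rw [good, iSup_le_iff]
      intro χ x hx
      rw [LinearMap.mem_eqLocus, LinearMap.id_apply, LinearMap.sum_apply]
      by_cases hχ : wt ρ N χ ≤ ⊥
      · have : x = 0 := (Submodule.mem_bot k).1 (hχ hx)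
        rw [this]
        simp
      · obtain ⟨⟨i, hi, hci⟩, -⟩ := exists_wt_eigen ρ hF ⊥ (by
          intro n v hv
          rw [(Submodule.mem_bot k).1 hv, map_zero]; exact Submodule.zero_mem _) hχ
        have hmem : χ ∈ X := by
          rw [hX, Finset.mem_image]
          exact ⟨i, Finset.mem_range.2 hi, hci⟩
        rw [Finset.sum_eq_single_of_mem χ hmem, (hτ χ).id' x hx]
        intro χ' _ hne
        exact (hτ χ').zero' x (wt_le_oth ρ (Ne.symm hne) hx)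
    have := hle hu
    rwa [LinearMap.mem_eqLocus, LinearMap.id_apply, LinearMap.sum_apply] at this
  set w := v - ∑ χ ∈ X.erase ψ, τ χ v with hw
  have hwψ : ∀ n : N, ρ n w - ψ n • w ∈ wt ρ N ψ := by
    intro n
    set u := ρ n v - ψ n • v with hu
    have hug : u ∈ good ρ N := hv n
    have e1 : ρ n w - ψ n • w = u - ∑ χ ∈ X.erase ψ, τ χ u := by
      have e2 : ∀ χ ∈ X.erase ψ, τ χ u = ρ n (τ χ v) - ψ n • τ χ v := by
        intro χ hχ
        rw [hu, map_sub, map_smul, hfix χ (Finset.ne_of_mem_erase hχ) n v hv]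
      rw [Finset.sum_congr rfl e2, Finset.sum_sub_distrib, hw, map_sub, map_sum, smul_sub,
        Finset.smul_sum, hu]
      abel
    rw [e1]
    by_cases hψ : ψ ∈ X
    · have e3 := Finset.add_sum_erase X (fun χ => τ χ u) hψ
      rw [hdec u hug] at e3
      have e4 : u - ∑ χ ∈ X.erase ψ, τ χ u = τ ψ u := by
        rw [sub_eq_iff_eq_add]; exact e3.symm
      rw [e4]
      exact (hτ ψ).mem' u (good_le_Pm ρ ψ hug)
    · rw [Finset.erase_eq_of_notMem hψ, hdec u hug, sub_self]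
      exact Submodule.zero_mem _
  have hwm : w ∈ wt ρ N ψ := by
    rw [mem_wt]
    intro n
    obtain ⟨l, hl⟩ := mem_maxGen.1 ((mem_wt ρ).1 (hwψ n) n)
    rw [mem_maxGen]
    refine ⟨l + 1, ?_⟩
    rw [pow_succ, Module.End.mul_apply]
    simpa using hl
  apply hvg
  have e5 : v = w + ∑ χ ∈ X.erase ψ, τ χ v := by rw [hw]; abel
  rw [e5]
  refine (good ρ N).add_mem (wt_le_good ρ ψ hwm) ((good ρ N).sum_mem ?_)
  intro χ _
  exact wt_le_good ρ χ ((hτ χ).mem' v hv)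

end Pool.Agent.Helper5.TL
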