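import Pool.Agent.Helper5.TL.Cls
import Pool.Agent.Helper5.TL.Retract

/-!
# Blocks of characters modulo unit-valued characters
-/

namespace Pool.Agent.Helper5.TL

open Module

universe u v

variable {k : Type u} {G : Type*} {V : Type v} [Field k] [Group G] [AddCommGroup V] [Module k V]
  (ρ : G →* Module.End k V) {N : Subgroup G}

/-- The ratio of the two characters takes values in the units of the ring of algebraic integers. -/
def URel (χ φ : N →* k) : Prop := ∀ n : N, IsIntegral ℤ (χ n * φ n⁻¹)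

theorem char_inv_mul {χ : N →* k} (n : N) : χ n⁻¹ * χ n = 1 := by
  rw [← map_mul, inv_mul_cancel, map_one]

theorem char_mul_inv {χ : N →* k} (n : N) : χ n * χ n⁻¹ = 1 := by
  rw [← map_mul, mul_inv_cancel, map_one]

theorem URel.refl (χ : N →* k) : URel χ χ := fun n => by
  rw [char_mul_inv]; exact isIntegral_one

theorem URel.symm {χ φ : N →* k} (h : URel χ φ) : URel φ χ := fun n => by
  have := h n⁻¹
  rwa [inv_inv, mul_comm] at this

theorem URel.trans {χ φ ψ : N →* k} (h : URel χ φ) (h' : URel φ ψ) : URel χ ψ := fun n => by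
  have h1 := (h n).mul (h' n)
  have e : χ n * φ n⁻¹ * (φ n * ψ n⁻¹) = χ n * ψ n⁻¹ := by
    calc χ n * φ n⁻¹ * (φ n * ψ n⁻¹) = χ n * (φ n⁻¹ * φ n) * ψ n⁻¹ := by ring
      _ = χ n * ψ n⁻¹ := by rw [char_inv_mul, mul_one]
  rwa [e] at h1

theorem URel.cg [N.Normal] {χ φ : N →* k} (h : URel χ φ) (g : G) : URel (cg N g χ) (cg N g φ) :=
  fun n => by
  have e : MulAut.conjNormal g⁻¹ n⁻¹ = (MulAut.conjNormal g⁻¹ n)⁻¹ := map_inv _ _
  rw [cg_apply, cg_apply, e]
  exact h _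

theorem cg_mul [N.Normal] (g h : G) (χ : N →* k) : cg N (g * h) χ = cg N g (cg N h χ) := by
  ext n
  rw [cg_apply, cg_apply, cg_apply, mul_inv_rev, map_mul, MulAut.mul_apply]

theorem cg_one [N.Normal] (χ : N →* k) : cg N 1 χ = χ := by
  ext n
  rw [cg_apply, inv_one, map_one, MulAut.one_apply]

/-- The setoid. -/
def urel (k : Type u) [Field k] (N : Subgroup G) : Setoid (N →* k) where
  r := URel
  iseqv := ⟨URel.refl, URel.symm, URel.trans⟩

/-- classes of characters -/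
abbrev Cl (k : Type u) [Field k] (N : Subgroup G) : Type _ := Quotient (urel k N)

/-- class of a character -/
def cl (χ : N →* k) : Cl k N := Quotient.mk (urel k N) χ

theorem cl_eq {χ φ : N →* k} : cl χ = cl φ ↔ URel χ φ := by
  rw [cl, cl, Quotient.eq]
  rfl

/-- conjugation action on classes -/
def cgQ [N.Normal] (g : G) : Cl k N → Cl k N :=
  Quotient.map (cg N g) (fun _ _ h => URel.cg h g)

theorem cgQ_cl [N.Normal] (g : G) (χ : N →* k) : cgQ g (cl χ) = cl (cg N g χ) := rfl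

theorem cgQ_mul [N.Normal] (g h : G) (q : Cl k N) : cgQ (g * h) q = cgQ g (cgQ h q) := by
  obtain ⟨χ, rfl⟩ : ∃ χ : N →* k, cl χ = q := Quotient.exists_rep q
  rw [cgQ_cl, cgQ_cl, cgQ_cl, cg_mul]

theorem cgQ_one [N.Normal] (q : Cl k N) : cgQ (1 : G) q = q := by
  obtain ⟨χ, rfl⟩ : ∃ χ : N →* k, cl χ = q := Quotient.exists_rep q
  rw [cgQ_cl, cg_one]

theorem cgQ_inv_iff [N.Normal] (g : G) (q q' : Cl k N) : cgQ g⁻¹ q = q' ↔ q = cgQ g q' := by
  constructor
  · rintro rfl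
    rw [← cgQ_mul, mul_inv_cancel, cgQ_one]
  · rintro rfl
    rw [← cgQ_mul, inv_mul_cancel, cgQ_one]

variable [FiniteDimensional k V]

/-- the block of a class -/
def WQ (q : Cl k N) : Submodule k V := VP ρ (fun φ => cl φ = q)

/-- sum of all blocks -/
def gd (N : Subgroup G) : Submodule k V := ⨆ q : Cl k N, WQ ρ q

/-- sum of the other blocks -/
def ot (q : Cl k N) : Submodule k V := ⨆ (q' : Cl k N) (_ : q' ≠ q), WQ ρ q'

omit [FiniteDimensional k V] in
theorem WQ_le_gd (q : Cl k N) : WQ ρ q ≤ gd ρ N := le_iSup (fun q => WQ ρ q) q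

omit [FiniteDimensional k V] in
theorem WQ_le_ot {q q' : Cl k N} (h : q' ≠ q) : WQ ρ q' ≤ ot ρ q :=
  le_iSup₂ (f := fun (q' : Cl k N) (_ : q' ≠ q) => WQ ρ q') q' h

omit [FiniteDimensional k V] in
theorem ot_le_gd (q : Cl k N) : ot ρ q ≤ gd ρ N := by
  rw [ot, iSup₂_le_iff]
  exact fun q' _ => WQ_le_gd ρ q'

omit [FiniteDimensional k V] in
theorem gd_le (q : Cl k N) : gd ρ N ≤ WQ ρ q ⊔ ot ρ q := by
  rw [gd, iSup_le_iff]
  intro q'
  by_cases h : q' = q
  · rw [h]; exact le_sup_left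
  · exact (WQ_le_ot ρ h).trans le_sup_right

theorem WQ_inv (q : Cl k N) : NInv ρ N (WQ ρ q) := (cls_VP ρ _).1

theorem gd_inv : NInv ρ N (gd ρ N) := NInv.iSup ρ (fun q => WQ_inv ρ q)

theorem ot_inv (q : Cl k N) : NInv ρ N (ot ρ q) :=
  NInv.iSup ρ (fun q' => NInv.iSup ρ (fun _ => WQ_inv ρ q'))

theorem rho_mem_WQ [N.Normal] {q : Cl k N} {v : V} (hv : v ∈ WQ ρ q) (g : G) :
    ρ g v ∈ WQ ρ (cgQ g q) := by
  have h1 := rho_mem_VP ρ hv g
  refine VP_mono ρ ?_ h1
  intro φ hφ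
  rw [← cgQ_cl] at hφ
  exact (cgQ_inv_iff g _ _).1 hφ

theorem rho_mem_gd [N.Normal] {v : V} (hv : v ∈ gd ρ N) (g : G) : ρ g v ∈ gd ρ N := by
  have : gd ρ N ≤ (gd ρ N).comap (ρ g) := by
    rw [gd, iSup_le_iff]
    intro q v hv
    exact WQ_le_gd ρ _ (rho_mem_WQ ρ hv g)
  exact this hv

theorem rho_mem_WQ_of [N.Normal] {q : Cl k N} {v : V} (hv : v ∈ WQ ρ q) {g : G}
    (hg : cgQ g q = q) : ρ g v ∈ WQ ρ q := by
  have := rho_mem_WQ ρ hv g
  rwa [hg] at this

theorem cgQ_fix_inv [N.Normal] {g : G} {q : Cl k N} (h : cgQ g q = q) : cgQ g⁻¹ q = q := by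
  rw [cgQ_inv_iff, h]

theorem rho_mem_ot_of [N.Normal] {q : Cl k N} {v : V} (hv : v ∈ ot ρ q) {g : G}
    (hg : cgQ g q = q) : ρ g v ∈ ot ρ q := by
  have : ot ρ q ≤ (ot ρ q).comap (ρ g) := by
    rw [ot, iSup₂_le_iff]
    intro q' hne v hv
    refine WQ_le_ot ρ ?_ (rho_mem_WQ ρ hv g)
    intro h
    apply hne
    have h2 := (cgQ_inv_iff g q q').2 h.symm
    rw [cgQ_fix_inv hg] at h2
    exact h2.symm
  exact this hv

section flag

variable {m : ℕ} {F : ℕ → Submodule k V} {c : ℕ → N →* k}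

theorem disjoint_ot (hF : FlagC2 ρ N m F c) (q : Cl k N) :
    Disjoint (WQ ρ q) (ot ρ q) := by
  refine (VP_disjoint ρ hF (P := fun φ => cl φ = q) (Q := fun φ => cl φ ≠ q)
    (fun φ h h' => h' h)).mono le_rfl ?_
  rw [ot, iSup₂_le_iff]
  intro q' hne
  exact VP_mono ρ (fun φ hφ h => hne (hφ.symm.trans h))

end flag

/-- Vectors on which `N` acts by `ψ` modulo the sum of the blocks. -/
def PQ (ψ : N →* k) : Submodule k V where
  carrier := {v | ∀ n : N, ρ n v - ψ n • v ∈ gd ρ N}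
  zero_mem' := fun n => by simp
  add_mem' := by
    intro a b ha hb n
    have e : ρ n (a + b) - ψ n • (a + b) = (ρ n a - ψ n • a) + (ρ n b - ψ n • b) := by
      rw [map_add, smul_add]; abel
    rw [e]
    exact (gd ρ N).add_mem (ha n) (hb n)
  smul_mem' := by
    intro t a ha n
    have e : ρ n (t • a) - ψ n • (t • a) = t • (ρ n a - ψ n • a) := by
      rw [map_smul, smul_sub, smul_comm]
    rw [e]
    exact (gd ρ N).smul_mem _ (ha n)

theorem gd_le_PQ (ψ : N →* k) : gd ρ N ≤ PQ ρ ψ := fun v hv n =>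
  (gd ρ N).sub_mem (gd_inv ρ n v hv) ((gd ρ N).smul_mem _ hv)

theorem rho_mem_PQ [N.Normal] {ψ : N →* k} {v : V} (hv : v ∈ PQ ρ ψ) (g : G) :
    ρ g v ∈ PQ ρ (cg N g ψ) := by
  intro n
  rw [cg_apply, rho_comm, ← map_smul, ← map_sub]
  exact rho_mem_gd ρ (hv _) g

theorem rho_mem_PQ_of [N.Normal] {ψ : N →* k} {v : V} (hv : v ∈ PQ ρ ψ) {g : G}
    (hg : g ∈ stab N ψ) : ρ g v ∈ PQ ρ ψ := by
  have := rho_mem_PQ ρ hv g
  rwa [cg_eq_of_stab N hg] at this

/-- Endomorphisms vanishing on the sum of the blocks and mapping `PQ ψ` to `U`. -/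
def LQ (ψ : N →* k) (U : Submodule k V) : Submodule k (Module.End k V) where
  carrier := {τ | (∀ x ∈ gd ρ N, τ x = 0) ∧ ∀ x ∈ PQ ρ ψ, τ x ∈ U}
  zero_mem' := ⟨fun _ _ => rfl, fun _ _ => U.zero_mem⟩
  add_mem' := by
    rintro a b ⟨ha, ha'⟩ ⟨hb, hb'⟩
    refine ⟨fun x hx => ?_, fun x hx => ?_⟩
    · rw [LinearMap.add_apply, ha x hx, hb x hx, add_zero]
    · rw [LinearMap.add_apply]; exact U.add_mem (ha' x hx) (hb' x hx)
  smul_mem' := by
    rintro t a ⟨ha, ha'⟩
    refine ⟨fun x hx => ?_, fun x hx => ?_⟩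
    · rw [LinearMap.smul_apply, ha x hx, smul_zero]
    · rw [LinearMap.smul_apply]; exact U.smul_mem _ (ha' x hx)

omit [FiniteDimensional k V] in
theorem LQ_mono {ψ : N →* k} {U U' : Submodule k V} (h : U ≤ U') : LQ ρ ψ U ≤ LQ ρ ψ U' :=
  fun _ hτ => ⟨hτ.1, fun x hx => h (hτ.2 x hx)⟩

/-- Retractions of `PQ ψ` onto the block `q` killing the other blocks. -/
structure IsR (q : Cl k N) (ψ : N →* k) (τ : Module.End k V) : Prop where
  id' : ∀ x ∈ WQ ρ q, τ x = x
  zero' : ∀ x ∈ ot ρ q, τ x = 0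
  mem' : ∀ x ∈ PQ ρ ψ, τ x ∈ WQ ρ q

omit [FiniteDimensional k V] in
theorem IsR.sub_mem {q : Cl k N} {ψ : N →* k} {τ τ' : Module.End k V} (h : IsR ρ q ψ τ)
    (h' : IsR ρ q ψ τ') : τ - τ' ∈ LQ ρ ψ (WQ ρ q) := by
  refine ⟨?_, ?_⟩
  · intro x hx
    obtain ⟨y, hy, z, hz, rfl⟩ := Submodule.mem_sup.1 (gd_le ρ q hx)
    rw [LinearMap.sub_apply, map_add, map_add, h.id' y hy, h'.id' y hy, h.zero' z hz,
      h'.zero' z hz, sub_self]
  · intro x hx
    rw [LinearMap.sub_apply]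
    exact Submodule.sub_mem _ (h.mem' x hx) (h'.mem' x hx)

omit [FiniteDimensional k V] in
theorem IsR.add {q : Cl k N} {ψ : N →* k} {τ x : Module.End k V} (h : IsR ρ q ψ τ)
    (hx : x ∈ LQ ρ ψ (WQ ρ q)) : IsR ρ q ψ (τ + x) := by
  refine ⟨?_, ?_, ?_⟩
  · intro y hy
    rw [LinearMap.add_apply, h.id' y hy, hx.1 y (WQ_le_gd ρ q hy), add_zero]
  · intro y hy
    rw [LinearMap.add_apply, h.zero' y hy, hx.1 y (ot_le_gd ρ q hy), add_zero]
  · intro y hy
    rw [LinearMap.add_apply]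
    exact Submodule.add_mem _ (h.mem' y hy) (hx.2 y hy)

theorem exists_isR {m : ℕ} {F : ℕ → Submodule k V} {c : ℕ → N →* k}
    (hF : FlagC2 ρ N m F c) (q : Cl k N) (ψ : N →* k) : ∃ τ, IsR ρ q ψ τ := by
  obtain ⟨Q, hQ, hc⟩ := (disjoint_ot ρ hF q).symm.exists_isCompl
  refine ⟨(WQ ρ q).projection Q hc.symm, ?_, ?_, ?_⟩
  · intro x hx
    exact Submodule.projection_apply_of_mem_left _ hx
  · intro x hx
    exact Submodule.projection_apply_of_mem_right _ (hQ hx)
  · intro x _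
    exact Submodule.projection_apply_mem _ x

theorem IsR.cj [N.Normal] {q : Cl k N} {ψ : N →* k} {τ : Module.End k V} (h : IsR ρ q ψ τ)
    {g : G} (hg : cgQ g q = q) (hg' : g ∈ stab N ψ) : IsR ρ q ψ (cj ρ g τ) := by
  refine ⟨?_, ?_, ?_⟩
  · intro x hx
    rw [cj_apply, h.id' _ (rho_mem_WQ_of ρ hx (cgQ_fix_inv hg)), rho_inv_apply]
  · intro x hx
    rw [cj_apply, h.zero' _ (rho_mem_ot_of ρ hx (cgQ_fix_inv hg)), map_zero]
  · intro x hx
    rw [cj_apply]
    exact rho_mem_WQ_of ρ (h.mem' _ (rho_mem_PQ_of ρ hx ((stab N ψ).inv_mem hg'))) hg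

theorem cj_mem_LQ [N.Normal] {ψ : N →* k} {U : Submodule k V} {τ : Module.End k V}
    (h : τ ∈ LQ ρ ψ U) {g : G} (hg : g ∈ stab N ψ) (hU : ∀ x ∈ U, ρ g x ∈ U) :
    cj ρ g τ ∈ LQ ρ ψ U := by
  refine ⟨?_, ?_⟩
  · intro x hx
    rw [cj_apply, h.1 _ (rho_mem_gd ρ hx _), map_zero]
  · intro x hx
    rw [cj_apply]
    exact hU _ (h.2 _ (rho_mem_PQ_of ρ hx ((stab N ψ).inv_mem hg)))

omit [FiniteDimensional k V] in
theorem cj_N_apply' [N.Normal] {ψ : N →* k} {U : Submodule k V} {τ : Module.End k V}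
    (h : τ ∈ LQ ρ ψ U) (n : N) {x : V} (hx : x ∈ PQ ρ ψ) :
    cj ρ n τ x = ψ n⁻¹ • ρ n (τ x) := by
  have h1 := h.1 _ (hx n⁻¹)
  rw [map_sub, map_smul, sub_eq_zero] at h1
  rw [cj_apply]
  have e : ((n⁻¹ : N) : G) = (n : G)⁻¹ := rfl
  rw [e] at h1
  rw [h1, map_smul]

theorem cgQ_of_N [N.Normal] (n : N) (q : Cl k N) : cgQ (n : G) q = q := by
  obtain ⟨χ, rfl⟩ : ∃ χ : N →* k, cl χ = q := Quotient.exists_rep q
  rw [cgQ_cl, cg_eq_of_stab N (le_stab N χ n.2)]

/-- If all retractions for blocks different from the block of `ψ` can be chosen `N`-invariant then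
`PQ ψ` is in the sum of the blocks. -/
theorem exists_no_fixedQ [N.Normal] {m : ℕ} {F : ℕ → Submodule k V} {c : ℕ → N →* k}
    (hF : FlagC2 ρ N m F c) (ψ : N →* k)
    {v : V} (hv : v ∈ PQ ρ ψ) (hvg : v ∉ gd ρ N) :
    ∃ q : Cl k N, q ≠ cl ψ ∧
      ∀ τ, IsR ρ q ψ τ → ∃ n : N, cj ρ n τ - τ ∉ LQ ρ ψ ⊥ := by
  classical
  by_contra hcon
  push Not at hcon
  have hex : ∀ q : Cl k N, ∃ τ, IsR ρ q ψ τ ∧ (q ≠ cl ψ → ∀ n : N, ∀ x ∈ PQ ρ ψ,
      ρ n (τ x) = τ (ρ n x)) := by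
    intro q
    by_cases hne : q = cl ψ
    · obtain ⟨τ, hτ⟩ := exists_isR ρ hF q ψ
      exact ⟨τ, hτ, fun h => absurd hne h⟩
    · obtain ⟨τ, hτ, h⟩ := hcon q hne
      refine ⟨τ, hτ, fun _ n x hx => ?_⟩
      have h1 := (h n).2 (ρ n x) (rho_mem_PQ_of ρ hx (le_stab N ψ n.2))
      rw [Submodule.mem_bot, LinearMap.sub_apply, sub_eq_zero, cj_apply, rho_inv_apply'] at h1
      exact h1
  choose τ hτ hfix using hex
  set X : Finset (Cl k N) := (Finset.range m).image (fun i => cl (c i)) with hX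
  -- blocks outside `X` are zero
  have hzero : ∀ q, q ∉ X → WQ ρ q = ⊥ := by
    intro q hq
    by_contra hne
    obtain ⟨i, hi, w, hw, hw0, he⟩ := exists_eigen_mod ρ hF ⊥ (WQ ρ q) (WQ_inv ρ q)
      (fun hle => hne (le_bot_iff.1 hle))
    have h1 : cl (c i) = q := (cls_VP ρ _).2 ⊥ (NInv.bot ρ) w hw hw0 _ he
    exact hq (Finset.mem_image.2 ⟨i, Finset.mem_range.2 hi, h1⟩)
  have hdec : ∀ u ∈ gd ρ N, ∑ q ∈ X, τ q u = u := by
    intro u hu
    have hle : gd ρ N ≤ LinearMap.eqLocus (∑ q ∈ X, τ q) LinearMap.id := by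
      rw [gd, iSup_le_iff]
      intro q x hx
      rw [LinearMap.mem_eqLocus, LinearMap.id_apply, LinearMap.sum_apply]
      by_cases hq : q ∈ X
      · rw [Finset.sum_eq_single_of_mem q hq, (hτ q).id' x hx]
        intro q' _ hne
        exact (hτ q').zero' x (WQ_le_ot ρ (Ne.symm hne) hx)
      · rw [hzero q hq] at hx
        rw [(Submodule.mem_bot k).1 hx]
        simp
    have := hle hu
    rwa [LinearMap.mem_eqLocus, LinearMap.id_apply, LinearMap.sum_apply] at this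
  set w := v - ∑ q ∈ X.erase (cl ψ), τ q v with hw
  have hwψ : ∀ n : N, ρ n w - ψ n • w ∈ WQ ρ (cl ψ) := by
    intro n
    set u := ρ n v - ψ n • v with hu
    have hug : u ∈ gd ρ N := hv n
    have e1 : ρ n w - ψ n • w = u - ∑ q ∈ X.erase (cl ψ), τ q u := by
      have e2 : ∀ q ∈ X.erase (cl ψ), τ q u = ρ n (τ q v) - ψ n • τ q v := by
        intro q hq
        rw [hu, map_sub, map_smul, hfix q (Finset.ne_of_mem_erase hq) n v hv]
      rw [Finset.sum_congr rfl e2, Finset.sum_sub_distrib, hw, map_sub, map_sum, smul_sub,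
        Finset.smul_sum, hu]
      abel
    rw [e1]
    by_cases hψ : cl ψ ∈ X
    · have e3 := Finset.add_sum_erase X (fun q => τ q u) hψ
      rw [hdec u hug] at e3
      have e4 : u - ∑ q ∈ X.erase (cl ψ), τ q u = τ (cl ψ) u := by
        rw [sub_eq_iff_eq_add]; exact e3.symm
      rw [e4]
      exact (hτ (cl ψ)).mem' u (gd_le_PQ ρ ψ hug)
    · rw [Finset.erase_eq_of_notMem hψ, hdec u hug, sub_self]
      exact Submodule.zero_mem _
  -- the subspace `WQ (cl ψ) + k w` has all its characters in the class of `ψ`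
  have hwm : w ∈ WQ ρ (cl ψ) := by
    have hcls : Cls ρ (fun φ => cl φ = cl ψ) (WQ ρ (cl ψ) ⊔ Submodule.span k {w}) := by
      have h0 := cls_VP ρ (fun φ : N →* k => cl φ = cl ψ)
      have hinv : NInv ρ N (WQ ρ (cl ψ) ⊔ Submodule.span k {w}) := by
        intro n x hx
        obtain ⟨a, ha, b, hb, rfl⟩ := Submodule.mem_sup.1 hx
        obtain ⟨t, rfl⟩ := Submodule.mem_span_singleton.1 hb
        have e : ρ n (a + t • w) = (ρ n a + t • (ρ n w - ψ n • w)) + (t * ψ n) • w := by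
          rw [map_add, map_smul, smul_sub, smul_smul]; abel
        rw [e]
        refine Submodule.add_mem_sup ?_ ?_
        · exact Submodule.add_mem _ (WQ_inv ρ _ n a ha) (Submodule.smul_mem _ _ (hwψ n))
        · exact Submodule.mem_span_singleton.2 ⟨_, rfl⟩
      refine ⟨hinv, ?_⟩
      intro U hU x hx hxU φ hφ
      obtain ⟨a, ha, b, hb, rfl⟩ := Submodule.mem_sup.1 hx
      obtain ⟨t, rfl⟩ := Submodule.mem_span_singleton.1 hb
      by_cases hmem : t • w ∈ U ⊔ WQ ρ (cl ψ)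
      · obtain ⟨u, hu, b', hb', hub⟩ := Submodule.mem_sup.1 hmem
        refine h0.2 U hU (a + b') (Submodule.add_mem _ ha hb') ?_ φ ?_
        · intro hmem'
          apply hxU
          have e : a + t • w = u + (a + b') := by rw [← hub]; abel
          rw [e]
          exact U.add_mem hu hmem'
        · intro n
          have e : ρ n (a + b') - φ n • (a + b') =
              (ρ n (a + t • w) - φ n • (a + t • w)) - (ρ n u - φ n • u) := by
            rw [← hub]
            simp only [map_add, smul_add]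
            abel
          rw [e]
          exact U.sub_mem (hφ n) (U.sub_mem (hU n u hu) (U.smul_mem _ hu))
      · -- modulo `U ⊔ WQ`, `t w` is an eigenvector for `ψ` and for `φ`
        have h1 : φ = ψ := by
          ext n
          by_contra hne
          apply hmem
          have h2 : (ψ n - φ n) • (t • w) ∈ U ⊔ WQ ρ (cl ψ) := by
            have e : (ψ n - φ n) • (t • w) = (ρ n (a + t • w) - φ n • (a + t • w)) -
                ((ρ n a - φ n • a) + t • (ρ n w - ψ n • w)) := by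
              rw [map_add, map_smul]
              module
            rw [e]
            exact Submodule.sub_mem _ (Submodule.mem_sup_left (hφ n))
              (Submodule.mem_sup_right (Submodule.add_mem _ (Submodule.sub_mem _
                (WQ_inv ρ _ n a ha) (Submodule.smul_mem _ _ ha))
                (Submodule.smul_mem _ _ (hwψ n))))
          exact (Submodule.smul_mem_iff _ (sub_ne_zero.2 (Ne.symm hne))).1 h2
        rw [h1]
    exact le_VP ρ hcls (Submodule.mem_sup_right (Submodule.mem_span_singleton_self w))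
  apply hvg
  have e5 : v = w + ∑ q ∈ X.erase (cl ψ), τ q v := by rw [hw]; abel
  rw [e5]
  refine (gd ρ N).add_mem (WQ_le_gd ρ _ hwm) ((gd ρ N).sum_mem ?_)
  intro q _
  exact WQ_le_gd ρ q ((hτ q).mem' v hv)

end Pool.Agent.Helper5.TL
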