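import Pool.Agent.Helper5.TL.AffData

/-!
# Construction of the affine data
-/

namespace Pool.Agent.Helper5.TL

open Module

universe u v

variable {k : Type u} {G : Type*} {V : Type v} [Field k] [Group G] [AddCommGroup V] [Module k V]
  (ρ : G →* Module.End k V) {N : Subgroup G} [N.Normal]

theorem exists_affData [IsAlgClosed k] [FiniteDimensional k V] [hNf : N.FiniteIndex]
    {m : ℕ} {F : ℕ → Submodule k V} {c : ℕ → N →* k} (hF : FlagC2 ρ N m F c) {n₀ : N}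
    (hn₀ : ∀ i < m, ∀ j < m, c i ≠ c j → c i n₀ ≠ c j n₀) (hgood : good ρ N ≠ ⊤) :
    Nonempty (AffData ρ) := by
  classical
  -- the character `ψ`
  obtain ⟨j, hj, v₀, -, hv₀g, hv₀⟩ := exists_eigen_mod ρ hF (good ρ N) ⊤
    (fun _ _ _ => Submodule.mem_top) (fun h => hgood (top_le_iff.1 h))
  set ψ : N →* k := c j with hψ
  have hv₀P : v₀ ∈ Pm ρ ψ := hv₀
  obtain ⟨χ, hχψ, hχne, hno⟩ := exists_no_fixed ρ hF hn₀ ψ hv₀P hv₀g
  obtain ⟨⟨i, hi, hci⟩, x₀, hx₀w, hx₀0, hx₀⟩ := exists_wt_eigen ρ hF ⊥ (by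
    intro n v hv
    rw [(Submodule.mem_bot k).1 hv, map_zero]; exact Submodule.zero_mem _) hχne
  have hx₀ne : x₀ ≠ 0 := fun h => hx₀0 (by rw [h]; exact Submodule.zero_mem _)
  have hx₀' : ∀ n : N, ρ n x₀ = χ n • x₀ := fun n => by
    have := (Submodule.mem_bot k).1 (hx₀ n)
    rwa [sub_eq_zero] at this
  have hsep : χ n₀ ≠ ψ n₀ := by
    rw [← hci, hψ]
    exact hn₀ i hi j hj (by rw [hci]; exact hχψ)
  obtain ⟨τ₀, hτ₀⟩ := exists_isT ρ hF hn₀ χ ψ
  obtain ⟨U₀, U₁, τ₁, hU₀₁, hU₁nle, hU₁w, hU₀inv, hU₁inv, hscal, hτ₁, hτ₁g, hfin⟩ :=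
    exists_reduction ρ hF hsep hτ₀ hno
  -- index bounds
  have hsepχ : ∀ g h : G, cg N g χ ≠ cg N h χ → cg N g χ n₀ ≠ cg N h χ n₀ := by
    have key : ∀ g : G, ∃ i < m, c i = cg N g χ := by
      intro g
      refine char_of_mod ρ hF ⊥ ?_ (v := ρ g x₀) ?_ ?_
      · intro n v hv
        rw [(Submodule.mem_bot k).1 hv, map_zero]; exact Submodule.zero_mem _
      · intro h
        have h1 : ρ g⁻¹ (ρ g x₀) = x₀ := rho_inv_apply' ρ g x₀
        rw [(Submodule.mem_bot k).1 h, map_zero] at h1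
        exact hx₀ne h1.symm
      · intro n
        rw [Submodule.mem_bot, rho_comm, hx₀', map_smul, cg_apply, sub_self]
    intro g h hne
    obtain ⟨a, ha, hca⟩ := key g
    obtain ⟨b, hb, hcb⟩ := key h
    rw [← hca, ← hcb] at hne ⊢
    exact hn₀ a ha b hb hne
  have hsepψ : ∀ g h : G, cg N g ψ ≠ cg N h ψ → cg N g ψ n₀ ≠ cg N h ψ n₀ := by
    have key : ∀ g : G, ∃ i < m, c i = cg N g ψ := by
      intro g
      refine char_of_mod ρ hF (good ρ N) ?_ (v := ρ g v₀) ?_ ?_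
      · intro n v hv
        exact rho_mem_good ρ hv n
      · intro h
        apply hv₀g
        have h1 : ρ g⁻¹ (ρ g v₀) = v₀ := rho_inv_apply' ρ g v₀
        rw [← h1]
        exact rho_mem_good ρ h g⁻¹
      · intro n
        rw [rho_comm, cg_apply, ← map_smul, ← map_sub]
        exact rho_mem_good ρ (hv₀ _) g
    intro g h hne
    obtain ⟨a, ha, hca⟩ := key g
    obtain ⟨b, hb, hcb⟩ := key h
    rw [← hca, ← hcb] at hne ⊢
    exact hn₀ a ha b hb hne
  have hgood_inv : ∀ g, ∀ x ∈ good ρ N, ρ g x ∈ good ρ N := fun g x hx => rho_mem_good ρ hx g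
  obtain ⟨hfiχ, hiχ⟩ := index_stab_le (subRep ρ (good ρ N) hgood_inv) χ
    (x₀ := ⟨x₀, wt_le_good ρ χ hx₀w⟩) (fun h => hx₀ne (congrArg Subtype.val h))
    (fun n => Subtype.ext (hx₀' n)) hsepχ
  obtain ⟨hfiψ, hiψ⟩ := index_stab_le (quotRep ρ (good ρ N) hgood_inv) ψ
    (x₀ := Submodule.Quotient.mk v₀)
    (fun h => hv₀g ((Submodule.Quotient.mk_eq_zero _).1 h))
    (fun n => by
      rw [quotRep_mk, ← Submodule.Quotient.mk_smul, Submodule.Quotient.eq]
      exact hv₀ n) hsepψ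
  have hdim := Submodule.finrank_quotient_add_finrank (good ρ N)
  set G₁ := stab N χ ⊓ stab N ψ with hG₁
  have hfi : G₁.FiniteIndex := inferInstance
  have hindex : 4 * G₁.index ≤ finrank k V ^ 2 := by
    have h1 : G₁.index ≤ (stab N χ).index * (stab N ψ).index := Subgroup.index_inf_le
    have h2 : (stab N χ).index * (stab N ψ).index ≤
        finrank k (good ρ N) * finrank k (V ⧸ good ρ N) := Nat.mul_le_mul hiχ hiψ
    rw [← hdim]
    nlinarith [sq_nonneg ((finrank k (good ρ N) : ℤ) - finrank k (V ⧸ good ρ N)),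
      four_mul_le_sq_add (finrank k (good ρ N)) (finrank k (V ⧸ good ρ N))]
  have hNG₁ : ∀ n : N, (n : G) ∈ G₁ := fun n => ⟨le_stab N χ n.2, le_stab N ψ n.2⟩
  have hNle : N ≤ G₁ := fun n hn => hNG₁ ⟨n, hn⟩
  -- the representation on the quotient
  let R : G₁ →* Module.End k (Module.End k V) := (cj ρ).comp G₁.subtype
  have hLU₁ : ∀ g : G₁, ∀ x ∈ LU ρ ψ U₁, R g x ∈ LU ρ ψ U₁ := fun g x hx =>
    cj_mem_LU ρ hx g.2.2 (hU₁inv g g.2)
  have hLU₀ : ∀ g : G₁, ∀ x ∈ LU ρ ψ U₀, R g x ∈ LU ρ ψ U₀ := fun g x hx =>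
    cj_mem_LU ρ hx g.2.2 (hU₀inv g g.2)
  let L1 := LU ρ ψ U₁
  let L0 : Submodule k L1 := (LU ρ ψ U₀).submoduleOf L1
  let R1 : G₁ →* Module.End k L1 := subRep R L1 hLU₁
  have hR1 : ∀ g : G₁, ∀ x ∈ L0, R1 g x ∈ L0 := fun g x hx => hLU₀ g x hx
  let A : G₁ →* Module.End k (L1 ⧸ L0) := quotRep R1 L0 hR1
  let b : G₁ → L1 ⧸ L0 := fun g => Submodule.Quotient.mk ⟨R g τ₁ - τ₁, hτ₁g g g.2⟩
  have hb : Cocycle A b := by
    intro g h
    change (Submodule.Quotient.mk _ : L1 ⧸ L0) = Submodule.Quotient.mk _ +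
      Submodule.Quotient.mk _
    rw [← Submodule.Quotient.mk_add]
    congr 1
    apply Subtype.ext
    change R (g * h) τ₁ - τ₁ = R g (R h τ₁ - τ₁) + (R g τ₁ - τ₁)
    rw [map_mul, Module.End.mul_apply, map_sub]
    abel
  let N' : Subgroup G₁ := N.subgroupOf G₁
  have hN'n : N'.Normal := inferInstance
  have hN'f : N'.FiniteIndex := inferInstance
  let toN : N' → N := fun n => ⟨n.1.1, n.2⟩
  let η : N' → k := fun n => ψ (toN n)⁻¹ * χ (toN n)
  have hη : ∀ n : N', ∀ x, A n x = η n • x := by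
    intro n x
    obtain ⟨x, rfl⟩ := Submodule.Quotient.mk_surjective L0 x
    change (Submodule.Quotient.mk (R1 n x) : L1 ⧸ L0) = η n • Submodule.Quotient.mk x
    rw [← Submodule.Quotient.mk_smul, Submodule.Quotient.eq]
    refine ⟨?_, ?_⟩
    · intro y hy
      change cj ρ (toN n) (x : Module.End k V) y - η n • (x : Module.End k V) y = 0
      rw [cj_N_apply ρ x.2 (toN n) (good_le_Pm ρ ψ hy), x.2.1 y hy, map_zero, smul_zero, smul_zero,
        sub_self]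
    · intro y hy
      change cj ρ (toN n) (x : Module.End k V) y - η n • (x : Module.End k V) y ∈ U₀
      rw [cj_N_apply ρ x.2 (toN n) hy]
      have e : ψ (toN n)⁻¹ • ρ (toN n) ((x : Module.End k V) y) -
          η n • (x : Module.End k V) y = ψ (toN n)⁻¹ • (ρ (toN n) ((x : Module.End k V) y) -
            χ (toN n) • (x : Module.End k V) y) := by
        rw [smul_sub, smul_smul]
      rw [e]
      exact U₀.smul_mem _ (hscal _ _ (x.2.2 y hy))
  have hnt : Nontrivial (L1 ⧸ L0) := by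
    obtain ⟨w, hw, hwU⟩ := Set.not_subset.1 hU₁nle
    obtain ⟨f, hf1, hf2⟩ := Submodule.exists_le_ker_of_notMem hv₀g
    let x : Module.End k V := f.smulRight w
    have hx : x ∈ L1 := by
      refine ⟨fun y hy => ?_, fun y _ => U₁.smul_mem _ hw⟩
      have : f y = 0 := hf2 hy
      change f y • w = 0
      rw [this, zero_smul]
    refine ⟨⟨Submodule.Quotient.mk ⟨x, hx⟩, 0, ?_⟩⟩
    intro h
    have h1 : (⟨x, hx⟩ : L1) ∈ L0 := (Submodule.Quotient.mk_eq_zero L0).1 h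
    have h2 : x ∈ LU ρ ψ U₀ := h1
    have h3 : f v₀ • w ∈ U₀ := h2.2 v₀ hv₀P
    exact hwU ((U₀.smul_mem_iff hf1).1 h3)
  refine ⟨{ G₁ := G₁, fi := hfi, index_le := hindex, N := N', nN := hN'n, fN := hN'f
            L := L1 ⧸ L0, iL := inferInstance, mL := inferInstance, fL := inferInstance, nL := hnt
            A := A, b := b, hb := hb, η := η, hη := hη, nofix := ?_, nontors := ?_
            E := N.index, hE := Nat.pos_of_ne_zero hNf.index_ne_zero, ratio := ?_ }⟩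
  · intro x
    obtain ⟨x, rfl⟩ := Submodule.Quotient.mk_surjective L0 x
    obtain ⟨n, hn⟩ := hfin x x.2
    refine ⟨⟨⟨n, hNG₁ n⟩, n.2⟩, ?_⟩
    intro h
    apply hn
    have h1 : (Submodule.Quotient.mk (R1 ⟨n, hNG₁ n⟩ x) : L1 ⧸ L0) +
        Submodule.Quotient.mk ⟨R ⟨n, hNG₁ n⟩ τ₁ - τ₁, hτ₁g n (hNG₁ n)⟩ =
          Submodule.Quotient.mk x := h
    rw [← Submodule.Quotient.mk_add, Submodule.Quotient.eq] at h1
    have h2 : cj ρ n (x : Module.End k V) + (cj ρ n τ₁ - τ₁) - x ∈ LU ρ ψ U₀ := h1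
    have e : cj ρ n (τ₁ + x) - (τ₁ + x) = cj ρ n (x : Module.End k V) + (cj ρ n τ₁ - τ₁) - x := by
      rw [map_add]; abel
    rw [e]
    exact h2
  · intro M hM
    obtain ⟨n, hn⟩ := hF.2.2.2.2 i hi j hj (by rw [hci]; exact hχψ) M hM
    rw [hci, ← hψ] at hn
    refine ⟨⟨⟨n, hNG₁ n⟩, n.2⟩, ?_⟩
    intro h
    have h1 : (ψ n⁻¹ * χ n) ^ M = 1 := h
    apply hn
    have h2 : ψ n⁻¹ * ψ n = 1 := by rw [← map_mul, inv_mul_cancel, map_one]
    calc χ n ^ M = (ψ n⁻¹ * ψ n) ^ M * χ n ^ M := by rw [h2, one_pow, one_mul]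
      _ = (ψ n⁻¹ * χ n) ^ M * ψ n ^ M := by ring
      _ = ψ n ^ M := by rw [h1, one_mul]
  · intro g
    have hgE : (g : G) ^ N.index ∈ N := Subgroup.pow_index_mem N (g : G)
    obtain ⟨x, hxe, w, hw, hw0, hwx⟩ := exists_eigen_between (ρ g) ⊥ (wt ρ N χ)
      (fun y hy => by rw [(Submodule.mem_bot k).1 hy, map_zero]; exact Submodule.zero_mem _)
      (fun y hy => rho_mem_wt_of_stab ρ hy g.2.1) hχne
    obtain ⟨y, hye, u, hu, hug, huy⟩ := exists_eigen_between (ρ g) (good ρ N) (Pm ρ ψ)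
      (fun y hy => rho_mem_good ρ hy _)
      (fun y hy => rho_mem_Pm_of_stab ρ hy g.2.2) (fun h => hv₀g (h hv₀P))
    have h1 : x ^ N.index = χ ⟨(g : G) ^ N.index, hgE⟩ := by
      refine eq_of_gen_eigen ⊥ ?_ hw0 ((mem_wt ρ).1 hw ⟨(g : G) ^ N.index, hgE⟩) ?_
      · intro y hy; rw [(Submodule.mem_bot k).1 hy, map_zero]; exact Submodule.zero_mem _
      · have := pow_sub_mem (f := ρ g) ⊥ (fun y hy => by
          rw [(Submodule.mem_bot k).1 hy, map_zero]; exact Submodule.zero_mem _) hwx N.index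
        rw [← map_pow] at this
        exact this
    have h2 : y ^ N.index = ψ ⟨(g : G) ^ N.index, hgE⟩ := by
      have h3 := pow_sub_mem (f := ρ g) (good ρ N) (fun y hy => rho_mem_good ρ hy _) huy N.index
      rw [← map_pow] at h3
      have h4 := hu ⟨(g : G) ^ N.index, hgE⟩
      have h5 := (good ρ N).sub_mem h4 h3
      have e : (ρ ((⟨(g : G) ^ N.index, hgE⟩ : N) : G) u - ψ ⟨(g : G) ^ N.index, hgE⟩ • u) -
          (ρ ((g : G) ^ N.index) u - y ^ N.index • u) =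
          (y ^ N.index - ψ ⟨(g : G) ^ N.index, hgE⟩) • u := by
        rw [sub_smul]; abel
      rw [e] at h5
      by_contra hne
      exact hug (((good ρ N).smul_mem_iff (sub_ne_zero.2 hne)).1 h5)
    refine ⟨x, y, hxe, hye, ?_, ?_⟩
    · exact hgE
    · change ψ (⟨(g : G) ^ N.index, hgE⟩ : N)⁻¹ * χ ⟨(g : G) ^ N.index, hgE⟩ = _
      rw [div_pow, h1, h2, div_eq_mul_inv, mul_comm]
      congr 1
      have h3 : ψ (⟨(g : G) ^ N.index, hgE⟩ : N)⁻¹ * ψ ⟨(g : G) ^ N.index, hgE⟩ = 1 := by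
        rw [← map_mul, inv_mul_cancel, map_one]
      exact eq_inv_of_mul_eq_one_left h3

end Pool.Agent.Helper5.TL
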