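import Pool.Agent.Helper5.TL.BlockRed
import Pool.Agent.Helper5.TL.Build

/-!
# Affine data with a non-integral ratio
-/

namespace Pool.Agent.Helper5.TL

open Module

universe u v

variable {k : Type u} {G : Type*} {V : Type v} [Field k] [Group G] [AddCommGroup V] [Module k V]

/-- The result of the algebraic part, second version. -/
structure AffDataQ (ρ : G →* Module.End k V) where
  G₁ : Subgroup G
  fi : G₁.FiniteIndex
  index_le : 4 * G₁.index ≤ finrank k V ^ 2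
  N : Subgroup G₁
  nN : N.Normal
  fN : N.FiniteIndex
  L : Type v
  iL : AddCommGroup L
  mL : Module k L
  fL : FiniteDimensional k L
  nL : Nontrivial L
  A : G₁ →* Module.End k L
  b : G₁ → L
  hb : Cocycle A b
  η : N → k
  hη : ∀ n : N, ∀ x, A n x = η n • x
  nofix : ∀ x : L, ∃ n : N, aff A b n x ≠ x
  nonint : ∃ n : N, ¬ IsIntegral ℤ (η n)

variable (ρ : G →* Module.End k V) {N : Subgroup G} [N.Normal]

theorem index_stab_le' {W : Type*} [AddCommGroup W] [Module k W] [FiniteDimensional k W]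
    (f : Module.End k W) (χ : N →* k) {n₀ : N}
    (hev : ∀ g : G, f.HasEigenvalue (cg N g χ n₀))
    (hsep : ∀ g h : G, cg N g χ ≠ cg N h χ → cg N g χ n₀ ≠ cg N h χ n₀) :
    (stab N χ).FiniteIndex ∧ (stab N χ).index ≤ finrank k W := by
  classical
  choose xs hxs using fun g => (hev g).exists_hasEigenvector
  let μ : G ⧸ stab N χ → k := fun q => cg N (Quotient.out q) χ n₀
  have hμ : Function.Injective μ := by
    intro q q' h
    have h1 : cg N (Quotient.out q) χ = cg N (Quotient.out q') χ := by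
      by_contra h2
      exact hsep _ _ h2 h
    have h2 := stab_of_cg_eq N h1
    rw [← QuotientGroup.eq] at h2
    rw [← QuotientGroup.out_eq' q, ← QuotientGroup.out_eq' q']
    exact h2
  have hli := Module.End.eigenvectors_linearIndependent' f μ hμ
    (fun q => xs (Quotient.out q)) (fun q => hxs (Quotient.out q))
  have hfin : Finite (G ⧸ stab N χ) := hli.finite
  have := Fintype.ofFinite (G ⧸ stab N χ)
  refine ⟨Subgroup.finiteIndex_of_finite_quotient, ?_⟩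
  have h1 := hli.fintype_card_le_finrank
  rwa [Subgroup.index, Nat.card_eq_fintype_card]

theorem exists_affDataQ [FiniteDimensional k V] [hNf : N.FiniteIndex]
    {m : ℕ} {F : ℕ → Submodule k V} {c : ℕ → N →* k} (hF : FlagC2 ρ N m F c) {n₀ : N}
    (hn₀ : ∀ i < m, ∀ j < m, c i ≠ c j → c i n₀ ≠ c j n₀) (hgood : gd ρ N ≠ ⊤) :
    Nonempty (AffDataQ ρ) := by
  classical
  obtain ⟨j, hj, v₀, -, hv₀g, hv₀⟩ := exists_eigen_mod ρ hF (gd ρ N) ⊤
    (fun _ _ _ => Submodule.mem_top) (fun h => hgood (top_le_iff.1 h))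
  set ψ : N →* k := c j with hψ
  have hv₀P : v₀ ∈ PQ ρ ψ := hv₀
  obtain ⟨q, hqψ, hno⟩ := exists_no_fixedQ ρ hF ψ hv₀P hv₀g
  obtain ⟨τ₀, hτ₀⟩ := exists_isR ρ hF q ψ
  obtain ⟨χ, U₁, U₀, τ₁, hclχ, hU₀₁, hU₁nle, hU₁inv, hU₀inv, hscal, hτ₁g, hfin, U, v, hUN, hvg,
    hvU, hv⟩ := exists_reductionQ ρ hF hn₀ hqψ hτ₀ hno
  have hnrel : ¬ URel χ ψ := fun h => hqψ (by rw [← hclχ]; exact cl_eq.2 h)
  -- index bounds
  have hmapinv : ∀ g : G, NInv ρ N (U.map (ρ g)) := by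
    rintro g n _ ⟨w, hw, rfl⟩
    rw [rho_comm]
    exact ⟨_, hUN _ _ hw, rfl⟩
  have hnmem : ∀ g : G, ρ g v ∉ U.map (ρ g) := by
    rintro g ⟨w, hw, hwe⟩
    have h1 : ρ g⁻¹ (ρ g w) = w := rho_inv_apply' ρ g w
    rw [hwe, rho_inv_apply'] at h1
    exact hvU (by rw [h1]; exact hw)
  have heig : ∀ g : G, ∀ n : N, ρ n (ρ g v) - cg N g χ n • ρ g v ∈ U.map (ρ g) := by
    intro g n
    rw [rho_comm, cg_apply, ← map_smul, ← map_sub]
    exact ⟨_, hv _, rfl⟩
  have hsepχ : ∀ g h : G, cg N g χ ≠ cg N h χ → cg N g χ n₀ ≠ cg N h χ n₀ := by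
    have key : ∀ g : G, ∃ i < m, c i = cg N g χ := fun g =>
      char_of_mod ρ hF (U.map (ρ g)) (hmapinv g) (hnmem g) (heig g)
    intro g h hne
    obtain ⟨a, ha, hca⟩ := key g
    obtain ⟨b, hb, hcb⟩ := key h
    rw [← hca, ← hcb] at hne ⊢
    exact hn₀ a ha b hb hne
  have hsepψ : ∀ g h : G, cg N g ψ ≠ cg N h ψ → cg N g ψ n₀ ≠ cg N h ψ n₀ := by
    have key : ∀ g : G, ∃ i < m, c i = cg N g ψ := by
      intro g
      refine char_of_mod ρ hF (gd ρ N) (gd_inv ρ) (v := ρ g v₀) ?_ ?_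
      · intro h
        apply hv₀g
        have h1 : ρ g⁻¹ (ρ g v₀) = v₀ := rho_inv_apply' ρ g v₀
        rw [← h1]
        exact rho_mem_gd ρ h g⁻¹
      · intro n
        rw [rho_comm, cg_apply, ← map_smul, ← map_sub]
        exact rho_mem_gd ρ (hv₀ _) g
    intro g h hne
    obtain ⟨a, ha, hca⟩ := key g
    obtain ⟨b, hb, hcb⟩ := key h
    rw [← hca, ← hcb] at hne ⊢
    exact hn₀ a ha b hb hne
  have hgd_inv : ∀ g, ∀ x ∈ gd ρ N, ρ g x ∈ gd ρ N := fun g x hx => rho_mem_gd ρ hx g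
  obtain ⟨hfiχ, hiχ⟩ := index_stab_le' (subRep ρ (gd ρ N) hgd_inv n₀) χ (n₀ := n₀)
    (by
      intro g
      refine hasEigenvalue_of_section (U := (U.map (ρ g)).submoduleOf (gd ρ N))
        (w := ⟨ρ g v, hgd_inv g v hvg⟩) ?_ (hnmem g) (heig g n₀)
      intro x hx
      exact hmapinv g n₀ x hx) hsepχ
  obtain ⟨hfiψ, hiψ⟩ := index_stab_le (quotRep ρ (gd ρ N) hgd_inv) ψ
    (x₀ := Submodule.Quotient.mk v₀)
    (fun h => hv₀g ((Submodule.Quotient.mk_eq_zero _).1 h))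
    (fun n => by
      rw [quotRep_mk, ← Submodule.Quotient.mk_smul, Submodule.Quotient.eq]
      exact hv₀ n) hsepψ
  have hdim := Submodule.finrank_quotient_add_finrank (gd ρ N)
  set G₁ := stab N χ ⊓ stab N ψ with hG₁
  have hfi : G₁.FiniteIndex := inferInstance
  have hindex : 4 * G₁.index ≤ finrank k V ^ 2 := by
    have h1 : G₁.index ≤ (stab N χ).index * (stab N ψ).index := Subgroup.index_inf_le
    have h2 : (stab N χ).index * (stab N ψ).index ≤
        finrank k (gd ρ N) * finrank k (V ⧸ gd ρ N) := Nat.mul_le_mul hiχ hiψ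
    rw [← hdim]
    nlinarith [sq_nonneg ((finrank k (gd ρ N) : ℤ) - finrank k (V ⧸ gd ρ N)),
      four_mul_le_sq_add (finrank k (gd ρ N)) (finrank k (V ⧸ gd ρ N))]
  have hNG₁ : ∀ n : N, (n : G) ∈ G₁ := fun n => ⟨le_stab N χ n.2, le_stab N ψ n.2⟩
  -- the representation on the quotient
  let R : G₁ →* Module.End k (Module.End k V) := (cj ρ).comp G₁.subtype
  have hLU₁ : ∀ g : G₁, ∀ x ∈ LQ ρ ψ U₁, R g x ∈ LQ ρ ψ U₁ := fun g x hx =>
    cj_mem_LQ ρ hx g.2.2 (hU₁inv g g.2)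
  have hLU₀ : ∀ g : G₁, ∀ x ∈ LQ ρ ψ U₀, R g x ∈ LQ ρ ψ U₀ := fun g x hx =>
    cj_mem_LQ ρ hx g.2.2 (hU₀inv g g.2)
  let L1 := LQ ρ ψ U₁
  let L0 : Submodule k L1 := (LQ ρ ψ U₀).submoduleOf L1
  let R1 : G₁ →* Module.End k L1 := subRep R L1 hLU₁
  have hR1 : ∀ g : G₁, ∀ x ∈ L0, R1 g x ∈ L0 := fun g x hx => hLU₀ g x hx
  let A : G₁ →* Module.End k (L1 ⧸ L0) := quotRep R1 L0 hR1
  let b : G₁ → L1 ⧸ L0 := fun g => Submodule.Quotient.mk ⟨R g τ₁ - τ₁, hτ₁g g g.2⟩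
  have hb : Cocycle A b := by
    intro g h
    change (Submodule.Quotient.mk _ : L1 ⧸ L0) = Submodule.Quotient.mk _ +
      Submodule.Quotient.mk _
    rw [← Submodule.Quotient.mk_add]
    congr 1
    apply Subtype.ext
    change R (g * h) τ₁ - τ₁ = R g (R h τ₁ - τ₁) + (R g τ₁ - τ₁)
    rw [map_mul, Module.End.mul_apply, map_sub]
    abel
  let N' : Subgroup G₁ := N.subgroupOf G₁
  have hN'n : N'.Normal := inferInstance
  have hN'f : N'.FiniteIndex := inferInstance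
  let toN : N' → N := fun n => ⟨n.1.1, n.2⟩
  let η : N' → k := fun n => ψ (toN n)⁻¹ * χ (toN n)
  have hη : ∀ n : N', ∀ x, A n x = η n • x := by
    intro n x
    obtain ⟨x, rfl⟩ := Submodule.Quotient.mk_surjective L0 x
    change (Submodule.Quotient.mk (R1 n x) : L1 ⧸ L0) = η n • Submodule.Quotient.mk x
    rw [← Submodule.Quotient.mk_smul, Submodule.Quotient.eq]
    refine ⟨?_, ?_⟩
    · intro y hy
      change cj ρ (toN n) (x : Module.End k V) y - η n • (x : Module.End k V) y = 0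
      rw [cj_N_apply' ρ x.2 (toN n) (gd_le_PQ ρ ψ hy), x.2.1 y hy, map_zero, smul_zero, smul_zero,
        sub_self]
    · intro y hy
      change cj ρ (toN n) (x : Module.End k V) y - η n • (x : Module.End k V) y ∈ U₀
      rw [cj_N_apply' ρ x.2 (toN n) hy]
      have e : ψ (toN n)⁻¹ • ρ (toN n) ((x : Module.End k V) y) -
          η n • (x : Module.End k V) y = ψ (toN n)⁻¹ • (ρ (toN n) ((x : Module.End k V) y) -
            χ (toN n) • (x : Module.End k V) y) := by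
        rw [smul_sub, smul_smul]
      rw [e]
      exact U₀.smul_mem _ (hscal _ _ (x.2.2 y hy))
  have hnt : Nontrivial (L1 ⧸ L0) := by
    obtain ⟨w, hw, hwU⟩ := Set.not_subset.1 hU₁nle
    obtain ⟨f, hf1, hf2⟩ := Submodule.exists_le_ker_of_notMem hv₀g
    let x : Module.End k V := f.smulRight w
    have hx : x ∈ L1 := by
      refine ⟨fun y hy => ?_, fun y _ => U₁.smul_mem _ hw⟩
      have : f y = 0 := hf2 hy
      change f y • w = 0
      rw [this, zero_smul]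
    refine ⟨⟨Submodule.Quotient.mk ⟨x, hx⟩, 0, ?_⟩⟩
    intro h
    have h1 : (⟨x, hx⟩ : L1) ∈ L0 := (Submodule.Quotient.mk_eq_zero L0).1 h
    have h2 : x ∈ LQ ρ ψ U₀ := h1
    have h3 : f v₀ • w ∈ U₀ := h2.2 v₀ hv₀P
    exact hwU ((U₀.smul_mem_iff hf1).1 h3)
  refine ⟨{ G₁ := G₁, fi := hfi, index_le := hindex, N := N', nN := hN'n, fN := hN'f
            L := L1 ⧸ L0, iL := inferInstance, mL := inferInstance, fL := inferInstance, nL := hnt
            A := A, b := b, hb := hb, η := η, hη := hη, nofix := ?_, nonint := ?_ }⟩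
  · intro x
    obtain ⟨x, rfl⟩ := Submodule.Quotient.mk_surjective L0 x
    obtain ⟨n, hn⟩ := hfin x x.2
    refine ⟨⟨⟨n, hNG₁ n⟩, n.2⟩, ?_⟩
    intro h
    apply hn
    have h1 : (Submodule.Quotient.mk (R1 ⟨n, hNG₁ n⟩ x) : L1 ⧸ L0) +
        Submodule.Quotient.mk ⟨R ⟨n, hNG₁ n⟩ τ₁ - τ₁, hτ₁g n (hNG₁ n)⟩ =
          Submodule.Quotient.mk x := h
    rw [← Submodule.Quotient.mk_add, Submodule.Quotient.eq] at h1
    have h2 : cj ρ n (x : Module.End k V) + (cj ρ n τ₁ - τ₁) - x ∈ LQ ρ ψ U₀ := h1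
    have e : cj ρ n (τ₁ + x) - (τ₁ + x) = cj ρ n (x : Module.End k V) + (cj ρ n τ₁ - τ₁) - x := by
      rw [map_add]; abel
    rw [e]
    exact h2
  · unfold URel at hnrel
    push Not at hnrel
    obtain ⟨n, hn⟩ := hnrel
    refine ⟨⟨⟨n, hNG₁ n⟩, n.2⟩, ?_⟩
    intro h
    apply hn
    have h1 : IsIntegral ℤ (ψ n⁻¹ * χ n) := h
    rwa [mul_comm] at h1

end Pool.Agent.Helper5.TL
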