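import Pool.Agent.Helper5.TL.Weights

/-!
# Subspaces with prescribed occurring characters
-/

namespace Pool.Agent.Helper5.TL

open Module

universe u v

variable {k : Type u} {G : Type*} {V : Type v} [Field k] [Group G] [AddCommGroup V] [Module k V]
  (ρ : G →* Module.End k V) {N : Subgroup G}

/-- `U` is invariant under `N`. -/
def NInv (N : Subgroup G) (U : Submodule k V) : Prop := ∀ n : N, ∀ v ∈ U, ρ n v ∈ U

theorem NInv.bot : NInv ρ N (⊥ : Submodule k V) := by
  intro n v hv
  rw [(Submodule.mem_bot k).1 hv, map_zero]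
  exact Submodule.zero_mem _

theorem NInv.top : NInv ρ N (⊤ : Submodule k V) := fun _ _ _ => Submodule.mem_top

theorem NInv.sup {U U' : Submodule k V} (h : NInv ρ N U) (h' : NInv ρ N U') :
    NInv ρ N (U ⊔ U') := by
  intro n v hv
  obtain ⟨a, ha, b, hb, rfl⟩ := Submodule.mem_sup.1 hv
  rw [map_add]
  exact Submodule.add_mem_sup (h n a ha) (h' n b hb)

theorem NInv.inf {U U' : Submodule k V} (h : NInv ρ N U) (h' : NInv ρ N U') :
    NInv ρ N (U ⊓ U') := fun n v hv => ⟨h n v hv.1, h' n v hv.2⟩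

theorem NInv.iSup {ι : Sort*} {U : ι → Submodule k V} (h : ∀ i, NInv ρ N (U i)) :
    NInv ρ N (⨆ i, U i) := by
  intro n v hv
  have : (⨆ i, U i) ≤ (⨆ i, U i).comap (ρ n) := by
    rw [iSup_le_iff]
    intro i v hv
    exact Submodule.mem_iSup_of_mem i (h i n v hv)
  exact this hv

/-- All characters occurring in the invariant subspace `W` satisfy `P`. -/
def Cls (P : (N →* k) → Prop) (W : Submodule k V) : Prop :=
  NInv ρ N W ∧ ∀ U : Submodule k V, NInv ρ N U → ∀ v ∈ W, v ∉ U → ∀ φ : N →* k,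
    (∀ n : N, ρ n v - φ n • v ∈ U) → P φ

theorem Cls.bot (P : (N →* k) → Prop) : Cls ρ P (⊥ : Submodule k V) :=
  ⟨NInv.bot ρ, fun U _ v hv hvU => absurd (by
    rw [(Submodule.mem_bot k).1 hv]; exact U.zero_mem) hvU⟩

variable {ρ}

theorem Cls.mono {P Q : (N →* k) → Prop} {W : Submodule k V} (h : Cls ρ P W)
    (hPQ : ∀ φ, P φ → Q φ) : Cls ρ Q W :=
  ⟨h.1, fun U hU v hv hvU φ hφ => hPQ φ (h.2 U hU v hv hvU φ hφ)⟩

theorem Cls.sub {P : (N →* k) → Prop} {W W' : Submodule k V} (h : Cls ρ P W) (hle : W' ≤ W)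
    (hW' : NInv ρ N W') : Cls ρ P W' :=
  ⟨hW', fun U hU v hv hvU φ hφ => h.2 U hU v (hle hv) hvU φ hφ⟩

theorem Cls.sup {P : (N →* k) → Prop} {W W' : Submodule k V} (h : Cls ρ P W)
    (h' : Cls ρ P W') : Cls ρ P (W ⊔ W') := by
  refine ⟨h.1.sup ρ h'.1, ?_⟩
  intro U hU v hv hvU φ hφ
  obtain ⟨a, ha, b, hb, rfl⟩ := Submodule.mem_sup.1 hv
  by_cases hb' : b ∈ U ⊔ W
  · -- then `a + b` is congruent to an element of `W` modulo `U`
    obtain ⟨u, hu, w, hw, hub⟩ := Submodule.mem_sup.1 hb'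
    refine h.2 U hU (a + w) (W.add_mem ha hw) ?_ φ ?_
    · intro hmem
      apply hvU
      have e : a + b = u + (a + w) := by rw [← hub]; abel
      rw [e]
      exact U.add_mem hu hmem
    · intro n
      have e : ρ n (a + w) - φ n • (a + w) =
          (ρ n (a + b) - φ n • (a + b)) - (ρ n u - φ n • u) := by
        rw [← hub]
        simp only [map_add, smul_add]
        abel
      rw [e]
      exact U.sub_mem (hφ n) (U.sub_mem (hU n u hu) (U.smul_mem _ hu))
  · refine h'.2 (U ⊔ W) (hU.sup ρ h.1) b hb hb' φ ?_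
    intro n
    have e : ρ n b - φ n • b = (ρ n (a + b) - φ n • (a + b)) - (ρ n a - φ n • a) := by
      simp only [map_add, smul_add]
      abel
    rw [e]
    exact Submodule.sub_mem _ (Submodule.mem_sup_left (hφ n))
      (Submodule.mem_sup_right (W.sub_mem (h.1 n a ha) (W.smul_mem _ ha)))

variable (ρ)

/-- The largest subspace all of whose characters satisfy `P`. -/
def VP (P : (N →* k) → Prop) : Submodule k V := sSup {W | Cls ρ P W}

theorem le_VP {P : (N →* k) → Prop} {W : Submodule k V} (h : Cls ρ P W) : W ≤ VP ρ P :=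
  le_sSup h

theorem cls_VP [FiniteDimensional k V] (P : (N →* k) → Prop) : Cls ρ P (VP ρ P) := by
  obtain ⟨W, hW, hmax⟩ := (wellFounded_gt : WellFounded
    ((· > ·) : Submodule k V → Submodule k V → Prop)).has_min {W | Cls ρ P W} ⟨⊥, Cls.bot ρ P⟩
  have h1 : VP ρ P = W := by
    apply le_antisymm
    · apply sSup_le
      intro W' hW'
      have h2 := hmax (W ⊔ W') (Cls.sup hW hW')
      by_contra hnle
      exact h2 (lt_of_le_not_ge le_sup_left (fun h => hnle (le_sup_right.trans h)))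
    · exact le_VP ρ hW
  rw [h1]
  exact hW

theorem VP_mono [FiniteDimensional k V] {P Q : (N →* k) → Prop} (h : ∀ φ, P φ → Q φ) :
    VP ρ P ≤ VP ρ Q := le_VP ρ ((cls_VP ρ P).mono h)

theorem rho_mem_VP [N.Normal] [FiniteDimensional k V] {P : (N →* k) → Prop} {v : V}
    (hv : v ∈ VP ρ P) (g : G) : ρ g v ∈ VP ρ (fun φ => P (cg N g⁻¹ φ)) := by
  have key : Cls ρ (fun φ => P (cg N g⁻¹ φ)) ((VP ρ P).map (ρ g)) := by
    have h0 := cls_VP ρ P
    refine ⟨?_, ?_⟩
    · rintro n _ ⟨w, hw, rfl⟩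
      rw [rho_comm]
      exact ⟨_, h0.1 _ _ hw, rfl⟩
    · rintro U hU _ ⟨w, hw, rfl⟩ hwU φ hφ
      refine h0.2 (U.comap (ρ g)) ?_ w hw hwU (cg N g⁻¹ φ) ?_
      · intro n x hx
        rw [Submodule.mem_comap] at hx ⊢
        have h1 := rho_comm ρ N g (MulAut.conjNormal g n) x
        rw [← MulAut.mul_apply, ← map_mul, inv_mul_cancel, map_one, MulAut.one_apply] at h1
        rw [← h1]
        exact hU _ _ hx
      · intro n
        rw [Submodule.mem_comap, map_sub, map_smul, cg_apply, inv_inv]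
        have h1 := rho_comm ρ N g (MulAut.conjNormal g n) w
        rw [← MulAut.mul_apply, ← map_mul, inv_mul_cancel, map_one, MulAut.one_apply] at h1
        rw [← h1]
        exact hφ _
  exact le_VP ρ key ⟨v, hv, rfl⟩

section flag

variable {m : ℕ} {F : ℕ → Submodule k V} {c : ℕ → N →* k}

theorem VP_disjoint [FiniteDimensional k V] (hF : FlagC2 ρ N m F c) {P Q : (N →* k) → Prop}
    (h : ∀ φ, P φ → ¬ Q φ) : Disjoint (VP ρ P) (VP ρ Q) := by
  rw [disjoint_iff]
  by_contra hne
  obtain ⟨i, -, v, hv, hv0, he⟩ := exists_eigen_mod ρ hF ⊥ (VP ρ P ⊓ VP ρ Q)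
    ((cls_VP ρ P).1.inf ρ (cls_VP ρ Q).1) (fun hle => hne (le_bot_iff.1 hle))
  exact h _ ((cls_VP ρ P).2 ⊥ (NInv.bot ρ) v hv.1 hv0 _ he)
    ((cls_VP ρ Q).2 ⊥ (NInv.bot ρ) v hv.2 hv0 _ he)

end flag

/-- An eigenvalue on a section is an eigenvalue. -/
theorem hasEigenvalue_of_section [FiniteDimensional k V] {f : Module.End k V} {U : Submodule k V}
    (hU : ∀ x ∈ U, f x ∈ U) {w : V} (hw : w ∉ U) {y : k} (h : f w - y • w ∈ U) :
    f.HasEigenvalue y := by
  by_contra hnot
  have hinj : Function.Injective (f - y • (1 : Module.End k V)) := by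
    rw [injective_iff_map_eq_zero]
    intro x hx
    by_contra hx0
    apply hnot
    apply Module.End.hasEigenvalue_of_hasEigenvector (x := x)
    rw [Module.End.hasEigenvector_iff, Module.End.mem_eigenspace_iff]
    refine ⟨?_, hx0⟩
    rw [LinearMap.sub_apply, LinearMap.smul_apply, Module.End.one_apply, sub_eq_zero] at hx
    exact hx
  have hUinv : ∀ x ∈ U, (f - y • (1 : Module.End k V)) x ∈ U := by
    intro x hx
    rw [LinearMap.sub_apply, LinearMap.smul_apply, Module.End.one_apply]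
    exact U.sub_mem (hU x hx) (U.smul_mem _ hx)
  let g : Module.End k U := (f - y • (1 : Module.End k V)).restrict hUinv
  have hginj : Function.Injective g := by
    intro a b hab
    have := congrArg (fun z : U => (z : V)) hab
    exact Subtype.ext (hinj this)
  obtain ⟨u, hu⟩ := (LinearMap.injective_iff_surjective (f := g)).1 hginj ⟨_, h⟩
  have h6 := congrArg (fun z : U => (z : V)) hu
  have h7 : (f - y • (1 : Module.End k V)) u = (f - y • (1 : Module.End k V)) w := h6
  exact hw (by rw [← hinj h7]; exact u.2)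

end Pool.Agent.Helper5.TL
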