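import Pool.Agent.Helper5.TL.PingPong

/-!
# Ping-pong for affine actions, archimedean case
-/

namespace Pool.Agent.Helper5.TL

open Module NNReal

variable {k L G : Type*} [Field k] [AddCommGroup L] [Module k L] [Group G]

theorem arch_free_lt {V : k →*₀ ℝ≥0} {A : G →* Module.End k L} {N : Subgroup G} {η : N → k}
    (σ : SimNorm (fun a b => a + b) V A N η) {b : G → L} (hb : Cocycle A b) (z y : G) (p : L)
    (hp : aff A b z p = p) (hy : aff A b y p ≠ p) {m : ℕ} (hm : 1 ≤ m)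
    (hz : (4 : ℝ) * (σ.r z : ℝ) ^ m ≤ 1) (hyz : (σ.r y : ℝ) * σ.r z ≤ 1) :
    Free₂ (fun i => if i then z ^ m * y * z ^ m else y * z ^ (2 * m)) := by
  set δ : ℝ := (σ.ν (aff A b y p - p) : ℝ) with hδ
  have hδ0 : δ ≠ 0 := fun h => hy (sub_eq_zero.1 ((σ.ν_zero _).1 (NNReal.coe_eq_zero.1 h)))
  have hδpos : 0 < δ := lt_of_le_of_ne (NNReal.coe_nonneg _) hδ0.symm
  set q : ℝ := (σ.r z : ℝ) with hq
  have hq0 : 0 ≤ q := NNReal.coe_nonneg _
  set t : ℝ := (σ.r y : ℝ) with ht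
  have ht0 : 0 ≤ t := NNReal.coe_nonneg _
  have hact : ∀ g x, (σ.ν (A g x) : ℝ) = (σ.r g : ℝ) * σ.ν x := by
    intro g x
    rw [σ.ν_act, NNReal.coe_mul]
  have hadd : ∀ x y, (σ.ν (x + y) : ℝ) ≤ σ.ν x + σ.ν y := by
    intro x y
    exact_mod_cast σ.ν_add x y
  have hzm : aff A b (z ^ m) p = p := by
    clear hm hz
    induction m with
    | zero => rw [pow_zero, hb.aff_one]
    | succ m ih => rw [pow_succ, hb.aff_mul, hp, ih]
  have hz2m : aff A b (z ^ (2 * m)) p = p := by rw [two_mul, pow_add, hb.aff_mul, hzm, hzm]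
  have hqle1 : q ≤ 1 := by
    by_contra hcon
    push Not at hcon
    have : 1 ≤ q ^ m := one_le_pow₀ hcon.le
    linarith
  have htqm : t * q ^ m ≤ 1 := by
    obtain ⟨n, rfl⟩ : ∃ n, m = n + 1 := ⟨m - 1, by omega⟩
    rw [pow_succ, mul_comm (q ^ n), ← mul_assoc]
    calc t * q * q ^ n ≤ 1 * 1 := mul_le_mul hyz (pow_le_one₀ hq0 hqle1) (by positivity) (by norm_num)
      _ = 1 := one_mul _
  have hzw : ∀ w x, (σ.ν (aff A b (z ^ m * w) x - p) : ℝ) = q ^ m * σ.ν (aff A b w x - p) := by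
    intro w x
    have h1 : aff A b (z ^ m * w) x - p = A (z ^ m) (aff A b w x - p) := by
      rw [hb.aff_mul, ← aff_sub (b := b), hzm]
    rw [h1, hact, σ.r_pow, NNReal.coe_pow]
  have hyw : ∀ w x, aff A b w p = p →
      aff A b (y * w) x - p = A (y * w) (x - p) + (aff A b y p - p) := by
    intro w x hw
    rw [← aff_sub (b := b), hb.aff_mul y w p, hw]
    abel
  have hsmall : ∀ x, (σ.ν (x - p) : ℝ) ≤ 4 / 3 * δ →
      (σ.ν (aff A b (z ^ m * y * z ^ m) x - p) : ℝ) ≤ 7 / 12 * δ := by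
    intro x hx
    rw [mul_assoc, hzw, hyw (z ^ m) x hzm]
    have h1 := hadd (A (y * z ^ m) (x - p)) (aff A b y p - p)
    rw [hact, σ.r_mul, σ.r_pow, NNReal.coe_mul, NNReal.coe_pow, ← hδ] at h1
    have h2 : t * q ^ m * (σ.ν (x - p) : ℝ) ≤ 4 / 3 * δ := by
      calc t * q ^ m * (σ.ν (x - p) : ℝ) ≤ 1 * (4 / 3 * δ) :=
            mul_le_mul htqm hx (NNReal.coe_nonneg _) (by norm_num)
        _ = _ := one_mul _
    have hqm0 : 0 ≤ q ^ m := by positivity
    calc q ^ m * _ ≤ q ^ m * (4 / 3 * δ + δ) := mul_le_mul_of_nonneg_left (by linarith) hqm0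
      _ ≤ 1 / 4 * (4 / 3 * δ + δ) := mul_le_mul_of_nonneg_right (by linarith) (by positivity)
      _ = 7 / 12 * δ := by ring
  have hlin : ∀ x, (σ.ν (x - p) : ℝ) ≤ 4 / 3 * δ →
      (σ.ν (A (y * z ^ (2 * m)) (x - p)) : ℝ) ≤ 1 / 3 * δ := by
    intro x hx
    rw [hact, σ.r_mul, σ.r_pow, NNReal.coe_mul, NNReal.coe_pow, two_mul, pow_add]
    calc t * (q ^ m * q ^ m) * (σ.ν (x - p) : ℝ)
        = (t * q ^ m) * (q ^ m * (σ.ν (x - p) : ℝ)) := by ring
      _ ≤ 1 * (1 / 4 * (4 / 3 * δ)) := by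
          apply mul_le_mul htqm _ (by positivity) (by norm_num)
          exact mul_le_mul (by linarith) hx (NNReal.coe_nonneg _) (by norm_num)
      _ = _ := by ring
  have hb1 : ∀ x, (σ.ν (x - p) : ℝ) ≤ 4 / 3 * δ →
      (σ.ν (aff A b (y * z ^ (2 * m)) x - p) : ℝ) ≤ 4 / 3 * δ := by
    intro x hx
    rw [hyw _ x hz2m]
    have h1 := hadd (A (y * z ^ (2 * m)) (x - p)) (aff A b y p - p)
    have h2 := hlin x hx
    rw [← hδ] at h1
    linarith
  have hb2 : ∀ x, (σ.ν (x - p) : ℝ) ≤ 4 / 3 * δ →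
      2 / 3 * δ ≤ (σ.ν (aff A b (y * z ^ (2 * m)) x - p) : ℝ) := by
    intro x hx
    rw [hyw _ x hz2m]
    have h1 := hadd (A (y * z ^ (2 * m)) (x - p) + (aff A b y p - p))
      (-(A (y * z ^ (2 * m)) (x - p)))
    rw [σ.ν_neg, add_neg_cancel_comm, ← hδ] at h1
    have h2 := hlin x hx
    linarith
  apply free_of_pingpong (aff A b) hb.aff_one hb.aff_mul {x | (σ.ν (x - p) : ℝ) ≤ 4 / 3 * δ} p
  · change (σ.ν (p - p) : ℝ) ≤ 4 / 3 * δ
    rw [sub_self, (σ.ν_zero 0).2 rfl]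
    simp only [NNReal.coe_zero]
    positivity
  · intro i x hx
    cases i
    · exact hb1 x hx
    · have := hsmall x hx
      exact this.trans (by linarith)
  · intro x hx y' hy' heq
    simp only [if_true, Bool.false_eq_true, if_false] at heq
    have h1 := hsmall x hx
    have h2 := hb2 y' hy'
    rw [← heq] at h2
    linarith

theorem arch_free {V : k →*₀ ℝ≥0} {A : G →* Module.End k L} {N : Subgroup G} {η : N → k}
    (σ : SimNorm (fun a b => a + b) V A N η) {b : G → L} (hb : Cocycle A b) (z y : G) (p : L)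
    (hp : aff A b z p = p) (hy : aff A b y p ≠ p) {m : ℕ} (hm : 1 ≤ m)
    (hz : (4 : ℝ) * (σ.r z : ℝ) ^ m ≤ 1 ∧ (σ.r y : ℝ) * σ.r z ≤ 1 ∨
      4 ≤ (σ.r z : ℝ) ^ m ∧ 1 ≤ (σ.r y : ℝ) * σ.r z) :
    ∃ e : Bool → G, Free₂ e ∧ ∀ i, IsWd z y m (e i) := by
  rcases hz with ⟨h1, h2⟩ | ⟨h1, h2⟩
  · refine ⟨_, arch_free_lt σ hb z y p hp hy hm h1 h2, ?_⟩
    intro i
    cases i
    · right; left; simp
    · left; simp
  · have hrz : (0 : ℝ) < σ.r z := by
      have := σ.r_ne z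
      have h3 : 0 < σ.r z := zero_lt_iff.2 this
      exact_mod_cast h3
    have hry : (0 : ℝ) < σ.r y := by
      have := σ.r_ne y
      have h3 : 0 < σ.r y := zero_lt_iff.2 this
      exact_mod_cast h3
    have h := arch_free_lt σ hb z⁻¹ y⁻¹ p (hb.aff_inv_fix hp)
      (fun hf => hy (by have := hb.aff_inv_fix hf; rwa [inv_inv] at this)) hm
      (by
        rw [σ.r_inv, NNReal.coe_inv, inv_pow]
        rw [← div_eq_mul_inv, div_le_one (by positivity)]
        exact h1)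
      (by
        rw [σ.r_inv, σ.r_inv, NNReal.coe_inv, NNReal.coe_inv, ← mul_inv]
        exact inv_le_one_of_one_le₀ h2)
    refine ⟨_, h.inv, ?_⟩
    intro i
    cases i
    · right; right
      simp only [Bool.false_eq_true, if_false, mul_inv_rev, inv_inv, inv_pow]
    · left
      simp only [if_true, mul_inv_rev, inv_inv, inv_pow, mul_assoc]

end Pool.Agent.Helper5.TL
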