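import Pool.Agent.Helper5.TL.AffData
import Pool.Agent.Helper5.TL.PingArch
import Pool.Agent.Helper98.TL.Schreier
import Pool.Agent.Helper11.Gap.Dist

/-!
# From the affine data to growth
-/

namespace Pool.Agent.Helper5.TL

open Module NNReal
open scoped Pointwise

universe u v

section gens

variable {G : Type*} [Group G] [DecidableEq G] (S : Finset G) (G₁ : Subgroup G)

/-- Elements of `G₁` which are positive words of length between `1` and `s`. -/
def gens (s : ℕ) : Set G₁ := {g | ∃ l, 1 ≤ l ∧ l ≤ s ∧ (g : G) ∈ S ^ l}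

theorem gens_finite (s : ℕ) : (gens S G₁ s).Finite := by
  apply Set.Finite.of_finite_image (f := fun g : G₁ => (g : G)) _ Subtype.val_injective.injOn
  apply Set.Finite.subset ((Finset.range (s + 1)).biUnion (fun l => S ^ l)).finite_toSet
  rintro _ ⟨g, ⟨l, _, hl, hg⟩, rfl⟩
  rw [Finset.mem_coe, Finset.mem_biUnion]
  exact ⟨l, Finset.mem_range.2 (by omega), hg⟩

theorem closure_gens (hS : Subgroup.closure (S : Set G) = ⊤) [G₁.FiniteIndex] :
    Subgroup.closure (gens S G₁ (2 * G₁.index - 1)) = ⊤ := by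
  apply Subgroup.map_injective G₁.subtype_injective
  rw [MonoidHom.map_closure, ← MonoidHom.range_eq_map, Subgroup.range_subtype]
  conv_rhs => rw [← Pool.Agent.Helper98.TL.schreier_positive S hS G₁]
  congr 1
  ext g
  constructor
  · rintro ⟨g, ⟨l, h1, h2, h3⟩, rfl⟩
    exact ⟨g.2, l, h1, h2, h3⟩
  · rintro ⟨hg, l, h1, h2, h3⟩
    exact ⟨⟨g, hg⟩, ⟨l, h1, h2, h3⟩, rfl⟩

theorem pow_mem_pow' {S : Finset G} {g : G} {l : ℕ} (hg : g ∈ S ^ l) (m : ℕ) :
    g ^ m ∈ S ^ (l * m) := by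
  rw [pow_mul]
  exact Finset.pow_mem_pow hg

theorem growth_of_free {s m : ℕ} {z y : G₁} (hz : z ∈ gens S G₁ s) (hy : y ∈ gens S G₁ s)
    {e : Bool → G₁} (he : Free₂ e) (hw : ∀ i, IsWd z y m (e i)) :
    ∃ l, 0 < l ∧ l ≤ (2 * m + 1) * s ∧ ∀ n : ℕ, 2 ^ n ≤ ((S ^ l) ^ n).card := by
  obtain ⟨l₁, h1, h1', hz⟩ := hz
  obtain ⟨l₂, h2, h2', hy⟩ := hy
  refine ⟨2 * m * l₁ + l₂, by omega, ?_, ?_⟩
  · calc 2 * m * l₁ + l₂ ≤ 2 * m * s + s := Nat.add_le_add (Nat.mul_le_mul_left _ h1') h2'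
      _ = (2 * m + 1) * s := by ring
  · intro n
    have hmem : ∀ i ∈ (Finset.univ : Finset Bool), ((e i : G₁) : G) ∈ S ^ (2 * m * l₁ + l₂) := by
      intro i _
      have hzm : (z : G) ^ m ∈ S ^ (l₁ * m) := pow_mem_pow' hz m
      have hz2m : (z : G) ^ (2 * m) ∈ S ^ (l₁ * (2 * m)) := pow_mem_pow' hz (2 * m)
      rcases hw i with h | h | h
      · rw [h]
        push_cast
        have := Finset.mul_mem_mul (Finset.mul_mem_mul hzm hy) hzm
        rw [← pow_add, ← pow_add] at this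
        convert this using 2
        ring
      · rw [h]
        push_cast
        have := Finset.mul_mem_mul hy hz2m
        rw [← pow_add] at this
        convert this using 2
        ring
      · rw [h]
        push_cast
        have := Finset.mul_mem_mul hz2m hy
        rw [← pow_add] at this
        convert this using 2
        ring
    have h := Pool.Agent.Helper11.Gap.card_pow_of_free (T := S) (fun i => ((e i : G₁) : G))
      (Finset.univ : Finset Bool) (2 * m * l₁ + l₂) hmem (by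
        intro L L' _ _ hlen heq
        apply he L L' hlen
        apply Subtype.ext
        have key : ∀ L : List Bool, (((L.map e).prod : G₁) : G) =
            (L.map (fun i => ((e i : G₁) : G))).prod := by
          intro L
          induction L with
          | nil => simp
          | cons a L ih =>
            rw [List.map_cons, List.prod_cons, List.map_cons, List.prod_cons, ← ih]
            rfl
        rw [key, key]
        exact heq) n
    rw [← pow_mul]
    simpa using h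

end gens

section main

variable {k : Type u} {G : Type*} {L : Type v} [Field k] [Group G] [AddCommGroup L] [Module k L]

/-- some generator moves a given point -/
theorem exists_move {X : Set G} (hX : Subgroup.closure X = ⊤) {A : G →* Module.End k L}
    {b : G → L} (hb : Cocycle A b) (p : L) (hno : ∃ n, aff A b n p ≠ p) :
    ∃ y ∈ X, aff A b y p ≠ p := by
  by_contra hcon
  push Not at hcon
  obtain ⟨n, hn⟩ := hno
  have key : ∀ g ∈ Subgroup.closure X, aff A b g p = p := by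
    intro g h
    induction h using Subgroup.closure_induction with
    | mem x hx => exact hcon x hx
    | one => exact hb.aff_one p
    | mul x y _ _ hx hy => rw [hb.aff_mul, hy, hx]
    | inv x _ hx => exact hb.aff_inv_fix hx
  exact hn (key n (by rw [hX]; exact Subgroup.mem_top n))

/-- some generator has an eigenvalue ratio which is not a root of unity -/
theorem exists_nontorsion [FiniteDimensional k L] [Nontrivial L] {X : Set G} (hXf : X.Finite)
    (hX : Subgroup.closure X = ⊤) {A : G →* Module.End k L} {N : Subgroup G} {η : N → k}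
    (hη : ∀ n : N, ∀ x, A n x = η n • x) (nontors : ∀ M, 0 < M → ∃ n : N, η n ^ M ≠ 1) {E : ℕ}
    (hE : 0 < E) (θ : G → k) (hθ : ∀ g, ∃ h : g ^ E ∈ N, η ⟨g ^ E, h⟩ = θ g ^ E) :
    ∃ z ∈ X, ∀ n, 0 < n → θ z ^ n ≠ 1 := by
  classical
  by_contra hcon
  push Not at hcon
  choose! f hf0 hf1 using hcon
  have hfr : 0 < finrank k L := finrank_pos
  set M₀ := ∏ z ∈ hXf.toFinset, f z with hM₀
  have hM₀pos : 0 < M₀ := Finset.prod_pos (fun z hz => hf0 z (by simpa using hz))
  have hθM : ∀ z ∈ X, θ z ^ M₀ = 1 := by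
    intro z hz
    obtain ⟨c, hc⟩ := Finset.dvd_prod_of_mem f (hXf.mem_toFinset.2 hz)
    rw [hM₀, hc, pow_mul, hf1 z hz, one_pow]
  have hdetN : ∀ n : N, LinearMap.det (A n) = η n ^ finrank k L := by
    intro n
    have : A n = η n • (LinearMap.id : L →ₗ[k] L) := by
      ext x
      rw [hη]
      rfl
    rw [this, LinearMap.det_smul, LinearMap.det_id, mul_one]
  have hdet : ∀ g, LinearMap.det (A g) ^ E = (θ g ^ E) ^ finrank k L := by
    intro g
    obtain ⟨h, he⟩ := hθ g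
    rw [← he, ← hdetN ⟨g ^ E, h⟩, ← map_pow, ← map_pow]
  let P : Subgroup G :=
    { carrier := {g | LinearMap.det (A g) ^ (E * M₀) = 1}
      one_mem' := by
        change LinearMap.det (A 1) ^ (E * M₀) = 1
        rw [map_one, map_one, one_pow]
      mul_mem' := by
        intro a b ha hb
        change LinearMap.det (A (a * b)) ^ (E * M₀) = 1
        have ha' : LinearMap.det (A a) ^ (E * M₀) = 1 := ha
        have hb' : LinearMap.det (A b) ^ (E * M₀) = 1 := hb
        rw [map_mul, map_mul, mul_pow, ha', hb', one_mul]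
      inv_mem' := by
        intro a ha
        change LinearMap.det (A a⁻¹) ^ (E * M₀) = 1
        have ha' : LinearMap.det (A a) ^ (E * M₀) = 1 := ha
        have h1 : LinearMap.det (A a⁻¹) * LinearMap.det (A a) = 1 := by
          rw [← map_mul, ← map_mul, inv_mul_cancel, map_one, map_one]
        have h2 := congrArg (fun t => t ^ (E * M₀)) h1
        simp only [mul_pow, one_pow] at h2
        rwa [ha', mul_one] at h2 }
  have hle : (⊤ : Subgroup G) ≤ P := by
    rw [← hX, Subgroup.closure_le]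
    intro z hz
    change LinearMap.det (A z) ^ (E * M₀) = 1
    calc LinearMap.det (A z) ^ (E * M₀) = (LinearMap.det (A z) ^ E) ^ M₀ := pow_mul _ _ _
      _ = (θ z ^ M₀) ^ (E * finrank k L) := by rw [hdet]; ring
      _ = 1 := by rw [hθM z hz, one_pow]
  obtain ⟨n, hn⟩ := nontors (finrank k L * (E * M₀)) (by positivity)
  apply hn
  have h1 : LinearMap.det (A n) ^ (E * M₀) = 1 := hle (Subgroup.mem_top (n : G))
  rw [pow_mul, ← hdetN, h1]

/-- ultrametric case -/
theorem ultra_words [IsAlgClosed k] [FiniteDimensional k L] [Nontrivial L] {X : Set G}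
    (hXf : X.Finite) (hX : Subgroup.closure X = ⊤) {A : G →* Module.End k L} {N : Subgroup G}
    [N.Normal] [N.FiniteIndex] {η : N → k}
    (hη : ∀ n : N, ∀ x, A n x = η n • x) {b : G → L} (hb : Cocycle A b)
    (nofix : ∀ x : L, ∃ n : N, aff A b n x ≠ x) {E : ℕ} (hE : 0 < E) (θ : G → k)
    (hθ : ∀ g, ∃ h : g ^ E ∈ N, η ⟨g ^ E, h⟩ = θ g ^ E)
    {Γ₀ : Type*} [LinearOrderedCommGroupWithZero Γ₀] (v : Valuation k Γ₀)
    {z₀ : G} (hz₀ : z₀ ∈ X) (hv : v (θ z₀) ≠ 1) :
    ∃ z ∈ X, ∃ y ∈ X, ∃ e : Bool → G, Free₂ e ∧ ∀ i, IsWd z y 1 (e i) := by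
  obtain ⟨σ⟩ := exists_simNorm (fun a b : Γ₀ => max a b) (fun a b c d h h' => max_le_max h h')
    (fun c a b => by
      rcases le_total a b with h | h
      · rw [max_eq_right h, max_eq_right (mul_le_mul_right h c)]
      · rw [max_eq_left h, max_eq_left (mul_le_mul_right h c)])
    v.toMonoidWithZeroHom (fun x y => v.map_add x y) (fun x => v.map_neg x) A N η hη
  have hr : ∀ g, σ.r g = v (θ g) := by
    intro g
    obtain ⟨h, he⟩ := hθ g
    have h1 := σ.r_N ⟨g ^ E, h⟩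
    rw [he] at h1
    have h2 : σ.r g ^ E = v (θ g) ^ E := by
      rw [← σ.r_pow, ← map_pow]
      exact h1
    exact (pow_left_inj₀ zero_le zero_le hE.ne').1 h2
  obtain ⟨z, hz, hmax⟩ := Set.exists_max_image X (fun g => max (σ.r g) (σ.r g)⁻¹) hXf ⟨z₀, hz₀⟩
  have hz1 : σ.r z ≠ 1 := by
    intro h1
    have h2 := hmax z₀ hz₀
    simp only [h1, inv_one, max_self] at h2
    have h3 := max_le_iff.1 h2
    have h4 : σ.r z₀ = 1 := by
      apply le_antisymm h3.1
      exact (inv_le_one₀ (zero_lt_iff.2 (σ.r_ne z₀))).1 h3.2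
    rw [hr] at h4
    exact hv h4
  obtain ⟨p, hp⟩ := σ.exists_fix (b := b) z hz1
  obtain ⟨n, hn⟩ := nofix p
  obtain ⟨y, hy, hyp⟩ := exists_move hX hb p ⟨n, hn⟩
  have hzpos : 0 < σ.r z := zero_lt_iff.2 (σ.r_ne z)
  have hypos : 0 < σ.r y := zero_lt_iff.2 (σ.r_ne y)
  have hy' := hmax y hy
  obtain ⟨e, he, hw⟩ := ultra_free σ hb z y p hp hyp hz1
    (by
      intro hlt
      have h1 : max (σ.r z) (σ.r z)⁻¹ = (σ.r z)⁻¹ :=
        max_eq_right (hlt.le.trans (one_le_inv₀ hzpos |>.2 hlt.le))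
      have h2 : σ.r y ≤ (σ.r z)⁻¹ := by
        rw [← h1]; exact (le_max_left _ _).trans hy'
      calc σ.r y * σ.r z ≤ (σ.r z)⁻¹ * σ.r z := mul_le_mul_left h2 _
        _ = 1 := inv_mul_cancel₀ (σ.r_ne z))
    (by
      intro hgt
      have h1 : max (σ.r z) (σ.r z)⁻¹ = σ.r z :=
        max_eq_left ((inv_le_one₀ hzpos |>.2 hgt.le).trans hgt.le)
      have h2 : (σ.r y)⁻¹ ≤ σ.r z := by
        rw [← h1]; exact (le_max_right _ _).trans hy'
      calc (1 : Γ₀) = σ.r y * (σ.r y)⁻¹ := (mul_inv_cancel₀ (σ.r_ne y)).symm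
        _ ≤ σ.r y * σ.r z := mul_le_mul_right h2 _)
  exact ⟨z, hz, y, hy, e, he, hw⟩

/-- archimedean case -/
theorem arch_words [IsAlgClosed k] [FiniteDimensional k L] [Nontrivial L] {X : Set G}
    (hXf : X.Finite) (hX : Subgroup.closure X = ⊤) {A : G →* Module.End k L} {N : Subgroup G}
    [N.Normal] [N.FiniteIndex] {η : N → k}
    (hη : ∀ n : N, ∀ x, A n x = η n • x) {b : G → L} (hb : Cocycle A b)
    (nofix : ∀ x : L, ∃ n : N, aff A b n x ≠ x) {E : ℕ} (hE : 0 < E) (θ : G → k)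
    (hθ : ∀ g, ∃ h : g ^ E ∈ N, η ⟨g ^ E, h⟩ = θ g ^ E) (τ : k →+* ℂ) {m : ℕ} (hm : 1 ≤ m)
    {z₀ : G} (hz₀ : z₀ ∈ X) (hv : 4 ≤ (max ‖τ (θ z₀)‖ ‖τ (θ z₀)‖⁻¹) ^ m) :
    ∃ z ∈ X, ∃ y ∈ X, ∃ e : Bool → G, Free₂ e ∧ ∀ i, IsWd z y m (e i) := by
  let V : k →*₀ ℝ≥0 := (nnnormHom : ℂ →*₀ ℝ≥0).comp τ.toMonoidWithZeroHom
  have hVa : ∀ x, V x = ‖τ x‖₊ := fun _ => rfl
  obtain ⟨σ⟩ := exists_simNorm (fun a b : ℝ≥0 => a + b) (fun a b c d h h' => add_le_add h h')
    (fun c a b => mul_add c a b) V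
    (fun x y => by rw [hVa, hVa, hVa, map_add]; exact nnnorm_add_le _ _)
    (fun x => by rw [hVa, hVa, map_neg, nnnorm_neg]) A N η hη
  have hr : ∀ g, σ.r g = V (θ g) := by
    intro g
    obtain ⟨h, he⟩ := hθ g
    have h1 := σ.r_N ⟨g ^ E, h⟩
    rw [he] at h1
    have h2 : σ.r g ^ E = V (θ g) ^ E := by
      rw [← σ.r_pow, ← map_pow]
      exact h1
    exact (pow_left_inj₀ zero_le zero_le hE.ne').1 h2
  obtain ⟨z, hz, hmax⟩ := Set.exists_max_image X (fun g => max (σ.r g) (σ.r g)⁻¹) hXf ⟨z₀, hz₀⟩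
  have hz4 : 4 ≤ (max (σ.r z) (σ.r z)⁻¹) ^ m := by
    have h1 : (4 : ℝ≥0) ≤ (max (σ.r z₀) (σ.r z₀)⁻¹) ^ m := by
      rw [hr, hVa]
      exact_mod_cast hv
    exact h1.trans (pow_le_pow_left₀ zero_le (hmax z₀ hz₀) m)
  have hzpos : 0 < σ.r z := zero_lt_iff.2 (σ.r_ne z)
  have hz1 : σ.r z ≠ 1 := by
    intro h1
    rw [h1, inv_one, max_self, one_pow] at hz4
    norm_num at hz4
  obtain ⟨p, hp⟩ := σ.exists_fix (b := b) z hz1
  obtain ⟨n, hn⟩ := nofix p
  obtain ⟨y, hy, hyp⟩ := exists_move hX hb p ⟨n, hn⟩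
  have hy' := hmax y hy
  obtain ⟨e, he, hw⟩ := arch_free σ hb z y p hp hyp hm (by
    rcases lt_or_gt_of_ne hz1 with hlt | hgt
    · left
      have h1 : max (σ.r z) (σ.r z)⁻¹ = (σ.r z)⁻¹ :=
        max_eq_right (hlt.le.trans (one_le_inv₀ hzpos |>.2 hlt.le))
      rw [h1] at hz4
      have h2 : σ.r y ≤ (σ.r z)⁻¹ := by
        rw [← h1]; exact (le_max_left _ _).trans hy'
      constructor
      · have h3 : 4 * (σ.r z) ^ m ≤ 1 := by
          calc 4 * (σ.r z) ^ m ≤ ((σ.r z)⁻¹) ^ m * (σ.r z) ^ m := mul_le_mul_left hz4 _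
            _ = 1 := by rw [← mul_pow, inv_mul_cancel₀ (σ.r_ne z), one_pow]
        exact_mod_cast h3
      · have h3 : σ.r y * σ.r z ≤ 1 := by
          calc σ.r y * σ.r z ≤ (σ.r z)⁻¹ * σ.r z := mul_le_mul_left h2 _
            _ = 1 := inv_mul_cancel₀ (σ.r_ne z)
        exact_mod_cast h3
    · right
      have h1 : max (σ.r z) (σ.r z)⁻¹ = σ.r z :=
        max_eq_left ((inv_le_one₀ hzpos |>.2 hgt.le).trans hgt.le)
      rw [h1] at hz4
      have h2 : (σ.r y)⁻¹ ≤ σ.r z := by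
        rw [← h1]; exact (le_max_right _ _).trans hy'
      constructor
      · exact_mod_cast hz4
      · have h3 : 1 ≤ σ.r y * σ.r z := by
          calc (1 : ℝ≥0) = σ.r y * (σ.r y)⁻¹ := (mul_inv_cancel₀ (σ.r_ne y)).symm
            _ ≤ σ.r y * σ.r z := mul_le_mul_right h2 _
        exact_mod_cast h3)
  exact ⟨z, hz, y, hy, e, he, hw⟩

end main

end Pool.Agent.Helper5.TL
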