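import Pool.Agent.Helper5.TL.Defs

/-! If the weight spaces of a triangular subgroup `N` span, then `N` is nilpotent. -/

namespace Pool.Agent.Helper5.TL.Nil

open Pool.Agent.Helper5.TL Module

universe u

section NilWt

variable {k : Type u} {G V : Type*} [Field k] [Group G] [AddCommGroup V] [Module k V]

theorem rho_mul (ρ : G →* Module.End k V) {N : Subgroup G} (a b : N) (v : V) :
    ρ (a * b : N) v = ρ a (ρ b v) := by
  rw [Subgroup.coe_mul, map_mul]; rfl

theorem rho_one (ρ : G →* Module.End k V) {N : Subgroup G} (v : V) :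
    ρ (1 : N) v = v := by
  rw [Subgroup.coe_one, map_one]; rfl

theorem mem_wt {ρ : G →* Module.End k V} {N : Subgroup G} {χ : N →* k} {v : V} :
    v ∈ wt ρ N χ ↔ ∀ n : N, ∃ M : ℕ, ((ρ n - χ n • (1 : Module.End k V)) ^ M) v = 0 := by
  simp only [wt, Submodule.mem_iInf, Module.End.mem_maxGenEigenspace]

theorem char_conj {N : Subgroup G} (χ : N →* k) (h n : N) : χ (h⁻¹ * n * h) = χ n := by
  have h1 : χ h⁻¹ * χ h = 1 := by rw [← map_mul]; simp
  rw [map_mul, map_mul, mul_comm (χ h⁻¹), mul_assoc, h1, mul_one]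

theorem wt_inv {ρ : G →* Module.End k V} {N : Subgroup G} {χ : N →* k} (h : N) {v : V}
    (hv : v ∈ wt ρ N χ) : ρ h v ∈ wt ρ N χ := by
  rw [mem_wt] at hv ⊢
  intro n
  obtain ⟨M, hM⟩ := hv (h⁻¹ * n * h)
  refine ⟨M, ?_⟩
  rw [char_conj] at hM
  have key : ∀ (j : ℕ) (w : V), ((ρ n - χ n • (1 : Module.End k V)) ^ j) (ρ h w) =
      ρ h (((ρ (h⁻¹ * n * h : N) - χ n • (1 : Module.End k V)) ^ j) w) := by
    intro j
    induction j with
    | zero => intro w; simp
    | succ j ih =>
      intro w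
      rw [pow_succ, pow_succ, Module.End.mul_apply, Module.End.mul_apply]
      have e : (ρ n - χ n • (1 : Module.End k V)) (ρ h w) =
          ρ h ((ρ (h⁻¹ * n * h : N) - χ n • (1 : Module.End k V)) w) := by
        simp only [LinearMap.sub_apply, LinearMap.smul_apply, Module.End.one_apply, map_sub,
          map_smul]
        rw [← rho_mul, ← rho_mul]
        congr 3
        simp [mul_assoc]
      rw [e, ih]
  rw [key, hM, map_zero]

theorem flag_inv {ρ : G →* Module.End k V} {N : Subgroup G} {F : ℕ → Submodule k V}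
    {c : ℕ → N →* k} (h0 : F 0 = ⊥) (hle : ∀ i, F i ≤ F (i + 1))
    (hc : ∀ i, ∀ h : N, ∀ v ∈ F (i + 1), ρ h v - c i h • v ∈ F i) (i : ℕ) (h : N) {v : V}
    (hv : v ∈ F i) : ρ h v ∈ F i := by
  cases i with
  | zero =>
    rw [h0, Submodule.mem_bot] at hv ⊢
    rw [hv, map_zero]
  | succ j =>
    have h1 := hle j (hc j h v hv)
    have h2 := (F (j + 1)).add_mem h1 ((F (j + 1)).smul_mem (c j h) hv)
    simpa using h2

/-- The one-step estimate. -/
theorem step_one {ρ : G →* Module.End k V} {N : Subgroup G} {F : ℕ → Submodule k V}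
    {c : ℕ → N →* k} (h0 : F 0 = ⊥) (hle : ∀ i, F i ≤ F (i + 1))
    (hc : ∀ i, ∀ h : N, ∀ v ∈ F (i + 1), ρ h v - c i h • v ∈ F i) (χ : N →* k) (i : ℕ) (n : N)
    {v : V} (hv : v ∈ wt ρ N χ) (hvF : v ∈ F (i + 1)) : ρ n v - χ n • v ∈ F i := by
  by_cases hin : v ∈ F i
  · exact (F i).sub_mem (flag_inv h0 hle hc i n hin) ((F i).smul_mem _ hin)
  · obtain ⟨M, hM⟩ := mem_wt.1 hv n
    have key : ∀ j : ℕ, ((ρ n - χ n • (1 : Module.End k V)) ^ j) v -
        (c i n - χ n) ^ j • v ∈ F i := by
      intro j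
      induction j with
      | zero => simp
      | succ j ih =>
        have e1 : ((ρ n - χ n • (1 : Module.End k V)) ^ (j + 1)) v =
            (ρ n - χ n • (1 : Module.End k V)) (((ρ n - χ n • (1 : Module.End k V)) ^ j) v) := by
          rw [pow_succ', Module.End.mul_apply]
        set x := ((ρ n - χ n • (1 : Module.End k V)) ^ j) v with hx
        rw [e1]
        have a1 := (F i).sub_mem (flag_inv h0 hle hc i n ih) ((F i).smul_mem (χ n) ih)
        have a2 := (F i).smul_mem ((c i n - χ n) ^ j) (hc i n v hvF)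
        have a3 := (F i).add_mem a1 a2
        convert a3 using 1
        simp only [LinearMap.sub_apply, LinearMap.smul_apply, Module.End.one_apply, map_sub,
          map_smul, pow_succ]
        module
    have h3 := key M
    rw [hM, zero_sub, Submodule.neg_mem_iff] at h3
    have h4 : c i n - χ n = 0 := by
      by_contra hne
      apply hin
      have := (F i).smul_mem (((c i n - χ n) ^ M)⁻¹) h3
      rwa [smul_smul, inv_mul_cancel₀ (pow_ne_zero _ hne), one_smul] at this
    rw [← sub_eq_zero.1 h4]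
    exact hc i n v hvF

/-- The subgroup `K_j`. -/
def K (ρ : G →* Module.End k V) (N : Subgroup G) (F : ℕ → Submodule k V)
    (hF : ∀ i, ∀ h : N, ∀ v ∈ F i, ρ h v ∈ F i) (j : ℕ) : Subgroup N where
  carrier := {n | ∀ (χ : N →* k) (i : ℕ) (v : V), v ∈ wt ρ N χ → v ∈ F (i + j) →
    ρ n v - χ n • v ∈ F i}
  one_mem' := by
    intro χ i v _ _
    rw [rho_one, map_one, one_smul, sub_self]
    exact (F i).zero_mem
  mul_mem' := by
    intro a b ha hb χ i v hv hvF
    have h1 := hF i a _ (hb χ i v hv hvF)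
    have h2 := (F i).smul_mem (χ b) (ha χ i v hv hvF)
    have h3 := (F i).add_mem h1 h2
    convert h3 using 1
    rw [rho_mul, map_mul]
    simp only [map_sub, map_smul]
    module
  inv_mem' := by
    intro a ha χ i v hv hvF
    have h1 := hF i a⁻¹ _ (ha χ i v hv hvF)
    have h2 := (F i).smul_mem (χ a⁻¹) h1
    have e : χ a⁻¹ * χ a = 1 := by rw [← map_mul]; simp
    have h3 := (F i).neg_mem h2
    convert h3 using 1
    rw [map_sub, map_smul, ← rho_mul, inv_mul_cancel, rho_one, smul_sub, smul_smul, e, one_smul]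
    module

theorem mem_K {ρ : G →* Module.End k V} {N : Subgroup G} {F : ℕ → Submodule k V}
    {hF : ∀ i, ∀ h : N, ∀ v ∈ F i, ρ h v ∈ F i} {j : ℕ} {n : N} :
    n ∈ K ρ N F hF j ↔ ∀ (χ : N →* k) (i : ℕ) (v : V), v ∈ wt ρ N χ → v ∈ F (i + j) →
    ρ n v - χ n • v ∈ F i := Iff.rfl

theorem nilpotent_aux (ρ : G →* Module.End k V)
    (hinj : Function.Injective ρ) (N : Subgroup G) (hF : FlagC ρ N)
    (htop : (⨆ χ : N →* k, wt ρ N χ) = ⊤) : Group.IsNilpotent N := by
  obtain ⟨m, F, c, h0, hm, hle, hc⟩ := hF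
  have hinv : ∀ i, ∀ h : N, ∀ v ∈ F i, ρ h v ∈ F i := fun i h v hv =>
    flag_inv h0 hle hc i h hv
  have hK1 : K ρ N F hinv 1 = ⊤ := by
    rw [eq_top_iff]
    intro n _
    rw [mem_K]
    intro χ i v hv hvF
    exact step_one h0 hle hc χ i n hv hvF
  have hcomm : ∀ (j : ℕ) (n h : N), n ∈ K ρ N F hinv j → n * h * n⁻¹ * h⁻¹ ∈
      K ρ N F hinv (j + 1) := by
    intro j n h hn
    rw [mem_K]
    intro χ i v hv hvF
    have ech : χ (n * h * n⁻¹ * h⁻¹) = 1 := by
      have e1 : χ n * χ n⁻¹ = 1 := by rw [← map_mul]; simp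
      have e2 : χ h * χ h⁻¹ = 1 := by rw [← map_mul]; simp
      rw [map_mul, map_mul, map_mul]
      calc χ n * χ h * χ n⁻¹ * χ h⁻¹ = (χ n * χ n⁻¹) * (χ h * χ h⁻¹) := by ring
        _ = 1 := by rw [e1, e2, one_mul]
    rw [ech, one_smul]
    set w := ρ ((h * n)⁻¹ : N) v with hw
    have hwV : w ∈ wt ρ N χ := wt_inv _ hv
    have hwF : w ∈ F (i + (j + 1)) := hinv _ _ _ hvF
    have hvw : v = ρ (h * n : N) w := by
      rw [hw, ← rho_mul, mul_inv_cancel, rho_one]
    have hcw : ρ (n * h * n⁻¹ * h⁻¹ : N) v = ρ (n * h : N) w := by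
      rw [hw, ← rho_mul]
      congr 3
      group
    have a1 : ρ h w - χ h • w ∈ F (i + j) := step_one h0 hle hc χ (i + j) h hwV hwF
    have a1V : ρ h w - χ h • w ∈ wt ρ N χ :=
      (wt ρ N χ).sub_mem (wt_inv h hwV) ((wt ρ N χ).smul_mem _ hwV)
    have a2 := mem_K.1 hn χ i _ a1V a1
    have b1 : ρ n w - χ n • w ∈ F (i + 1) := by
      refine mem_K.1 hn χ (i + 1) w hwV ?_
      rw [show i + 1 + j = i + (j + 1) by ring]
      exact hwF
    have b1V : ρ n w - χ n • w ∈ wt ρ N χ :=
      (wt ρ N χ).sub_mem (wt_inv n hwV) ((wt ρ N χ).smul_mem _ hwV)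
    have b2 := step_one h0 hle hc χ i h b1V b1
    have h3 := (F i).sub_mem a2 b2
    rw [hcw]
    have e5 : ρ (n * h : N) w - v = ρ (n * h : N) w - ρ (h * n : N) w := by rw [← hvw]
    rw [e5]
    convert h3 using 1
    rw [rho_mul, rho_mul]
    simp only [map_sub, map_smul]
    module
  rw [Subgroup.nilpotent_iff_finite_descending_central_series]
  refine ⟨m + 1, fun j => if j ≤ m then K ρ N F hinv (j + 1) else ⊥, ⟨?_, ?_⟩, ?_⟩
  · simpa using hK1
  · intro x j hx g
    by_cases hj : j + 1 ≤ m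
    · have hj' : j ≤ m := by omega
      simp only [hj, hj', if_true] at hx ⊢
      exact hcomm _ _ _ hx
    · by_cases hj' : j ≤ m
      · simp only [hj', if_true] at hx
        simp only [hj, if_false, Subgroup.mem_bot]
        have h1 := hcomm _ _ g hx
        apply Subtype.ext
        apply hinj
        rw [Subgroup.coe_one, map_one]
        have htop' : ∀ v : V, ρ (x * g * x⁻¹ * g⁻¹ : N) v = v := by
          intro v
          have hv : v ∈ (⨆ χ : N →* k, wt ρ N χ) := by rw [htop]; trivial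
          have hle2 : (⨆ χ : N →* k, wt ρ N χ) ≤
              LinearMap.eqLocus (ρ (x * g * x⁻¹ * g⁻¹ : N)) LinearMap.id := by
            refine iSup_le fun χ => ?_
            intro w hw
            have hmono : ∀ j, F m ≤ F (m + j) := by
              intro j
              induction j with
              | zero => exact le_rfl
              | succ j ih => exact ih.trans (hle _)
            have hwF : w ∈ F (0 + (j + 1 + 1)) := by
              have : w ∈ F m := by rw [hm]; trivial
              have h2 := hmono 2 this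
              rw [show 0 + (j + 1 + 1) = m + 2 by omega]
              exact h2
            have h3 := mem_K.1 h1 χ 0 w hw hwF
            rw [h0, Submodule.mem_bot] at h3
            have ech : χ (x * g * x⁻¹ * g⁻¹) = 1 := by
              have e1 : χ x * χ x⁻¹ = 1 := by rw [← map_mul]; simp
              have e2 : χ g * χ g⁻¹ = 1 := by rw [← map_mul]; simp
              rw [map_mul, map_mul, map_mul]
              calc χ x * χ g * χ x⁻¹ * χ g⁻¹ = (χ x * χ x⁻¹) * (χ g * χ g⁻¹) := by ring
                _ = 1 := by rw [e1, e2, one_mul]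
            rw [ech, one_smul] at h3
            rw [LinearMap.mem_eqLocus]
            exact sub_eq_zero.1 h3
          exact hle2 hv
        ext v
        exact htop' v
      · simp only [hj', if_false, Subgroup.mem_bot] at hx
        simp only [hj, if_false, Subgroup.mem_bot, hx]
        simp
  · simp

end NilWt

theorem nilpotent_of_wt_top {k : Type u} {G V : Type*} [Field k] [Group G] [AddCommGroup V]
    [Module k V] [FiniteDimensional k V] (ρ : G →* Module.End k V)
    (hinj : Function.Injective ρ) (N : Subgroup G) (hF : FlagC ρ N)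
    (htop : (⨆ χ : N →* k, wt ρ N χ) = ⊤) : Group.IsNilpotent N :=
  nilpotent_aux ρ hinj N hF htop

end Pool.Agent.Helper5.TL.Nil
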