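import Pool.Agent.Helper5.TL.Build
import Pool.Agent.Helper5.TL.Growth
import Pool.Agent.Helper3.TL.Malcev
import Pool.Agent.Helper5.TL.NilWt
import Pool.Agent.Helper17.TL.Sep

/-!
# The dichotomy for representations over algebraically closed fields
-/

namespace Pool.Agent.Helper5.TL

open Module NNReal
open scoped Pointwise

universe u v

/-- There are many words: a free semigroup of rank two in `S ^ l`, `l ≤ s`. -/
def HasWords {G : Type*} [Group G] [DecidableEq G] (S : Finset G) (s : ℕ) : Prop :=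
  ∃ l, 0 < l ∧ l ≤ s ∧ ∀ n : ℕ, 2 ^ n ≤ ((S ^ l) ^ n).card

variable {k : Type u} {G : Type*} {V : Type v} [Field k] [Group G] [AddCommGroup V] [Module k V]

theorem words_of_data [IsAlgClosed k] [DecidableEq G] (S : Finset G)
    (hS : Subgroup.closure (S : Set G) = ⊤) (ρ : G →* Module.End k V) (D : AffData ρ) :
    ∃ (s : ℕ) (g : G) (x y : k), 4 * s ≤ finrank k V ^ 2 ∧ (ρ g).HasEigenvalue x ∧
      (ρ g).HasEigenvalue y ∧ (∀ n, 0 < n → (x / y) ^ n ≠ 1) ∧
      (∀ (Γ₀ : Type u) (_ : LinearOrderedCommGroupWithZero Γ₀) (v : Valuation k Γ₀),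
        v (x / y) ≠ 1 → HasWords S (3 * (2 * s - 1))) ∧
      ∀ (τ : k →+* ℂ) (m : ℕ), 1 ≤ m → 4 ≤ (max ‖τ (x / y)‖ ‖τ (x / y)‖⁻¹) ^ m →
        HasWords S ((2 * m + 1) * (2 * s - 1)) := by
  classical
  obtain ⟨G₁, fi, index_le, N, nN, fN, L, iL, mL, fL, nL, A, b, hb, η, hη, nofix, nontors, E, hE,
    ratio⟩ := D
  choose x y hx hy hratio using ratio
  have hXf := gens_finite S G₁ (2 * G₁.index - 1)
  have hX := closure_gens S G₁ hS
  obtain ⟨z₀, hz₀, hz₀n⟩ := exists_nontorsion hXf hX hη nontors hE (fun g => x g / y g) hratio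
  refine ⟨G₁.index, z₀, x z₀, y z₀, index_le, hx z₀, hy z₀, hz₀n, ?_, ?_⟩
  · intro Γ₀ _ v hv
    obtain ⟨z, hz, w, hw, e, he, hwd⟩ := ultra_words hXf hX hη hb nofix hE
      (fun g => x g / y g) hratio v hz₀ hv
    exact growth_of_free S G₁ hz hw he hwd
  · intro τ m hm hv
    obtain ⟨z, hz, w, hw, e, he, hwd⟩ := arch_words hXf hX hη hb nofix hE
      (fun g => x g / y g) hratio τ hm hz₀ hv
    exact growth_of_free S G₁ hz hw he hwd

theorem flagC_map (ρ : G →* Module.End k V) (H : Subgroup G) (H' : Subgroup H)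
    (h : FlagC (ρ.comp H.subtype) H') : FlagC ρ (H'.map H.subtype) := by
  obtain ⟨m, F, c, h0, hm, hmono, hc⟩ := h
  let e : H' ≃* H'.map H.subtype := H'.equivMapOfInjective H.subtype H.subtype_injective
  refine ⟨m, F, fun i => (c i).comp e.symm.toMonoidHom, h0, hm, hmono, ?_⟩
  intro i g v hv
  have h1 := hc i (e.symm g) v hv
  have h2 : (((e.symm g : H') : H) : G) = g := by
    have h3 := congrArg (fun t : H'.map H.subtype => (t : G)) (e.apply_symm_apply g)
    exact h3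
  have h4 : (ρ.comp H.subtype) (e.symm g : H') = ρ g := by
    rw [← h2]; rfl
  rw [h4] at h1
  exact h1

theorem exists_data [IsAlgClosed k] [FiniteDimensional k V] (ρ : G →* Module.End k V)
    (hinj : Function.Injective ρ) (hsol : ∃ H : Subgroup G, H.FiniteIndex ∧ Group.IsSolvable H)
    (hnil : ¬ ∃ H : Subgroup G, H.FiniteIndex ∧ Group.IsNilpotent H) :
    Nonempty (AffData ρ) := by
  obtain ⟨H, hHf, hHs⟩ := hsol
  obtain ⟨H', hH'f, hflag⟩ := Pool.Agent.Helper3.TL.malcev (ρ.comp H.subtype)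
  have hflag' := flagC_map ρ H H' hflag
  have hfi : (H'.map H.subtype).FiniteIndex := by
    refine ⟨?_⟩
    rw [Subgroup.index_map_subtype]
    exact mul_ne_zero hH'f.index_ne_zero hHf.index_ne_zero
  obtain ⟨N, m, F, c, hNn, hNf, hF⟩ := Pool.Agent.Helper17.TL.exists_flagC2 ρ _ hflag'
  obtain ⟨n₀, hn₀⟩ := Pool.Agent.Helper17.TL.exists_separating ρ N hF
  refine exists_affData ρ hF hn₀ ?_
  intro htop
  apply hnil
  refine ⟨N, hNf, Pool.Agent.Helper5.TL.Nil.nilpotent_of_wt_top ρ hinj N ?_ htop⟩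
  exact ⟨m, F, c, hF.1, hF.2.1, hF.2.2.1, hF.2.2.2.1⟩

end Pool.Agent.Helper5.TL
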