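import Pool.Agent.Helper5.TL.BuildQ
import Pool.Agent.Helper5.TL.Wrap
import Pool.Agent.Helper11.Gap.Polycyclic

/-!
# Linear groups that are not virtually polycyclic
-/

namespace Pool.Agent.Helper5.TL

open Module NNReal Filter Topology
open scoped Pointwise

universe u v

/-- ultrametric case, second version -/
theorem ultra_words' {k : Type u} {G : Type*} {L : Type v} [Field k] [Group G] [AddCommGroup L]
    [Module k L] [IsAlgClosed k] [FiniteDimensional k L] [Nontrivial L] {X : Set G}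
    (hXf : X.Finite) (hX : Subgroup.closure X = ⊤) {A : G →* Module.End k L} {N : Subgroup G}
    [N.Normal] [N.FiniteIndex] {η : N → k}
    (hη : ∀ n : N, ∀ x, A n x = η n • x) {b : G → L} (hb : Cocycle A b)
    (nofix : ∀ x : L, ∃ n : N, aff A b n x ≠ x)
    {Γ₀ : Type*} [LinearOrderedCommGroupWithZero Γ₀] (v : Valuation k Γ₀)
    (hv : ∃ n : N, v (η n) ≠ 1) :
    ∃ z ∈ X, ∃ y ∈ X, ∃ e : Bool → G, Free₂ e ∧ ∀ i, IsWd z y 1 (e i) := by
  obtain ⟨σ⟩ := exists_simNorm (fun a b : Γ₀ => max a b) (fun a b c d h h' => max_le_max h h')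
    (fun c a b => by
      rcases le_total a b with h | h
      · rw [max_eq_right h, max_eq_right (mul_le_mul_right h c)]
      · rw [max_eq_left h, max_eq_left (mul_le_mul_right h c)])
    v.toMonoidWithZeroHom (fun x y => v.map_add x y) (fun x => v.map_neg x) A N η hη
  have hz₀ : ∃ z₀ ∈ X, σ.r z₀ ≠ 1 := by
    by_contra hcon
    push Not at hcon
    have key : ∀ g ∈ Subgroup.closure X, σ.r g = 1 := by
      intro g h
      induction h using Subgroup.closure_induction with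
      | mem x hx => exact hcon x hx
      | one => exact σ.r_one
      | mul x y _ _ hx hy => rw [σ.r_mul, hx, hy, one_mul]
      | inv x _ hx => rw [σ.r_inv, hx, inv_one]
    obtain ⟨n, hn⟩ := hv
    apply hn
    have h1 := σ.r_N n
    rw [key n (by rw [hX]; exact Subgroup.mem_top _)] at h1
    exact h1.symm
  obtain ⟨z₀, hz₀, hz₀1⟩ := hz₀
  obtain ⟨z, hz, hmax⟩ := Set.exists_max_image X (fun g => max (σ.r g) (σ.r g)⁻¹) hXf ⟨z₀, hz₀⟩
  have hz1 : σ.r z ≠ 1 := by
    intro h1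
    have h2 := hmax z₀ hz₀
    simp only [h1, inv_one, max_self] at h2
    have h3 := max_le_iff.1 h2
    apply hz₀1
    apply le_antisymm h3.1
    exact (inv_le_one₀ (zero_lt_iff.2 (σ.r_ne z₀))).1 h3.2
  obtain ⟨p, hp⟩ := σ.exists_fix (b := b) z hz1
  obtain ⟨n, hn⟩ := nofix p
  obtain ⟨y, hy, hyp⟩ := exists_move hX hb p ⟨n, hn⟩
  have hzpos : 0 < σ.r z := zero_lt_iff.2 (σ.r_ne z)
  have hypos : 0 < σ.r y := zero_lt_iff.2 (σ.r_ne y)
  have hy' := hmax y hy
  obtain ⟨e, he, hw⟩ := ultra_free σ hb z y p hp hyp hz1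
    (by
      intro hlt
      have h1 : max (σ.r z) (σ.r z)⁻¹ = (σ.r z)⁻¹ :=
        max_eq_right (hlt.le.trans (one_le_inv₀ hzpos |>.2 hlt.le))
      have h2 : σ.r y ≤ (σ.r z)⁻¹ := by
        rw [← h1]; exact (le_max_left _ _).trans hy'
      calc σ.r y * σ.r z ≤ (σ.r z)⁻¹ * σ.r z := mul_le_mul_left h2 _
        _ = 1 := inv_mul_cancel₀ (σ.r_ne z))
    (by
      intro hgt
      have h1 : max (σ.r z) (σ.r z)⁻¹ = σ.r z :=
        max_eq_left ((inv_le_one₀ hzpos |>.2 hgt.le).trans hgt.le)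
      have h2 : (σ.r y)⁻¹ ≤ σ.r z := by
        rw [← h1]; exact (le_max_right _ _).trans hy'
      calc (1 : Γ₀) = σ.r y * (σ.r y)⁻¹ := (mul_inv_cancel₀ (σ.r_ne y)).symm
        _ ≤ σ.r y * σ.r z := mul_le_mul_right h2 _)
  exact ⟨z, hz, y, hy, e, he, hw⟩

variable {k : Type u} {G : Type*} {V : Type v} [Field k] [Group G] [AddCommGroup V] [Module k V]

theorem words_of_dataQ [IsAlgClosed k] [DecidableEq G] (S : Finset G)
    (hS : Subgroup.closure (S : Set G) = ⊤) (ρ : G →* Module.End k V) (D : AffDataQ ρ) :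
    ∃ (s : ℕ), 4 * s ≤ finrank k V ^ 2 ∧ HasWords S (3 * (2 * s - 1)) := by
  classical
  obtain ⟨G₁, fi, index_le, N, nN, fN, L, iL, mL, fL, nL, A, b, hb, η, hη, nofix, n₁, hn₁⟩ := D
  have hXf := gens_finite S G₁ (2 * G₁.index - 1)
  have hX := closure_gens S G₁ hS
  refine ⟨G₁.index, index_le, ?_⟩
  obtain ⟨Γ₀, _, v, hv⟩ := Pool.Agent.Helper16.TL.exists_valuation_ne_one (η n₁)
    (fun h => hn₁ (by rw [h]; exact isIntegral_zero)) (fun h => hn₁ h.1)
  obtain ⟨z, hz, w, hw, e, he, hwd⟩ := ultra_words' hXf hX hη hb nofix v ⟨n₁, hv⟩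
  exact growth_of_free S G₁ hz hw he hwd

/-- If the blocks span then the hypotheses of the polycyclicity lemma hold. -/
theorem blocks_of_top [FiniteDimensional k V] (ρ : G →* Module.End k V)
    (N : Subgroup G) {m : ℕ} {F : ℕ → Submodule k V}
    {c : ℕ → N →* k} (hF : FlagC2 ρ N m F c) (htop : gd ρ N = ⊤) :
    ∃ X : Finset (Cl k N), (⨆ j : X, WQ ρ j.1) = ⊤ ∧
      ∀ j : X, ∀ i < m, ¬ WQ ρ j.1 ⊓ F (i + 1) ≤ F i →
        ∀ n : N, IsIntegral ℤ (c i n * (Quotient.out j.1) n⁻¹) := by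
  classical
  set X : Finset (Cl k N) := (Finset.range m).image (fun i => cl (c i)) with hX
  have hzero : ∀ q, q ∉ X → WQ ρ q = ⊥ := by
    intro q hq
    by_contra hne
    obtain ⟨i, hi, w, hw, hw0, he⟩ := exists_eigen_mod ρ hF ⊥ (WQ ρ q) (WQ_inv ρ q)
      (fun hle => hne (le_bot_iff.1 hle))
    have h1 : cl (c i) = q := (cls_VP ρ _).2 ⊥ (NInv.bot ρ) w hw hw0 _ he
    exact hq (Finset.mem_image.2 ⟨i, Finset.mem_range.2 hi, h1⟩)
  have hFinv : ∀ i, NInv ρ N (F i) := by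
    intro i
    obtain ⟨h0, hm, hmono, hfl, -⟩ := hF
    cases i with
    | zero =>
      rw [h0]
      exact NInv.bot ρ
    | succ i =>
      intro n v hv
      have h1 := (F (i + 1)).add_mem (hmono i (hfl i n v hv)) ((F (i + 1)).smul_mem (c i n) hv)
      rwa [sub_add_cancel] at h1
  refine ⟨X, ?_, ?_⟩
  · rw [← htop]
    apply le_antisymm
    · exact iSup_le (fun j => WQ_le_gd ρ j.1)
    · rw [gd]
      apply iSup_le
      intro q
      by_cases hq : q ∈ X
      · exact le_iSup (fun j : X => WQ ρ j.1) ⟨q, hq⟩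
      · rw [hzero q hq]; exact bot_le
  · intro j i _ hne
    obtain ⟨v, hv, hvF⟩ := Set.not_subset.1 hne
    have h1 : cl (c i) = j.1 := (cls_VP ρ (fun φ => cl φ = j.1)).2 (F i) (hFinv i) v hv.1 hvF (c i)
      (fun n => hF.2.2.2.1 i n v hv.2)
    have h2 : cl (Quotient.out j.1) = j.1 := Quotient.out_eq j.1
    exact cl_eq.1 (h1.trans h2.symm)

end Pool.Agent.Helper5.TL
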