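import Mathlib

/-!
# Linear groups: definitions for the polynomial growth gap
-/

namespace Pool.Agent.Helper5.TL

universe u

/-- `H` acts triangularly on `V`: there is a flag of subspaces with `H` acting by a character on
each step. -/
def FlagC {k : Type u} {G V : Type*} [Field k] [Group G] [AddCommGroup V] [Module k V]
    (ρ : G →* Module.End k V) (H : Subgroup G) : Prop :=
  ∃ (m : ℕ) (F : ℕ → Submodule k V) (c : ℕ → H →* k), F 0 = ⊥ ∧ F m = ⊤ ∧
    (∀ i, F i ≤ F (i + 1)) ∧
    ∀ i, ∀ h : H, ∀ v ∈ F (i + 1), ρ h v - c i h • v ∈ F i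

/-- A flag with characters `c i` of `N` such that distinct characters are not even equal on a
subgroup of finite exponent quotient. -/
def FlagC2 {k : Type u} {G V : Type*} [Field k] [Group G] [AddCommGroup V] [Module k V]
    (ρ : G →* Module.End k V) (N : Subgroup G) (m : ℕ) (F : ℕ → Submodule k V)
    (c : ℕ → N →* k) : Prop :=
  F 0 = ⊥ ∧ F m = ⊤ ∧ (∀ i, F i ≤ F (i + 1)) ∧
    (∀ i, ∀ h : N, ∀ v ∈ F (i + 1), ρ h v - c i h • v ∈ F i) ∧
    ∀ i < m, ∀ j < m, c i ≠ c j → ∀ M, 0 < M → ∃ n : N, c i n ^ M ≠ c j n ^ M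

/-- The weight space of a character `χ` of `N`. -/
def wt {k : Type u} {G V : Type*} [Field k] [Group G] [AddCommGroup V] [Module k V]
    (ρ : G →* Module.End k V) (N : Subgroup G) (χ : N →* k) : Submodule k V :=
  ⨅ n : N, (ρ n).maxGenEigenspace (χ n)

end Pool.Agent.Helper5.TL
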