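import Pool.Agent.Helper5.TL.Core
import Pool.Agent.Helper16.TL.Fields
import Pool.Agent.Helper78.TL.Place
import Pool.Agent.Helper84.TL.Degree
import Pool.Agent.Helper2.Gap.Growth

/-!
# The growth gap for virtually soluble linear groups with polynomial constants
-/

namespace Pool.Agent.Helper5.TL

open Module NNReal Filter Topology
open scoped Pointwise

universe u v

/-- The matrix representation over an extension field. -/
noncomputable def matRep {G F : Type*} (k : Type*) [Group G] [Field F] [Field k] [Algebra F k]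
    {d : ℕ} (φ : G →* GL (Fin d) F) : G →* Module.End k (Fin d → k) :=
  ((Matrix.toLinAlgEquiv' (R := k) (n := Fin d)).toAlgHom.toRingHom.toMonoidHom.comp
    ((algebraMap F k).mapMatrix (m := Fin d)).toMonoidHom).comp
      ((Units.coeHom (Matrix (Fin d) (Fin d) F)).comp φ)

theorem matRep_apply {G F : Type*} (k : Type*) [Group G] [Field F] [Field k] [Algebra F k]
    {d : ℕ} (φ : G →* GL (Fin d) F) (g : G) :
    matRep k φ g = Matrix.toLin' ((φ g : Matrix (Fin d) (Fin d) F).map (algebraMap F k)) := rfl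

theorem matRep_injective {G F : Type*} (k : Type*) [Group G] [Field F] [Field k] [Algebra F k]
    {d : ℕ} (φ : G →* GL (Fin d) F) (hφ : Function.Injective φ) :
    Function.Injective (matRep k φ) := by
  intro g h hgh
  rw [matRep_apply, matRep_apply] at hgh
  have h1 := Matrix.toLin'.injective hgh
  have h2 := Matrix.map_injective (algebraMap F k).injective h1
  exact hφ (Units.ext h2)

theorem isRoot_of_eigenvalue {G F : Type*} (k : Type*) [Group G] [Field F] [Field k] [Algebra F k]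
    {d : ℕ} (φ : G →* GL (Fin d) F) (g : G) {x : k} (hx : (matRep k φ g).HasEigenvalue x) :
    (((φ g : Matrix (Fin d) (Fin d) F).map (algebraMap F k)).charpoly).IsRoot x := by
  rw [matRep_apply] at hx
  have := (Module.End.hasEigenvalue_iff_isRoot_charpoly _ _).1 hx
  rwa [Matrix.charpoly_toLin'] at this

theorem eigenvalue_ne_zero {k G V : Type*} [Field k] [Group G] [AddCommGroup V] [Module k V]
    (ρ : G →* Module.End k V) {g : G} {x : k} (hx : (ρ g).HasEigenvalue x) : x ≠ 0 := by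
  rintro rfl
  obtain ⟨v, hv⟩ := hx.exists_hasEigenvector
  rw [Module.End.hasEigenvector_iff, Module.End.mem_eigenspace_iff, zero_smul] at hv
  apply hv.2
  rw [← rho_inv_apply' ρ g v, hv.1, map_zero]

/-- characteristic `p` -/
theorem words_charP {G : Type*} [Group G] [DecidableEq G] (S : Finset G)
    (hS : Subgroup.closure (S : Set G) = ⊤) {F : Type u} [Field F] (p : ℕ) [Fact p.Prime]
    [CharP F p] {d : ℕ} (φ : G →* GL (Fin d) F) (hφ : Function.Injective φ)
    (hsol : ∃ H : Subgroup G, H.FiniteIndex ∧ Group.IsSolvable H)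
    (hnil : ¬ ∃ H : Subgroup G, H.FiniteIndex ∧ Group.IsNilpotent H) :
    ∃ l, 0 < l ∧ 2 * l ≤ 3 * d ^ 2 ∧ ∀ n : ℕ, 2 ^ n ≤ ((S ^ l) ^ n).card := by
  let k := AlgebraicClosure F
  have : CharP k p := charP_of_injective_algebraMap (algebraMap F k).injective p
  obtain ⟨D⟩ := exists_data (matRep k φ) (matRep_injective k φ hφ) hsol hnil
  obtain ⟨s, g, x, y, hs, hx, hy, hroot, hv, -⟩ := words_of_data S hS _ D
  have hxy : x / y ≠ 0 := div_ne_zero (eigenvalue_ne_zero _ hx) (eigenvalue_ne_zero _ hy)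
  obtain ⟨Γ₀, _, v, hv1⟩ := Pool.Agent.Helper16.TL.exists_valuation_ne_one (x / y) hxy (by
    rintro ⟨h1, -⟩
    obtain ⟨n, hn, hn1⟩ := Pool.Agent.Helper16.TL.pow_eq_one_of_isIntegral_charP p _ hxy h1
    exact hroot n hn hn1)
  obtain ⟨l, hl, hls, hw⟩ := hv Γ₀ _ v hv1
  refine ⟨l, hl, ?_, hw⟩
  rw [finrank_fin_fun] at hs
  omega

/-- words of length at most half of `B` -/
def HasWords2 {G : Type*} [Group G] [DecidableEq G] (S : Finset G) (B : ℕ) : Prop :=
  ∃ l, 0 < l ∧ 2 * l ≤ B ∧ ∀ n : ℕ, 2 ^ n ≤ ((S ^ l) ^ n).card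

/-- characteristic zero -/
theorem words_char0 {G : Type*} [Group G] [DecidableEq G] (S : Finset G)
    (hS : Subgroup.closure (S : Set G) = ⊤) {F : Type u} [Field F] [CharZero F] [Countable F]
    {d : ℕ} (φ : G →* GL (Fin d) F) (hφ : Function.Injective φ)
    (hsol : ∃ H : Subgroup G, H.FiniteIndex ∧ Group.IsSolvable H)
    (hnil : ¬ ∃ H : Subgroup G, H.FiniteIndex ∧ Group.IsNilpotent H) :
    0 < d ∧ ∃ (g : G) (x y : AlgebraicClosure F),
      (((φ g : Matrix (Fin d) (Fin d) F).map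
        (algebraMap F (AlgebraicClosure F))).charpoly).IsRoot x ∧
      (((φ g : Matrix (Fin d) (Fin d) F).map
        (algebraMap F (AlgebraicClosure F))).charpoly).IsRoot y ∧
      x / y ≠ 0 ∧ (∀ n, 0 < n → (x / y) ^ n ≠ 1) ∧
      (¬ (IsIntegral ℤ (x / y) ∧ IsIntegral ℤ (x / y)⁻¹) → HasWords2 S (3 * d ^ 2)) ∧
      (IsIntegral ℤ (x / y) ∧ IsIntegral ℤ (x / y)⁻¹ → ∀ (z : ℂ) (m : ℕ),
        Polynomial.aeval z (minpoly ℚ (x / y)) = 0 → 1 ≤ m → 4 ≤ (max ‖z‖ ‖z‖⁻¹) ^ m →
          HasWords2 S ((2 * m + 1) * d ^ 2)) := by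
  let k := AlgebraicClosure F
  have : CharZero k := charZero_of_injective_algebraMap (algebraMap F k).injective
  have : Countable k := Pool.Agent.Helper16.TL.countable_algebraicClosure F
  obtain ⟨D'⟩ := exists_data (matRep k φ) (matRep_injective k φ hφ) hsol hnil
  obtain ⟨s, g, x, y, hs, hx, hy, hroot, hv, hτ⟩ := words_of_data S hS _ D'
  have hxy : x / y ≠ 0 := div_ne_zero (eigenvalue_ne_zero _ hx) (eigenvalue_ne_zero _ hy)
  rw [finrank_fin_fun] at hs
  have hd : 0 < d := by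
    rcases Nat.eq_zero_or_pos d with h | h
    · exfalso
      subst h
      obtain ⟨v, hv, hv0⟩ := hx.exists_hasEigenvector
      exact hv0 (Subsingleton.elim _ _)
    · exact h
  have h3 : 2 * (2 * s - 1) ≤ d ^ 2 := by omega
  refine ⟨hd, g, x, y, isRoot_of_eigenvalue k φ g hx, isRoot_of_eigenvalue k φ g hy, hxy, hroot,
    ?_, ?_⟩
  · intro hint
    obtain ⟨Γ₀, _, v, hv1⟩ := Pool.Agent.Helper16.TL.exists_valuation_ne_one (x / y) hxy hint
    obtain ⟨l, hl, hls, hw⟩ := hv Γ₀ _ v hv1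
    refine ⟨l, hl, ?_, hw⟩
    calc 2 * l ≤ 3 * (2 * (2 * s - 1)) := by omega
      _ ≤ 3 * d ^ 2 := Nat.mul_le_mul_left _ h3
  · intro hint z m hz hm hzm
    obtain ⟨τ, hτz⟩ := Pool.Agent.Helper78.TL.exists_embedding_root (x / y) hint.1.tower_top z hz
    obtain ⟨l, hl, hls, hw⟩ := hτ τ m hm (by rw [hτz]; exact hzm)
    refine ⟨l, hl, ?_, hw⟩
    calc 2 * l ≤ 2 * ((2 * m + 1) * (2 * s - 1)) := by omega
      _ = (2 * m + 1) * (2 * (2 * s - 1)) := by ring
      _ ≤ _ := Nat.mul_le_mul_left _ h3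

/-- The archimedean place in terms of roots of the minimal polynomial. -/
theorem exists_big_root {k : Type u} [Field k] [CharZero k] [Countable k] (θ : k)
    (h1 : IsIntegral ℤ θ) (h2 : IsIntegral ℤ θ⁻¹) (hθ : θ ≠ 0)
    (hroot : ∀ n, 0 < n → θ ^ n ≠ 1) :
    ∃ z : ℂ, Polynomial.aeval z (minpoly ℚ θ) = 0 ∧
      2 ≤ ‖z‖ ^ (16 * (minpoly ℚ θ).natDegree ^ 2) := by
  obtain ⟨τ, hτ⟩ := Pool.Agent.Helper78.TL.exists_arch_place θ _ h1 h2 hθ le_rfl hroot
  refine ⟨τ θ, ?_, hτ⟩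
  have h3 : Polynomial.aeval θ (minpoly ℚ θ) = 0 := minpoly.aeval ℚ θ
  have h4 := congrArg τ h3
  rw [map_zero, Polynomial.aeval_def, Polynomial.hom_eval₂] at h4
  rw [Polynomial.aeval_def]
  rw [← h4]
  congr 1
  exact Subsingleton.elim _ _

end Pool.Agent.Helper5.TL
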