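import Mathlib

/-!
# A norm for which a finite extension of a group of scalars acts by similarities
-/

namespace Pool.Agent.Helper5.TL

open Module

variable {k L G Γ₀ : Type*} [Field k] [IsAlgClosed k] [AddCommGroup L] [Module k L]
  [FiniteDimensional k L] [Nontrivial L] [Group G] [LinearOrderedCommGroupWithZero Γ₀]

/-- Data of a norm for which `G` acts by similarities of ratio `r`. -/
structure SimNorm (op : Γ₀ → Γ₀ → Γ₀) (V : k →*₀ Γ₀) (A : G →* Module.End k L)
    (N : Subgroup G) (η : N → k) where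
  r : G → Γ₀
  ν : L → Γ₀
  r_mul : ∀ g h, r (g * h) = r g * r h
  r_ne : ∀ g, r g ≠ 0
  r_N : ∀ n : N, r n = V (η n)
  ν_zero : ∀ x, ν x = 0 ↔ x = 0
  ν_add : ∀ x y, ν (x + y) ≤ op (ν x) (ν y)
  ν_neg : ∀ x, ν (-x) = ν x
  ν_act : ∀ g x, ν (A g x) = r g * ν x

omit [FiniteDimensional k L] [Nontrivial L] in
/-- The sup norm with respect to a basis. -/
theorem exists_supNorm {ι : Type*} [Fintype ι] [Nonempty ι] (b : Basis ι k L)
    (op : Γ₀ → Γ₀ → Γ₀) (hop : ∀ a b c d, a ≤ c → b ≤ d → op a b ≤ op c d)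
    (V : k →*₀ Γ₀) (hV : ∀ x y, V (x + y) ≤ op (V x) (V y)) (hneg : ∀ x, V (-x) = V x) :
    ∃ ν : L → Γ₀, (∀ x, ν x = 0 ↔ x = 0) ∧ (∀ x y, ν (x + y) ≤ op (ν x) (ν y)) ∧
      (∀ x, ν (-x) = ν x) ∧ ∀ (c : k) x, ν (c • x) = V c * ν x := by
  classical
  let ν : L → Γ₀ := fun x => Finset.univ.sup' Finset.univ_nonempty (fun i => V (b.repr x i))
  have hle : ∀ x i, V (b.repr x i) ≤ ν x := fun x i =>
    Finset.le_sup' (fun i => V (b.repr x i)) (Finset.mem_univ i)
  have hsup : ∀ x c, ν x ≤ c ↔ ∀ i, V (b.repr x i) ≤ c := by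
    intro x c
    simp only [ν, Finset.sup'_le_iff, Finset.mem_univ, true_imp_iff]
  refine ⟨ν, ?_, ?_, ?_, ?_⟩
  · intro x
    constructor
    · intro h
      apply b.repr.map_eq_zero_iff.1
      ext i
      have h1 := hle x i
      rw [h, le_zero_iff] at h1
      simpa using h1
    · rintro rfl
      rw [← le_zero_iff, hsup]
      intro i
      simp
  · intro x y
    rw [hsup]
    intro i
    rw [map_add, Finsupp.add_apply]
    exact (hV _ _).trans (hop _ _ _ _ (hle x i) (hle y i))
  · intro x
    simp only [ν, map_neg, Finsupp.neg_apply, hneg]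
  · intro c x
    apply le_antisymm
    · rw [hsup]
      intro i
      rw [map_smul, Finsupp.smul_apply, smul_eq_mul, map_mul]
      exact mul_le_mul_right (hle x i) _
    · rcases eq_or_ne (V c) 0 with h0 | h0
      · rw [h0, zero_mul]; exact zero_le
      · rw [← le_inv_mul_iff₀ (zero_lt_iff.2 h0), hsup]
        intro i
        rw [le_inv_mul_iff₀ (zero_lt_iff.2 h0)]
        have := hle (c • x) i
        rwa [map_smul, Finsupp.smul_apply, smul_eq_mul, map_mul] at this

theorem exists_simNorm (op : Γ₀ → Γ₀ → Γ₀) (hop : ∀ a b c d, a ≤ c → b ≤ d → op a b ≤ op c d)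
    (hmul : ∀ c a b, c * op a b = op (c * a) (c * b))
    (V : k →*₀ Γ₀) (hV : ∀ x y, V (x + y) ≤ op (V x) (V y)) (hneg : ∀ x, V (-x) = V x)
    (A : G →* Module.End k L) (N : Subgroup G) [N.Normal] [N.FiniteIndex] (η : N → k)
    (hη : ∀ n : N, ∀ x, A n x = η n • x) :
    Nonempty (SimNorm op V A N η) := by
  classical
  have hfr : 0 < finrank k L := finrank_pos
  have : Nonempty (Fin (finrank k L)) := Fin.pos_iff_nonempty.1 hfr
  obtain ⟨ν, h0, hadd, hng, hsm⟩ := exists_supNorm (finBasis k L) op hop V hV hneg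
  have hdet : ∀ g, ∃ β : k, β ^ finrank k L = LinearMap.det (A g) := fun g =>
    IsAlgClosed.exists_pow_nat_eq _ hfr
  choose β hβ using hdet
  set r : G → Γ₀ := fun g => V (β g) with hr
  have hrpow : ∀ g, r g ^ finrank k L = V (LinearMap.det (A g)) := by
    intro g
    rw [← hβ g, map_pow]
  have hinj : ∀ a b : Γ₀, a ^ finrank k L = b ^ finrank k L → a = b := by
    intro a b h
    exact (pow_left_inj₀ zero_le zero_le hfr.ne').1 h
  have hrmul : ∀ g h, r (g * h) = r g * r h := by
    intro g h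
    apply hinj
    rw [mul_pow, hrpow, hrpow, hrpow, map_mul, map_mul, map_mul]
  have hr1 : r 1 = 1 := by
    apply hinj
    rw [hrpow, map_one, map_one, map_one, one_pow]
  have hrinv : ∀ g, r g * r g⁻¹ = 1 := by
    intro g
    rw [← hrmul, mul_inv_cancel, hr1]
  have hrne : ∀ g, r g ≠ 0 := by
    intro g h
    have := hrinv g
    rw [h, zero_mul] at this
    exact zero_ne_one this
  have hrN : ∀ n : N, r n = V (η n) := by
    intro n
    apply hinj
    rw [hrpow, ← map_pow]
    congr 1
    have : A n = η n • (LinearMap.id : L →ₗ[k] L) := by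
      ext x
      rw [hη]
      rfl
    rw [this, LinearMap.det_smul, LinearMap.det_id, mul_one]
  set f : L → G → Γ₀ := fun x g => (r g)⁻¹ * ν (A g x) with hf
  have hfN : ∀ x (n : N) g, f x (n * g) = f x g := by
    intro x n g
    simp only [hf]
    rw [hrmul, map_mul, Module.End.mul_apply, hη, hsm, hrN, mul_inv]
    have : V (η n) ≠ 0 := by rw [← hrN]; exact hrne _
    field_simp
  have : Fintype (G ⧸ N) := Fintype.ofFinite _
  let νn : L → Γ₀ := fun x => Finset.univ.sup' Finset.univ_nonempty
    (fun q : G ⧸ N => f x (Quotient.out q))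
  have hle : ∀ x g, f x g ≤ νn x := by
    intro x g
    have h1 : (Quotient.out (QuotientGroup.mk g : G ⧸ N) : G)⁻¹ * g ∈ N := by
      rw [← QuotientGroup.eq]
      exact Quotient.out_eq _
    have h2 := (inferInstance : N.Normal).conj_mem _ h1 (Quotient.out (QuotientGroup.mk g : G ⧸ N))
    have h3 := hfN x ⟨_, h2⟩ (Quotient.out (QuotientGroup.mk g : G ⧸ N))
    have h4 : (Quotient.out (QuotientGroup.mk g : G ⧸ N) : G) *
        ((Quotient.out (QuotientGroup.mk g : G ⧸ N))⁻¹ * g) *
        (Quotient.out (QuotientGroup.mk g : G ⧸ N))⁻¹ *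
        (Quotient.out (QuotientGroup.mk g : G ⧸ N)) = g := by group
    simp only [h4] at h3
    rw [h3]
    exact Finset.le_sup' (fun q : G ⧸ N => f x (Quotient.out q)) (Finset.mem_univ _)
  have hsup : ∀ x c, (∀ g, f x g ≤ c) → νn x ≤ c := by
    intro x c h
    apply Finset.sup'_le
    intro q _
    exact h _
  have hact : ∀ g x, νn (A g x) ≤ r g * νn x := by
    intro g x
    apply hsup
    intro h
    have : f (A g x) h = r g * f x (h * g) := by
      simp only [hf]
      rw [hrmul, map_mul, Module.End.mul_apply, mul_inv]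
      have := hrne g
      field_simp
    rw [this]
    exact mul_le_mul_right (hle _ _) _
  refine ⟨⟨r, νn, hrmul, hrne, hrN, ?_, ?_, ?_, ?_⟩⟩
  · intro x
    constructor
    · intro h
      have h1 := hle x 1
      rw [h, le_zero_iff] at h1
      simp only [hf, hr1, inv_one, one_mul, map_one, Module.End.one_apply] at h1
      exact (h0 x).1 h1
    · rintro rfl
      rw [← le_zero_iff]
      apply hsup
      intro g
      simp only [hf, map_zero]
      rw [(h0 0).2 rfl, mul_zero]
  · intro x y
    apply hsup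
    intro g
    calc f (x + y) g ≤ (r g)⁻¹ * op (ν (A g x)) (ν (A g y)) := by
          simp only [hf, map_add]
          exact mul_le_mul_right (hadd _ _) _
      _ = op (f x g) (f y g) := by rw [hmul]
      _ ≤ _ := hop _ _ _ _ (hle x g) (hle y g)
  · intro x
    simp only [νn, hf, map_neg, hng]
  · intro g x
    apply le_antisymm (hact g x)
    have h1 := hact g⁻¹ (A g x)
    rw [← Module.End.mul_apply, ← map_mul, inv_mul_cancel, map_one, Module.End.one_apply] at h1
    calc r g * νn x ≤ r g * (r g⁻¹ * νn (A g x)) := mul_le_mul_right h1 _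
      _ = νn (A g x) := by rw [← mul_assoc, hrinv, one_mul]

end Pool.Agent.Helper5.TL
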