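import Pool.Agent.Helper5.TL.Defs

/-!
# Weight spaces of a normal triangularizable subgroup
-/

namespace Pool.Agent.Helper5.TL

open Module

universe u v

variable {k : Type u} {G : Type*} {V : Type v} [Field k] [Group G] [AddCommGroup V] [Module k V]
  (ρ : G →* Module.End k V) (N : Subgroup G)

theorem rho_inv_apply (g : G) (v : V) : ρ g (ρ g⁻¹ v) = v := by
  rw [← Module.End.mul_apply, ← map_mul, mul_inv_cancel, map_one, Module.End.one_apply]

theorem rho_inv_apply' (g : G) (v : V) : ρ g⁻¹ (ρ g v) = v := by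
  rw [← Module.End.mul_apply, ← map_mul, inv_mul_cancel, map_one, Module.End.one_apply]

/-- Stabilizer of a character. -/
def stab [N.Normal] (χ : N →* k) : Subgroup G where
  carrier := {g | ∀ n : N, χ (MulAut.conjNormal g n) = χ n}
  one_mem' := fun n => by simp
  mul_mem' := by
    intro a b ha hb n
    rw [map_mul, MulAut.mul_apply, ha, hb]
  inv_mem' := by
    intro a ha n
    have := ha (MulAut.conjNormal a⁻¹ n)
    rw [← MulAut.mul_apply, ← map_mul, mul_inv_cancel, map_one, MulAut.one_apply] at this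
    exact this.symm

theorem mem_stab [N.Normal] {χ : N →* k} {g : G} :
    g ∈ stab N χ ↔ ∀ n : N, χ (MulAut.conjNormal g n) = χ n := Iff.rfl

theorem le_stab [N.Normal] (χ : N →* k) : N ≤ stab N χ := by
  intro g hg n
  have : MulAut.conjNormal g n = (⟨g, hg⟩ : N) * n * (⟨g, hg⟩ : N)⁻¹ := by
    ext
    simp [MulAut.conjNormal_apply]
  rw [this, map_mul, map_mul, mul_comm (χ ⟨g, hg⟩), mul_assoc, ← map_mul, mul_inv_cancel,
    map_one, mul_one]

/-- The conjugate character `n ↦ χ (g⁻¹ n g)`. -/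
def cg [N.Normal] (g : G) (χ : N →* k) : N →* k :=
  χ.comp (MulAut.conjNormal g⁻¹).toMonoidHom

theorem cg_apply [N.Normal] (g : G) (χ : N →* k) (n : N) :
    cg N g χ n = χ (MulAut.conjNormal g⁻¹ n) := rfl

theorem cg_eq_of_stab [N.Normal] {g : G} {χ : N →* k} (h : g ∈ stab N χ) : cg N g χ = χ := by
  ext n
  rw [cg_apply]
  exact (stab N χ).inv_mem h n

theorem stab_of_cg_eq [N.Normal] {g h : G} {χ : N →* k} (e : cg N g χ = cg N h χ) :
    g⁻¹ * h ∈ stab N χ := by
  intro n
  have h1 := DFunLike.congr_fun e (MulAut.conjNormal h n)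
  rw [cg_apply, cg_apply, ← MulAut.mul_apply, ← MulAut.mul_apply, ← map_mul, ← map_mul,
    inv_mul_cancel, map_one, MulAut.one_apply] at h1
  exact h1

/-- intertwining -/
theorem rho_comm [N.Normal] (g : G) (n : N) (v : V) :
    ρ n (ρ g v) = ρ g (ρ (MulAut.conjNormal g⁻¹ n : N) v) := by
  rw [← Module.End.mul_apply, ← Module.End.mul_apply, ← map_mul, ← map_mul,
    MulAut.conjNormal_apply]
  congr 2
  group

theorem rho_sub_pow [N.Normal] (g : G) (n : N) (a : k) (l : ℕ) (v : V) :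
    ((ρ n - a • (1 : Module.End k V)) ^ l) (ρ g v) =
      ρ g (((ρ (MulAut.conjNormal g⁻¹ n : N) - a • (1 : Module.End k V)) ^ l) v) := by
  induction l generalizing v with
  | zero => simp
  | succ l ih =>
    rw [pow_succ, Module.End.mul_apply, pow_succ, Module.End.mul_apply, ← ih]
    congr 1
    rw [LinearMap.sub_apply, LinearMap.sub_apply, map_sub, rho_comm]
    simp

variable {N}

theorem mem_wt {χ : N →* k} {v : V} :
    v ∈ wt ρ N χ ↔ ∀ n : N, v ∈ (ρ n).maxGenEigenspace (χ n) := by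
  rw [wt, Submodule.mem_iInf]

theorem mem_maxGen {f : Module.End k V} {a : k} {v : V} :
    v ∈ f.maxGenEigenspace a ↔ ∃ l : ℕ, ((f - a • (1 : Module.End k V)) ^ l) v = 0 := by
  rw [Module.End.mem_maxGenEigenspace]

theorem rho_mem_wt [N.Normal] {χ : N →* k} {v : V} (hv : v ∈ wt ρ N χ) (g : G) :
    ρ g v ∈ wt ρ N (cg N g χ) := by
  rw [mem_wt] at hv ⊢
  intro n
  obtain ⟨l, hl⟩ := mem_maxGen.1 (hv (MulAut.conjNormal g⁻¹ n))
  rw [mem_maxGen]
  refine ⟨l, ?_⟩
  rw [cg_apply, rho_sub_pow, hl, map_zero]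

theorem rho_mem_wt_of_stab [N.Normal] {χ : N →* k} {v : V} (hv : v ∈ wt ρ N χ) {g : G}
    (hg : g ∈ stab N χ) : ρ g v ∈ wt ρ N χ := by
  have := rho_mem_wt ρ hv g
  rwa [cg_eq_of_stab N hg] at this

/-- The sum of the weight spaces. -/
def good (N : Subgroup G) : Submodule k V := ⨆ χ : N →* k, wt ρ N χ

theorem wt_le_good (χ : N →* k) : wt ρ N χ ≤ good ρ N := le_iSup (fun χ => wt ρ N χ) χ

theorem rho_mem_good [N.Normal] {v : V} (hv : v ∈ good ρ N) (g : G) : ρ g v ∈ good ρ N := by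
  have : good ρ N ≤ (good ρ N).comap (ρ g) := by
    rw [good, iSup_le_iff]
    intro χ v hv
    exact wt_le_good ρ _ (rho_mem_wt ρ hv g)
  exact this hv

section flag

variable {m : ℕ} {F : ℕ → Submodule k V} {c : ℕ → N →* k}

/-- A character occurring modulo an invariant subspace is one of the `c i`. -/
theorem char_of_mod (hF : FlagC2 ρ N m F c) (U : Submodule k V)
    (hU : ∀ n : N, ∀ v ∈ U, ρ n v ∈ U) {χ : N →* k} {v : V} (hv : v ∉ U)
    (h : ∀ n : N, ρ n v - χ n • v ∈ U) : ∃ i < m, c i = χ := by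
  classical
  obtain ⟨h0, hm, hmono, hfl, -⟩ := hF
  -- the set of indices at which `span v + U` leaves `U`
  have hex : ∃ j, ∃ w ∈ F j, w ∉ U ∧ ∃ a : k, w - a • v ∈ U := by
    refine ⟨m, v, by rw [hm]; exact Submodule.mem_top, hv, 1, ?_⟩
    rw [one_smul, sub_self]
    exact U.zero_mem
  set j := Nat.find hex with hj
  obtain ⟨w, hw, hwU, a, ha⟩ := Nat.find_spec hex
  have hjm : j ≤ m := Nat.find_min' hex ⟨v, by rw [hm]; exact Submodule.mem_top, hv, 1, by
    rw [one_smul, sub_self]; exact U.zero_mem⟩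
  have hj0 : j ≠ 0 := by
    intro h
    rw [← hj, h, h0] at hw
    exact hwU (by rw [(Submodule.mem_bot k).1 hw]; exact U.zero_mem)
  obtain ⟨i, hi⟩ : ∃ i, j = i + 1 := ⟨j - 1, by omega⟩
  rw [← hj, hi] at hw
  refine ⟨i, by omega, ?_⟩
  ext n
  have h1 := hfl i n w hw
  have h2 : ρ n w - χ n • w ∈ U := by
    have e : ρ n w - χ n • w = (ρ n (w - a • v) - χ n • (w - a • v)) +
        a • (ρ n v - χ n • v) := by
      rw [map_sub, map_smul, smul_sub, smul_sub, smul_smul, smul_smul, mul_comm a]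
      abel
    rw [e]
    exact U.add_mem (U.sub_mem (hU n _ ha) (U.smul_mem _ ha)) (U.smul_mem _ (h n))
  by_contra hne
  -- `(χ n - c i n) w ∈ F i + U`
  set f := ρ n w - c i n • w with hf
  have hfU : f ∉ U := by
    intro hfu
    have e : (χ n - c i n) • w = f - (ρ n w - χ n • w) := by
      rw [hf, sub_smul]; abel
    have h3 : (χ n - c i n) • w ∈ U := by
      rw [e]; exact U.sub_mem hfu h2
    have hne' : χ n - c i n ≠ 0 := sub_ne_zero.2 (fun h => hne h.symm)
    exact hwU ((U.smul_mem_iff hne').1 h3)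
  have hlt : i < Nat.find hex := by rw [← hj, hi]; exact Nat.lt_succ_self i
  refine Nat.find_min hex hlt ⟨f, h1, hfU, (χ n - c i n) * a, ?_⟩
  have e : f - ((χ n - c i n) * a) • v = (ρ n w - χ n • w) + (χ n - c i n) • (w - a • v) := by
    rw [hf, smul_sub, smul_smul, sub_smul (χ n)]; abel
  rw [e]
  exact U.add_mem h2 (U.smul_mem _ ha)

/-- In an invariant subspace not contained in another one there is an eigenvector. -/
theorem exists_eigen_mod (hF : FlagC2 ρ N m F c) (U W : Submodule k V)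
    (hW : ∀ n : N, ∀ v ∈ W, ρ n v ∈ W) (hle : ¬ W ≤ U) :
    ∃ i < m, ∃ v ∈ W, v ∉ U ∧ ∀ n : N, ρ n v - c i n • v ∈ U := by
  classical
  obtain ⟨h0, hm, hmono, hfl, -⟩ := hF
  have hex : ∃ j, ∃ w ∈ F j, w ∈ W ∧ w ∉ U := by
    obtain ⟨w, hw, hwU⟩ := Set.not_subset.1 hle
    exact ⟨m, w, by rw [hm]; exact Submodule.mem_top, hw, hwU⟩
  set j := Nat.find hex with hj
  obtain ⟨w, hw, hwW, hwU⟩ := Nat.find_spec hex
  have hjm : j ≤ m := by
    obtain ⟨w, hw, hwU⟩ := Set.not_subset.1 hle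
    exact Nat.find_min' hex ⟨w, by rw [hm]; exact Submodule.mem_top, hw, hwU⟩
  have hj0 : j ≠ 0 := by
    intro h
    rw [← hj, h, h0] at hw
    exact hwU (by rw [(Submodule.mem_bot k).1 hw]; exact U.zero_mem)
  obtain ⟨i, hi⟩ : ∃ i, j = i + 1 := ⟨j - 1, by omega⟩
  rw [← hj, hi] at hw
  refine ⟨i, by omega, w, hwW, hwU, ?_⟩
  intro n
  by_contra hcon
  have hlt : i < Nat.find hex := by rw [← hj, hi]; exact Nat.lt_succ_self i
  exact Nat.find_min hex hlt ⟨_, hfl i n w hw, W.sub_mem (hW n _ hwW) (W.smul_mem _ hwW), hcon⟩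

/-- A generalized eigenvector that is an eigenvector modulo an invariant subspace. -/
theorem eq_of_gen_eigen {f : Module.End k V} (U : Submodule k V) (hU : ∀ v ∈ U, f v ∈ U)
    {a b : k} {v : V} (hv : v ∉ U) (h1 : v ∈ f.maxGenEigenspace a) (h2 : f v - b • v ∈ U) :
    b = a := by
  obtain ⟨l, hl⟩ := mem_maxGen.1 h1
  have key : ∀ l : ℕ, ((f - a • (1 : Module.End k V)) ^ l) v - (b - a) ^ l • v ∈ U := by
    intro l
    induction l with
    | zero => simp
    | succ l ih =>
      rw [pow_succ', Module.End.mul_apply]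
      set w := ((f - a • (1 : Module.End k V)) ^ l) v with hw
      have e : (f - a • (1 : Module.End k V)) w - (b - a) ^ (l + 1) • v =
          (f (w - (b - a) ^ l • v) - a • (w - (b - a) ^ l • v)) +
            (b - a) ^ l • (f v - b • v) := by
        rw [LinearMap.sub_apply, LinearMap.smul_apply, Module.End.one_apply, map_sub, map_smul,
          smul_sub, smul_sub, smul_smul, smul_smul, pow_succ, mul_sub, sub_smul,
          mul_comm a]
        abel
      rw [e]
      exact U.add_mem (U.sub_mem (hU _ ih) (U.smul_mem _ ih)) (U.smul_mem _ h2)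
  have h3 := key l
  rw [hl, zero_sub, Submodule.neg_mem_iff] at h3
  by_contra hne
  exact hv ((U.smul_mem_iff (pow_ne_zero l (sub_ne_zero.2 hne))).1 h3)

/-- A generalized eigenvector which is `b`-eigen modulo `U` for `b ≠ a` lies in `U`. -/
theorem mem_of_gen_eigen {f : Module.End k V} (U : Submodule k V) (hU : ∀ v ∈ U, f v ∈ U)
    {a b : k} {v : V} (h1 : v ∈ f.maxGenEigenspace a) (h2 : f v - b • v ∈ U) (hab : b ≠ a) :
    v ∈ U := by
  by_contra hv
  exact hab (eq_of_gen_eigen U hU hv h1 h2)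

end flag

end Pool.Agent.Helper5.TL
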