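import Pool.Agent.Helper5.TL.CoreQ
import Pool.Agent.Helper10.TL.Polyc

/-!
# Final statement for groups that are not virtually polycyclic
-/

namespace Pool.Agent.Helper5.TL

open Module Filter Topology
open scoped Pointwise
open Pool.Agent.Helper11.Gap (IsPolycyclic)

universe u v

theorem exists_dataQ {k : Type u} {G : Type*} {V : Type v} [Field k] [Group G] [AddCommGroup V]
    [Module k V] [IsAlgClosed k] [FiniteDimensional k V] [hfg : Group.FG G]
    (ρ : G →* Module.End k V)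
    (hinj : Function.Injective ρ) (hsol : ∃ H : Subgroup G, H.FiniteIndex ∧ Group.IsSolvable H)
    (hnp : ¬ ∃ H : Subgroup G, H.FiniteIndex ∧ IsPolycyclic H) :
    Nonempty (AffDataQ ρ) := by
  obtain ⟨H, hHf, hHs⟩ := hsol
  obtain ⟨H', hH'f, hflag⟩ := Pool.Agent.Helper3.TL.malcev (ρ.comp H.subtype)
  have hflag' := flagC_map ρ H H' hflag
  have hfi : (H'.map H.subtype).FiniteIndex := by
    refine ⟨?_⟩
    rw [Subgroup.index_map_subtype]
    exact mul_ne_zero hH'f.index_ne_zero hHf.index_ne_zero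
  obtain ⟨N, m, F, c, hNn, hNf, hF⟩ := Pool.Agent.Helper17.TL.exists_flagC2 ρ _ hflag'
  obtain ⟨n₀, hn₀⟩ := Pool.Agent.Helper17.TL.exists_separating ρ N hF
  refine exists_affDataQ ρ hF hn₀ ?_
  intro htop
  apply hnp
  refine ⟨N, hNf, ?_⟩
  obtain ⟨X, hX, hint⟩ := blocks_of_top ρ N hF htop
  have hNfg : N.FG := by
    have : Group.FG N := Subgroup.fg_of_index_ne_zero N
    exact (Group.fg_iff_subgroup_fg N).1 this
  exact Pool.Agent.Helper10.TL.polycyclic_of_blocks ρ hinj N hNfg m F c hF.1 hF.2.1 hF.2.2.1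
    hF.2.2.2.1 (fun j : X => WQ ρ j.1) (fun j n v hv => WQ_inv ρ _ n v hv) hX
    (fun j => Quotient.out j.1) hint

theorem final_any {F : Type u} [Field F] (d : ℕ)
    [DecidableEq (GL (Fin d) F)] (S : Finset (GL (Fin d) F)) (hne : S.Nonempty)
    (hsol : ∃ H : Subgroup (Subgroup.closure (S : Set (GL (Fin d) F))),
      H.FiniteIndex ∧ Group.IsSolvable H) :
    ∃ ρ : ℝ, Tendsto (fun n : ℕ => Real.log ((S ^ n).card : ℝ) / n) atTop (𝓝 ρ) ∧
      ((∃ H : Subgroup (Subgroup.closure (S : Set (GL (Fin d) F))),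
          H.FiniteIndex ∧ Group.IsNilpotent H) ∨
        (CharZero F ∧ ∃ H : Subgroup (Subgroup.closure (S : Set (GL (Fin d) F))),
          H.FiniteIndex ∧ IsPolycyclic H) ∨
        2 * Real.log 2 / (3 * d ^ 2) ≤ ρ) := by
  obtain ⟨p, hp⟩ := CharP.exists F
  rcases CharP.char_is_prime_or_zero F p with hprime | hzero
  · have : Fact p.Prime := ⟨hprime⟩
    obtain ⟨ρ, hρ, h⟩ := final_charP p d S hne hsol
    exact ⟨ρ, hρ, h.imp_right Or.inr⟩
  · subst hzero
    have hC : CharZero F := CharP.charP_to_charZero F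
    obtain ⟨ρ, hρ, S', hS', hw⟩ := exists_rate' S hne
    refine ⟨ρ, hρ, ?_⟩
    by_cases hnp : ∃ H : Subgroup (Subgroup.closure (S : Set (GL (Fin d) F))),
        H.FiniteIndex ∧ IsPolycyclic H
    · exact Or.inr (Or.inl ⟨hC, hnp⟩)
    right; right
    have hfg : Group.FG (Subgroup.closure (S : Set (GL (Fin d) F))) :=
      Group.fg_iff.2 ⟨S', hS', S'.finite_toSet⟩
    let φ := (Subgroup.closure (S : Set (GL (Fin d) F))).subtype
    have hφ : Function.Injective φ := Subgroup.subtype_injective _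
    obtain ⟨D⟩ := exists_dataQ (matRep (AlgebraicClosure F) φ)
      (matRep_injective (AlgebraicClosure F) φ hφ) hsol hnp
    obtain ⟨s, hs, l, hl, hls, hl2⟩ := words_of_dataQ S' hS' _ D
    rw [finrank_fin_fun] at hs
    have := rate_of_words2 hw (B := 3 * d ^ 2) ⟨l, hl, by omega, hl2⟩
    push_cast at this
    exact this

end Pool.Agent.Helper5.TL
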